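import Pool.Graph.R_seed8.Y662.ERG.Fam

/-! # Time averages twisted by a phase -/

set_option autoImplicit false

open MeasureTheory Filter Topology
open scoped BigOperators ENNReal NNReal InnerProductSpace ComplexConjugate

namespace Pool.Agent.H39.WM

open Pool.Agent.H5R2.NB Pool.Agent.H5R2.NBA

/-- the phase `exp(iλs)` -/
noncomputable def ph (l s : ℝ) : ℂ := Complex.exp (((l * s : ℝ) : ℂ) * Complex.I)

theorem ph_norm (l s : ℝ) : ‖ph l s‖ = 1 := Complex.norm_exp_ofReal_mul_I _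

theorem ph_cont (l : ℝ) : Continuous (ph l) := by
  unfold ph
  fun_prop

theorem ph_add (l s t : ℝ) : ph l (s + t) = ph l s * ph l t := by
  unfold ph
  rw [← Complex.exp_add]
  congr 1
  push_cast
  ring

theorem ph_zero (l : ℝ) : ph l 0 = 1 := by
  unfold ph
  simp

theorem ph_conj (l s : ℝ) : conj (ph l s) = ph (-l) s := by
  unfold ph
  rw [← Complex.exp_conj]
  congr 1
  rw [map_mul, Complex.conj_I, Complex.conj_ofReal]
  push_cast
  ring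

theorem ph_neg (l s : ℝ) : ph l (-s) = ph (-l) s := by
  unfold ph
  congr 1
  push_cast
  ring

theorem ph_conj_neg (l s : ℝ) : conj (ph l (-s)) = ph l s := by
  rw [ph_conj, ph_neg, neg_neg]

theorem ph_inv (l s : ℝ) : ph l s * ph l (-s) = 1 := by
  rw [← ph_add, add_neg_cancel, ph_zero]

section abs

variable {X : Type} [NormedAddCommGroup X] [InnerProductSpace ℂ X]

/-- forward twisted average -/
noncomputable def tP (W : UG X) (v : X →L[ℂ] X) (l : ℝ) (N : ℕ) (x : X) : X :=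
  ((N : ℂ)⁻¹) • ∫ s in (0 : ℝ)..(N : ℝ), ph l s • W.U (-s) (v (W.U s x))

/-- backward twisted average -/
noncomputable def tM (W : UG X) (v : X →L[ℂ] X) (l : ℝ) (N : ℕ) (x : X) : X :=
  ((N : ℂ)⁻¹) • ∫ s in (0 : ℝ)..(N : ℝ), ph l (-s) • W.U s (v (W.U (-s) x))

theorem cP (W : UG X) (v : X →L[ℂ] X) (l : ℝ) (x : X) :
    Continuous fun s : ℝ => ph l s • W.U (-s) (v (W.U s x)) :=
  (ph_cont l).smul (LIMB.cont_P W v x)

theorem cM (W : UG X) (v : X →L[ℂ] X) (l : ℝ) (x : X) :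
    Continuous fun s : ℝ => ph l (-s) • W.U s (v (W.U (-s) x)) :=
  ((ph_cont l).comp continuous_neg).smul (LIMB.cont_M W v x)

theorem nP (W : UG X) (v : X →L[ℂ] X) (c : ℂ) (hc : ‖c‖ = 1) (x : X) (s t : ℝ) :
    ‖c • W.U t (v (W.U s x))‖ ≤ ‖v‖ * ‖x‖ := by
  rw [norm_smul, hc, one_mul]
  exact LIMB.norm_P W v x s t

noncomputable def tPL (W : UG X) (v : X →L[ℂ] X) (l : ℝ) (N : ℕ) : X →L[ℂ] X :=
  LinearMap.mkContinuous
    { toFun := tP W v l N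
      map_add' := fun x y => by
        unfold tP
        rw [← smul_add, ← intervalIntegral.integral_add
          ((cP W v l x).intervalIntegrable _ _) ((cP W v l y).intervalIntegrable _ _)]
        simp only [map_add, smul_add]
      map_smul' := fun a x => by
        unfold tP
        simp only [map_smul, RingHom.id_apply]
        simp_rw [smul_comm _ a]
        rw [intervalIntegral.integral_smul, smul_comm] } ‖v‖
    fun x => LIMB.norm_avg _ _ (fun s => nP W v _ (ph_norm _ _) x _ _) N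

noncomputable def tML (W : UG X) (v : X →L[ℂ] X) (l : ℝ) (N : ℕ) : X →L[ℂ] X :=
  LinearMap.mkContinuous
    { toFun := tM W v l N
      map_add' := fun x y => by
        unfold tM
        rw [← smul_add, ← intervalIntegral.integral_add
          ((cM W v l x).intervalIntegrable _ _) ((cM W v l y).intervalIntegrable _ _)]
        simp only [map_add, smul_add]
      map_smul' := fun a x => by
        unfold tM
        simp only [map_smul, RingHom.id_apply]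
        simp_rw [smul_comm _ a]
        rw [intervalIntegral.integral_smul, smul_comm] } ‖v‖
    fun x => LIMB.norm_avg _ _ (fun s => nP W v _ (ph_norm _ _) x _ _) N

theorem norm_tPL (W : UG X) (v : X →L[ℂ] X) (l : ℝ) (N : ℕ) (x : X) :
    ‖tPL W v l N x‖ ≤ ‖v‖ * ‖x‖ :=
  LIMB.norm_avg _ _ (fun _ => nP W v _ (ph_norm _ _) x _ _) N

theorem norm_tML (W : UG X) (v : X →L[ℂ] X) (l : ℝ) (N : ℕ) (x : X) :
    ‖tML W v l N x‖ ≤ ‖v‖ * ‖x‖ :=
  LIMB.norm_avg _ _ (fun _ => nP W v _ (ph_norm _ _) x _ _) N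

/-- both twisted averages converge along `Nk` -/
def GoodT (W : UG X) (v : X →L[ℂ] X) (l : ℝ) (Nk : ℕ → ℕ) (B : X →L[ℂ] X) : Prop :=
  ∀ x, Tendsto (fun k => tP W v l (Nk k) x) atTop (𝓝 (B x)) ∧
    Tendsto (fun k => tM W v l (Nk k) x) atTop (𝓝 (B x))

theorem GoodT.norm {W : UG X} {v : X →L[ℂ] X} {l : ℝ} {Nk : ℕ → ℕ} {B : X →L[ℂ] X}
    (h : GoodT W v l Nk B) (x : X) : ‖B x‖ ≤ ‖v‖ * ‖x‖ :=
  le_of_tendsto (h x).1.norm (Eventually.of_forall fun k => norm_tPL W v l (Nk k) x)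

theorem tP_shift [CompleteSpace X] (W : UG X) (v : X →L[ℂ] X) (l : ℝ) (N : ℕ) (x : X) (t : ℝ) :
    ‖tP W v l N (W.U t x) - ph l (-t) • W.U t (tP W v l N x)‖ ≤
      (N : ℝ)⁻¹ * (2 * (‖v‖ * ‖x‖ * |t|)) := by
  set g : ℝ → X := fun s => ph l s • W.U (-s) (v (W.U s x)) with hg
  have hgc : Continuous g := cP W v l x
  have hi : ∀ a b : ℝ, IntervalIntegrable g volume a b :=
    fun a b => hgc.intervalIntegrable a b
  have hgn : ∀ a b : ℝ, ‖∫ s in a..b, g s‖ ≤ ‖v‖ * ‖x‖ * |b - a| := fun a b =>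
    intervalIntegral.norm_integral_le_of_norm_le_const fun s _ => nP W v _ (ph_norm _ _) x _ _
  have h1 : tP W v l N (W.U t x) =
      ((N : ℂ)⁻¹) • ph l (-t) • W.U t (∫ s in t..(N : ℝ) + t, g s) := by
    unfold tP
    congr 1
    have e1 : ∫ s in (0 : ℝ)..(N : ℝ), ph l s • W.U (-s) (v (W.U s (W.U t x))) =
        ∫ s in (0 : ℝ)..(N : ℝ), (fun r => ph l (-t) • W.U t (g r)) (s + t) := by
      refine intervalIntegral.integral_congr fun s _ => ?_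
      show ph l s • W.U (-s) (v (W.U s (W.U t x))) =
        ph l (-t) • W.U t (ph l (s + t) • W.U (-(s + t)) (v (W.U (s + t) x)))
      rw [map_smul, smul_smul, ← W.add', ← W.add']
      have e2 : ph l (-t) * ph l (s + t) = ph l s := by
        rw [← ph_add]
        congr 1
        ring
      have e3 : t + -(s + t) = -s := by ring
      rw [e2, e3]
    rw [e1, intervalIntegral.integral_comp_add_right (fun r => ph l (-t) • W.U t (g r)) t,
      zero_add, intervalIntegral.integral_smul,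
      ContinuousLinearMap.intervalIntegral_comp_comm _ (hi _ _)]
  have h2 : ph l (-t) • W.U t (tP W v l N x) =
      ((N : ℂ)⁻¹) • ph l (-t) • W.U t (∫ s in (0 : ℝ)..(N : ℝ), g s) := by
    unfold tP
    rw [map_smul, smul_comm]
  rw [h1, h2, ← smul_sub, ← smul_sub, ← map_sub, norm_smul, norm_smul, norm_inv,
    Complex.norm_natCast, W.norm', ph_norm, one_mul]
  refine mul_le_mul_of_nonneg_left ?_ (by positivity)
  have h3 : ∫ s in t..(N : ℝ) + t, g s = (∫ s in t..(0 : ℝ), g s) +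
      (∫ s in (0 : ℝ)..(N : ℝ), g s) + ∫ s in (N : ℝ)..(N : ℝ) + t, g s := by
    rw [intervalIntegral.integral_add_adjacent_intervals (hi _ _) (hi _ _),
      intervalIntegral.integral_add_adjacent_intervals (hi _ _) (hi _ _)]
  have h4 : (∫ s in t..(N : ℝ) + t, g s) - ∫ s in (0 : ℝ)..(N : ℝ), g s =
      (∫ s in t..(0 : ℝ), g s) + ∫ s in (N : ℝ)..(N : ℝ) + t, g s := by
    rw [h3]; abel
  rw [h4]
  have h5 := hgn t 0
  have h6 := hgn (N : ℝ) ((N : ℝ) + t)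
  rw [zero_sub, abs_neg] at h5
  rw [add_sub_cancel_left] at h6
  refine (norm_add_le _ _).trans ?_
  linarith

theorem GoodT.comm [CompleteSpace X] {W : UG X} {v : X →L[ℂ] X} {l : ℝ} {Nk : ℕ → ℕ}
    (hNk : Tendsto Nk atTop atTop) {B : X →L[ℂ] X} (hB : GoodT W v l Nk B) (t : ℝ) (x : X) :
    B (W.U t x) = ph l (-t) • W.U t (B x) := by
  have h1 := (hB (W.U t x)).1
  have h2 : Tendsto (fun k => ph l (-t) • W.U t (tP W v l (Nk k) x)) atTop
      (𝓝 (ph l (-t) • W.U t (B x))) :=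
    (((W.U t).continuous.tendsto _).comp (hB x).1).const_smul _
  have h3 : Tendsto (fun k => tP W v l (Nk k) (W.U t x) -
      ph l (-t) • W.U t (tP W v l (Nk k) x)) atTop (𝓝 0) := by
    refine squeeze_zero_norm (fun k => tP_shift W v l (Nk k) x t) ?_
    have h4 : Tendsto (fun k => ((Nk k : ℕ) : ℝ)⁻¹) atTop (𝓝 0) :=
      tendsto_inv_atTop_zero.comp (tendsto_natCast_atTop_atTop.comp hNk)
    simpa using h4.mul_const (2 * (‖v‖ * ‖x‖ * |t|))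
  have h5 := tendsto_nhds_unique h3 (h1.sub h2)
  exact (sub_eq_zero.1 h5.symm)

theorem tP_adj [CompleteSpace X] (W : UG X) (v : X →L[ℂ] X) (hv : ∀ x y, ⟪v x, y⟫_ℂ = ⟪x, v y⟫_ℂ)
    (hW : ∀ (t : ℝ) (a b : X), ⟪W.U t a, b⟫_ℂ = ⟪a, W.U (-t) b⟫_ℂ)
    (l : ℝ) (N : ℕ) (x y : X) : ⟪tP W v l N x, y⟫_ℂ = ⟪x, tP W v (-l) N y⟫_ℂ := by
  have h1 : ∀ (l : ℝ) (a b : X), ⟪a, ∫ s in (0 : ℝ)..(N : ℝ), ph l s • W.U (-s) (v (W.U s b))⟫_ℂ =
      ∫ s in (0 : ℝ)..(N : ℝ), ⟪a, ph l s • W.U (-s) (v (W.U s b))⟫_ℂ := by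
    intro l a b
    have := (innerSL ℂ a).intervalIntegral_comp_comm
      ((cP W v l b).intervalIntegrable (μ := volume) 0 (N : ℝ))
    simpa using this.symm
  have h2 : ⟪∫ s in (0 : ℝ)..(N : ℝ), ph l s • W.U (-s) (v (W.U s x)), y⟫_ℂ =
      ⟪x, ∫ s in (0 : ℝ)..(N : ℝ), ph (-l) s • W.U (-s) (v (W.U s y))⟫_ℂ := by
    rw [← inner_conj_symm, h1, h1, intervalIntegral.integral_of_le (Nat.cast_nonneg N),
      intervalIntegral.integral_of_le (Nat.cast_nonneg N), ← integral_conj]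
    refine integral_congr_ae (Eventually.of_forall fun s => ?_)
    show conj ⟪y, ph l s • W.U (-s) (v (W.U s x))⟫_ℂ = ⟪x, ph (-l) s • W.U (-s) (v (W.U s y))⟫_ℂ
    rw [inner_conj_symm, inner_smul_left, inner_smul_right, ph_conj, hW, neg_neg, hv, hW]
  show ⟪((N : ℂ)⁻¹) • ∫ s in (0 : ℝ)..(N : ℝ), ph l s • W.U (-s) (v (W.U s x)), y⟫_ℂ =
    ⟪x, ((N : ℂ)⁻¹) • ∫ s in (0 : ℝ)..(N : ℝ), ph (-l) s • W.U (-s) (v (W.U s y))⟫_ℂ
  rw [inner_smul_left, inner_smul_right, h2, map_inv₀, Complex.conj_natCast]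

end abs

variable {ι : Type}

theorem GoodT.adj {W : UG (L2 ι)} {v : L2 ι →L[ℂ] L2 ι} (hv : ∀ x y, ⟪v x, y⟫_ℂ = ⟪x, v y⟫_ℂ)
    {l : ℝ} {Nk : ℕ → ℕ} {B C : L2 ι →L[ℂ] L2 ι} (hB : GoodT W v l Nk B)
    (hC : GoodT W v (-l) Nk C) (x y : L2 ι) : ⟪B x, y⟫_ℂ = ⟪x, C y⟫_ℂ := by
  have h1 : Tendsto (fun k => ⟪tP W v l (Nk k) x, y⟫_ℂ) atTop (𝓝 ⟪B x, y⟫_ℂ) :=
    (hB x).1.inner tendsto_const_nhds
  have h2 : Tendsto (fun k => ⟪x, tP W v (-l) (Nk k) y⟫_ℂ) atTop (𝓝 ⟪x, C y⟫_ℂ) :=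
    tendsto_const_nhds.inner (hC y).1
  have h3 : (fun k => ⟪tP W v l (Nk k) x, y⟫_ℂ) = fun k => ⟪x, tP W v (-l) (Nk k) y⟫_ℂ := by
    funext k
    exact tP_adj W v hv (fun t a b => AB.inner_adj W t a b) l _ x y
  rw [h3] at h1
  exact tendsto_nhds_unique h1 h2

/-- the wave operators intertwine the twisted averages -/
theorem coreT {X : Type} [NormedAddCommGroup X] [InnerProductSpace ℂ X] [CompleteSpace X]
    (W W' : UG X) (v : X →L[ℂ] X) (Nk : ℕ → ℕ)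
    (hN : Tendsto Nk atTop atTop) (l : Filter ℝ) (σ : ℝ → ℝ) (hσ : Continuous σ)
    (hl : Tendsto σ atTop l) (c : ℝ → ℂ) (hc : Continuous c) (hc1 : ∀ s, ‖c s‖ = 1)
    (φ φp ψ ψp b b' : X)
    (hφ : Tendsto (fun t : ℝ => W'.U (-t) (W.U t φ)) l (𝓝 φp))
    (hψ : Tendsto (fun t : ℝ => W'.U (-t) (W.U t ψ)) l (𝓝 ψp))
    (hb : Tendsto (fun k => ((Nk k : ℂ)⁻¹) •
      ∫ s in (0 : ℝ)..(Nk k : ℝ), c s • W.U (-σ s) (v (W.U (σ s) ψ))) atTop (𝓝 b))
    (hb' : Tendsto (fun k => ((Nk k : ℂ)⁻¹) •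
      ∫ s in (0 : ℝ)..(Nk k : ℝ), c s • W'.U (-σ s) (v (W'.U (σ s) ψp))) atTop (𝓝 b')) :
    ⟪φp, b'⟫_ℂ = ⟪φ, b⟫_ℂ := by
  have hD : Tendsto (fun s => c s * (W3.m W' v φp ψp (σ s) - W3.m W v φ ψ (σ s))) atTop
      (𝓝 0) := by
    have h1 := (tendsto_iff_norm_sub_tendsto_zero.1 hφ).comp hl
    have h2 := (tendsto_iff_norm_sub_tendsto_zero.1 hψ).comp hl
    refine squeeze_zero_norm (a := fun s => ‖W'.U (-(σ s)) (W.U (σ s) φ) - φp‖ * (‖v‖ * ‖ψp‖) +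
        ‖φ‖ * (‖v‖ * ‖W'.U (-(σ s)) (W.U (σ s) ψ) - ψp‖)) (fun s => ?_) ?_
    · rw [norm_mul, hc1, one_mul]
      exact W3.m_diff W W' v φ ψ φp ψp (σ s)
    · have h3 := (h1.mul_const (‖v‖ * ‖ψp‖)).add ((h2.const_mul ‖v‖).const_mul ‖φ‖)
      simpa using h3
  have h4 := W3.cesaro (D := fun s => c s * (W3.m W' v φp ψp (σ s) - W3.m W v φ ψ (σ s)))
    (hc.mul (((W3.m_cont W' v φp ψp).comp hσ).sub ((W3.m_cont W v φ ψ).comp hσ)))
    (‖φp‖ * (‖v‖ * ‖ψp‖) + ‖φ‖ * (‖v‖ * ‖ψ‖))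
    (fun s => by
      rw [norm_mul, hc1, one_mul]
      exact (norm_sub_le _ _).trans (add_le_add (W3.m_norm _ _ _ _ _) (W3.m_norm _ _ _ _ _)))
    hD hN
  have hin : ∀ (W : UG X) (x y : X) (N : ℕ),
      ⟪x, ((N : ℂ)⁻¹) • ∫ s in (0 : ℝ)..(N : ℝ), c s • W.U (-σ s) (v (W.U (σ s) y))⟫_ℂ =
      ((N : ℂ)⁻¹) * ∫ s in (0 : ℝ)..(N : ℝ), c s * W3.m W v x y (σ s) := by
    intro W x y N
    rw [inner_smul_right]
    congr 1
    have hcc : Continuous fun s => c s • W.U (-σ s) (v (W.U (σ s) y)) :=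
      hc.smul ((BP.g_cont W v y).comp hσ)
    have h1 := (innerSL ℂ x).intervalIntegral_comp_comm
      (hcc.intervalIntegrable (μ := volume) 0 N)
    simp only [innerSL_apply_apply] at h1
    rw [← h1]
    refine intervalIntegral.integral_congr fun s _ => ?_
    simp only [W3.m]
    rw [inner_smul_right, NN.inner_adj]
  have h5 : ∀ k, ((Nk k : ℂ)⁻¹) * ∫ s in (0 : ℝ)..(Nk k : ℝ),
      c s * (W3.m W' v φp ψp (σ s) - W3.m W v φ ψ (σ s)) =
      ⟪φp, ((Nk k : ℂ)⁻¹) •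
        ∫ s in (0 : ℝ)..(Nk k : ℝ), c s • W'.U (-σ s) (v (W'.U (σ s) ψp))⟫_ℂ -
      ⟪φ, ((Nk k : ℂ)⁻¹) •
        ∫ s in (0 : ℝ)..(Nk k : ℝ), c s • W.U (-σ s) (v (W.U (σ s) ψ))⟫_ℂ := by
    intro k
    rw [hin W', hin W, ← mul_sub, ← intervalIntegral.integral_sub]
    · congr 1
      refine intervalIntegral.integral_congr fun s _ => ?_
      show c s * (W3.m W' v φp ψp (σ s) - W3.m W v φ ψ (σ s)) =
        c s * W3.m W' v φp ψp (σ s) - c s * W3.m W v φ ψ (σ s)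
      ring
    · exact (hc.mul ((W3.m_cont W' v φp ψp).comp hσ)).intervalIntegrable _ _
    · exact (hc.mul ((W3.m_cont W v φ ψ).comp hσ)).intervalIntegrable _ _
  simp only [h5] at h4
  have h6 := (Filter.Tendsto.inner (𝕜 := ℂ) (tendsto_const_nhds (x := φp)) hb').sub
    (Filter.Tendsto.inner (𝕜 := ℂ) (tendsto_const_nhds (x := φ)) hb)
  exact sub_eq_zero.1 (tendsto_nhds_unique h6 h4)

/-- the twisted Cesàro means of an operator which is controlled by finitely many coefficients -/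
theorem neg_coreT {α : Type} (W : UG (L2 ι)) (D : L2 ι →L[ℂ] L2 ι) (F : Finset α) (f : α → L2 ι)
    (A : ℝ) (hD : ∀ x, ‖D x‖ ≤ A * ∑ i ∈ F, ‖⟪f i, x⟫_ℂ‖) (ψ : L2 ι) (σ : ℝ → ℝ)
    (hσ : Continuous σ) (hw : ∀ φ : L2 ι, Tendsto (fun t : ℝ => ⟪φ, W.U (σ t) ψ⟫_ℂ) atTop (𝓝 0))
    (c : ℝ → ℂ) (hc1 : ∀ s, ‖c s‖ = 1)
    (Nk : ℕ → ℕ) (hN : Tendsto Nk atTop atTop) :
    Tendsto (fun k => ((Nk k : ℂ)⁻¹) •
      ∫ s in (0 : ℝ)..(Nk k : ℝ), c s • W.U (-σ s) (D (W.U (σ s) ψ))) atTop (𝓝 0) := by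
  have hc : Continuous fun s : ℝ => ‖D (W.U (σ s) ψ)‖ :=
    (D.continuous.comp ((W.cont' ψ).comp hσ)).norm
  have h0 : Tendsto (fun s : ℝ => ‖D (W.U (σ s) ψ)‖) atTop (𝓝 0) := by
    have h1 : Tendsto (fun s : ℝ => A * ∑ i ∈ F, ‖⟪f i, W.U (σ s) ψ⟫_ℂ‖) atTop
        (𝓝 (A * ∑ _i ∈ F, 0)) := by
      refine Tendsto.const_mul _ (tendsto_finsetSum _ fun i _ => ?_)
      have := (hw (f i)).norm
      rwa [norm_zero] at this
    rw [Finset.sum_const_zero, mul_zero] at h1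
    exact squeeze_zero (fun _ => norm_nonneg _) (fun s => hD _) h1
  have h2 : Tendsto (fun s : ℝ => ((‖D (W.U (σ s) ψ)‖ : ℝ) : ℂ)) atTop (𝓝 0) := by
    have := (Complex.continuous_ofReal.tendsto 0).comp h0
    rwa [Complex.ofReal_zero] at this
  have h3 := W3.cesaro (D := fun s : ℝ => ((‖D (W.U (σ s) ψ)‖ : ℝ) : ℂ))
    (Complex.continuous_ofReal.comp hc) (‖D‖ * ‖ψ‖) (fun s => by
      rw [Complex.norm_real, norm_norm]
      refine (D.le_opNorm _).trans ?_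
      rw [W.norm']) h2 hN
  have h4 := h3.norm
  rw [norm_zero] at h4
  refine squeeze_zero_norm (fun k => ?_) h4
  have hk : (0 : ℝ) ≤ (Nk k : ℝ) := Nat.cast_nonneg _
  have h5 : ‖∫ s in (0 : ℝ)..(Nk k : ℝ), c s • W.U (-σ s) (D (W.U (σ s) ψ))‖ ≤
      ∫ s in (0 : ℝ)..(Nk k : ℝ), ‖D (W.U (σ s) ψ)‖ := by
    refine (intervalIntegral.norm_integral_le_integral_norm hk).trans (le_of_eq ?_)
    refine intervalIntegral.integral_congr fun s _ => ?_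
    show ‖c s • W.U (-σ s) (D (W.U (σ s) ψ))‖ = ‖D (W.U (σ s) ψ)‖
    rw [norm_smul, hc1, one_mul, W.norm']
  have h6 : ∫ s in (0 : ℝ)..(Nk k : ℝ), ((‖D (W.U (σ s) ψ)‖ : ℝ) : ℂ) =
      ((∫ s in (0 : ℝ)..(Nk k : ℝ), ‖D (W.U (σ s) ψ)‖ : ℝ) : ℂ) :=
    intervalIntegral.integral_ofReal
  have h7 : 0 ≤ ∫ s in (0 : ℝ)..(Nk k : ℝ), ‖D (W.U (σ s) ψ)‖ :=
    intervalIntegral.integral_nonneg hk fun s _ => norm_nonneg _
  rw [norm_smul, h6, norm_mul, Complex.norm_real, Real.norm_of_nonneg h7]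
  exact mul_le_mul_of_nonneg_left h5 (norm_nonneg _)

theorem av_subT (W : UG (L2 ι)) (v v' : L2 ι →L[ℂ] L2 ι) (σ : ℝ → ℝ) (hσ : Continuous σ)
    (c : ℝ → ℂ) (hc : Continuous c) (N : ℕ) (x : L2 ι) :
    ((N : ℂ)⁻¹) • (∫ s in (0 : ℝ)..(N : ℝ), c s • W.U (-σ s) (v (W.U (σ s) x))) =
      ((N : ℂ)⁻¹) • (∫ s in (0 : ℝ)..(N : ℝ), c s • W.U (-σ s) (v' (W.U (σ s) x))) -
      ((N : ℂ)⁻¹) • (∫ s in (0 : ℝ)..(N : ℝ), c s • W.U (-σ s) ((v' - v) (W.U (σ s) x))) := by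
  have hi : ∀ u : L2 ι →L[ℂ] L2 ι, IntervalIntegrable
      (fun s : ℝ => c s • W.U (-σ s) (u (W.U (σ s) x))) volume 0 (N : ℝ) := fun u =>
    (hc.smul ((BP.g_cont W u x).comp hσ)).intervalIntegrable _ _
  rw [← smul_sub, ← intervalIntegral.integral_sub (hi v') (hi (v' - v))]
  congr 1
  refine intervalIntegral.integral_congr fun s _ => ?_
  show c s • W.U (-σ s) (v (W.U (σ s) x)) = c s • W.U (-σ s) (v' (W.U (σ s) x)) -
    c s • W.U (-σ s) (v' (W.U (σ s) x) - v (W.U (σ s) x))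
  rw [map_sub, smul_sub]
  abel

end Pool.Agent.H39.WM
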