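import Pool.Agent.H39.WM.A2
import Pool.Graph.R_seed8.Y662.ERG.Off

/-! # Twisted averages of local observables: convergence along subsequences -/

set_option autoImplicit false

open MeasureTheory Filter Topology
open scoped BigOperators ENNReal NNReal InnerProductSpace ComplexConjugate

namespace Pool.Agent.H39.WM

open Pool.Agent.H5R2.NB Pool.Agent.H5R2.NBA
open Pool.Agent.Y662.ERG (Obs tauO)

variable {d : ℕ} {v : (Site d → ℝ) → L2 (Site d) →L[ℂ] L2 (Site d)} {M : ℝ}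

/-- mean square convergence of both averages at `δ_0` to the same limit -/
theorem limaT {c : ℝ} {ev : (Site d → ℝ) → UG (L2 (Site d))} (hev : ∀ V, IsGrp c V (ev V))
    (hO : Obs d v M) (l : ℝ) (ν : Measure ℝ) [IsProbabilityMeasure ν] :
    ∃ b : (Site d → ℝ) → L2 (Site d), AEStronglyMeasurable b (PP d ν) ∧
        Tendsto (fun N : ℕ => ∫⁻ V, ‖tP (ev V) (v V) l N (dl 0) - b V‖ₑ ^ 2 ∂(PP d ν)) atTop
          (𝓝 0) ∧
        Tendsto (fun N : ℕ => ∫⁻ V, ‖tM (ev V) (v V) l N (dl 0) - b V‖ₑ ^ 2 ∂(PP d ν)) atTop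
          (𝓝 0) := by
  have hCV := ALL.a_CV d c ev hev
  have hT0 : Continuous fun p : ℝ × (Site d → ℝ) => tauO ev v p.1 p.2 := by
    unfold tauO
    have g1 : Continuous fun p : ℝ × (Site d → ℝ) => (ev p.2).U p.1 (dl 0) :=
      hCV.comp (by fun_prop :
        Continuous fun p : ℝ × (Site d → ℝ) => (p.2, p.1, (dl 0 : L2 (Site d))))
    have g2 : Continuous fun p : ℝ × (Site d → ℝ) => v p.2 ((ev p.2).U p.1 (dl 0)) :=
      hO.cont.comp (continuous_snd.prodMk g1)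
    exact hCV.comp ((continuous_snd.prodMk (continuous_fst.neg.prodMk g2)) :
      Continuous fun p : ℝ × (Site d → ℝ) => (p.2, -p.1, v p.2 ((ev p.2).U p.1 (dl 0))))
  have hT : Continuous fun p : ℝ × (Site d → ℝ) => ph l p.1 • tauO ev v p.1 p.2 :=
    ((ph_cont l).comp continuous_fst).smul hT0
  have hK : ∀ s V, ‖ph l s • tauO ev v s V‖ ≤ M * ‖(dl 0 : L2 (Site d))‖ := by
    intro s V
    unfold tauO
    rw [norm_smul, ph_norm, one_mul, (ev V).norm']
    refine le_trans (hO.bound V _) ?_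
    rw [(ev V).norm']
  have hP : IsProbabilityMeasure (PP d ν) := by
    unfold PP
    infer_instance
  have hst : ∀ s s' a : ℝ, ∫ V, ⟪ph l (s + a) • tauO ev v (s + a) V,
      ph l (s' + a) • tauO ev v (s' + a) V⟫_ℂ ∂(PP d ν) =
        ∫ V, ⟪ph l s • tauO ev v s V, ph l s' • tauO ev v s' V⟫_ℂ ∂(PP d ν) := by
    intro s s' a
    simp only [inner_smul_left, inner_smul_right]
    rw [integral_const_mul, integral_const_mul, integral_const_mul, integral_const_mul,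
      Pool.Agent.Y662.ERG.stat hev hO ν s s' a, ph_add, ph_add, map_mul]
    have e : conj (ph l a) * ph l a = 1 := by
      rw [ph_conj, ← ph_neg, mul_comm, ph_inv]
    linear_combination (ph l s' * ∫ V, ⟪tauO ev v s V, tauO ev v s' V⟫_ℂ ∂(PP d ν)) *
      conj (ph l s) * e
  obtain ⟨b, hb, hf, hg⟩ := LIMA.main (PP d ν) (fun s V => ph l s • tauO ev v s V) _ t_ME hT hK
    hst
  refine ⟨b, hb, hf, ?_⟩
  unfold tM
  have e : ∀ (V : Site d → ℝ) (s : ℝ), tauO ev v (-s) V =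
      (ev V).U s (v V ((ev V).U (-s) (dl 0))) := by
    intro V s
    unfold tauO
    rw [neg_neg]
  simp only [e] at hg
  exact hg

section shift

open LIMB

variable {c : ℝ} {ev : (Site d → ℝ) → UG (L2 (Site d))} {z : Site d}
  {S T : L2 (Site d) →L[ℂ] L2 (Site d)} {l : ℝ}

theorem tP_conj (hev : ∀ V, IsGrp c V (ev V)) (hO : Obs d v M) (hS : IsShift z S)
    (hT : IsShift (-z) T) (V : Site d → ℝ) (N : ℕ) (x : L2 (Site d)) :
    tP (ev fun y => V (y + z)) (v fun y => V (y + z)) l N x = S (tP (ev V) (v V) l N (T x)) := by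
  unfold tP
  have e := ContinuousLinearMap.intervalIntegral_comp_comm S
    ((cP (ev V) (v V) l (T x)).intervalIntegrable (μ := volume) (0 : ℝ) (N : ℝ))
  rw [map_smul]
  congr 1
  refine Eq.trans ?_ e
  refine intervalIntegral.integral_congr fun s _ => ?_
  have hC := ALL.a_COV d c ev hev z S hS V
  show ph l s • (ev fun y => V (y + z)).U (-s) (v (fun y => V (y + z))
    ((ev fun y => V (y + z)).U s x)) = S (ph l s • (ev V).U (-s) (v V ((ev V).U s (T x))))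
  rw [map_smul, ← hC, ← hO.cov z S hS, ← hC, ZAC.inv1 hS hT]

theorem tM_conj (hev : ∀ V, IsGrp c V (ev V)) (hO : Obs d v M) (hS : IsShift z S)
    (hT : IsShift (-z) T) (V : Site d → ℝ) (N : ℕ) (x : L2 (Site d)) :
    tM (ev fun y => V (y + z)) (v fun y => V (y + z)) l N x = S (tM (ev V) (v V) l N (T x)) := by
  unfold tM
  have e := ContinuousLinearMap.intervalIntegral_comp_comm S
    ((cM (ev V) (v V) l (T x)).intervalIntegrable (μ := volume) (0 : ℝ) (N : ℝ))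
  rw [map_smul]
  congr 1
  refine Eq.trans ?_ e
  refine intervalIntegral.integral_congr fun s _ => ?_
  have hC := ALL.a_COV d c ev hev z S hS V
  show ph l (-s) • (ev fun y => V (y + z)).U s (v (fun y => V (y + z))
    ((ev fun y => V (y + z)).U (-s) x)) = S (ph l (-s) • (ev V).U s (v V ((ev V).U (-s) (T x))))
  rw [map_smul, ← hC, ← hO.cov z S hS, ← hC, ZAC.inv1 hS hT]

theorem good_conj (hev : ∀ V, IsGrp c V (ev V)) (hO : Obs d v M) (hS : IsShift z S)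
    (hT : IsShift (-z) T) (V : Site d → ℝ) (Nk : ℕ → ℕ) (B : L2 (Site d) →L[ℂ] L2 (Site d))
    (hB : GoodT (ev V) (v V) l Nk B) :
    GoodT (ev fun y => V (y + z)) (v fun y => V (y + z)) l Nk ((S.comp B).comp T) := by
  intro x
  obtain ⟨h1, h2⟩ := hB (T x)
  constructor
  · refine ((S.continuous.tendsto _).comp h1).congr fun k => ?_
    rw [tP_conj hev hO hS hT]
    rfl
  · refine ((S.continuous.tendsto _).comp h2).congr fun k => ?_
    rw [tM_conj hev hO hS hT]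
    rfl

theorem cont_intT (hev : ∀ V, IsGrp c V (ev V)) (hO : Obs d v M) (l T : ℝ) :
    Continuous fun p : (Site d → ℝ) × L2 (Site d) =>
      ∫ s in (0 : ℝ)..T, ph l s • (ev p.1).U (-s) (v p.1 ((ev p.1).U s p.2)) := by
  have h := ALL.a_CV d c ev hev
  have h1 : Continuous (fun p : ((Site d → ℝ) × L2 (Site d)) × ℝ =>
      (ev p.1.1).U p.2 p.1.2) :=
    h.comp (by fun_prop : Continuous fun p : ((Site d → ℝ) × L2 (Site d)) × ℝ =>
      ((p.1.1, p.2, p.1.2) : (Site d → ℝ) × ℝ × L2 (Site d)))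
  have h2 : Continuous (fun p : ((Site d → ℝ) × L2 (Site d)) × ℝ =>
      (ev p.1.1).U (-p.2) (v p.1.1 ((ev p.1.1).U p.2 p.1.2))) :=
    h.comp ((continuous_fst.comp continuous_fst).prodMk (continuous_snd.neg.prodMk
      (hO.cont.comp ((continuous_fst.comp continuous_fst).prodMk h1))))
  exact intervalIntegral.continuous_parametric_intervalIntegral_of_continuous'
    (f := fun (p : (Site d → ℝ) × L2 (Site d)) (s : ℝ) =>
      ph l s • (ev p.1).U (-s) (v p.1 ((ev p.1).U s p.2)))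
      (((ph_cont l).comp continuous_snd).smul h2) 0 T

theorem cont_intMT (hev : ∀ V, IsGrp c V (ev V)) (hO : Obs d v M) (l T : ℝ) :
    Continuous fun p : (Site d → ℝ) × L2 (Site d) =>
      ∫ s in (0 : ℝ)..T, ph l (-s) • (ev p.1).U s (v p.1 ((ev p.1).U (-s) p.2)) := by
  have h := ALL.a_CV d c ev hev
  have h1 : Continuous (fun p : ((Site d → ℝ) × L2 (Site d)) × ℝ =>
      (ev p.1.1).U (-p.2) p.1.2) :=
    h.comp (by fun_prop : Continuous fun p : ((Site d → ℝ) × L2 (Site d)) × ℝ =>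
      ((p.1.1, -p.2, p.1.2) : (Site d → ℝ) × ℝ × L2 (Site d)))
  have h2 : Continuous (fun p : ((Site d → ℝ) × L2 (Site d)) × ℝ =>
      (ev p.1.1).U p.2 (v p.1.1 ((ev p.1.1).U (-p.2) p.1.2))) :=
    h.comp ((continuous_fst.comp continuous_fst).prodMk (continuous_snd.prodMk
      (hO.cont.comp ((continuous_fst.comp continuous_fst).prodMk h1))))
  exact intervalIntegral.continuous_parametric_intervalIntegral_of_continuous'
    (f := fun (p : (Site d → ℝ) × L2 (Site d)) (s : ℝ) =>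
      ph l (-s) • (ev p.1).U s (v p.1 ((ev p.1).U (-s) p.2)))
      ((((ph_cont l).comp continuous_neg).comp continuous_snd).smul h2) 0 T

theorem cont_tP (hev : ∀ V, IsGrp c V (ev V)) (hO : Obs d v M) (l : ℝ) (N : ℕ) :
    Continuous fun V => tP (ev V) (v V) l N (dl 0) := by
  unfold tP
  have h := (cont_intT hev hO l (N : ℝ)).comp
    ((continuous_id (X := Site d → ℝ)).prodMk (continuous_const (y := (dl 0 : L2 (Site d)))))
  exact h.const_smul ((N : ℂ)⁻¹)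

theorem cont_tM (hev : ∀ V, IsGrp c V (ev V)) (hO : Obs d v M) (l : ℝ) (N : ℕ) :
    Continuous fun V => tM (ev V) (v V) l N (dl 0) := by
  unfold tM
  have h := (cont_intMT hev hO l (N : ℝ)).comp
    ((continuous_id (X := Site d → ℝ)).prodMk (continuous_const (y := (dl 0 : L2 (Site d)))))
  exact h.const_smul ((N : ℂ)⁻¹)

end shift

open LIMB in
/-- subsequences: the twisted averages converge strongly, almost surely -/
theorem lim2T {c : ℝ} {ev : (Site d → ℝ) → UG (L2 (Site d))} (hev : ∀ V, IsGrp c V (ev V))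
    (hO : Obs d v M) (l : ℝ) (ν : Measure ℝ) [IsProbabilityMeasure ν]
    (Mk : ℕ → ℕ) (hMt : Tendsto Mk atTop atTop) :
      ∃ a : ℕ → ℕ, StrictMono a ∧
        ∀ᵐ V ∂(PP d ν), ∃ B : L2 (Site d) →L[ℂ] L2 (Site d),
          GoodT (ev V) (v V) l (Mk ∘ a) B := by
  have h3 : St_RES := t_RES
  have h5 : St_OPS := t_OPS
  obtain ⟨b, hb, hP0, hM0⟩ := limaT hev hO l ν
  have hP := hP0.comp hMt
  have hM := hM0.comp hMt
  have hfP : ∀ N, AEMeasurable (fun V => ‖tP (ev V) (v V) l N (dl 0) - b V‖ₑ ^ 2) (PP d ν) :=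
    fun N => (((cont_tP hev hO l N).aestronglyMeasurable).sub hb).enorm.pow_const 2
  have hfM : ∀ N, AEMeasurable (fun V => ‖tM (ev V) (v V) l N (dl 0) - b V‖ₑ ^ 2) (PP d ν) :=
    fun N => (((cont_tM hev hO l N).aestronglyMeasurable).sub hb).enorm.pow_const 2
  have hPM := hP.add hM
  rw [add_zero] at hPM
  obtain ⟨a, hmono, hNk⟩ := extraction_forall_of_eventually
    (P := fun n k => (∫⁻ V, ‖tP (ev V) (v V) l (Mk k) (dl 0) - b V‖ₑ ^ 2 ∂(PP d ν)) +
      (∫⁻ V, ‖tM (ev V) (v V) l (Mk k) (dl 0) - b V‖ₑ ^ 2 ∂(PP d ν)) < (2⁻¹ : ℝ≥0∞) ^ n)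
    (fun n => (tendsto_order.1 hPM).2 _ (by
      refine ENNReal.pow_pos ?_ n
      simp))
  refine ⟨a, hmono, ?_⟩
  set Nk : ℕ → ℕ := Mk ∘ a with hNkdef
  have hfS : ∀ n, AEMeasurable (fun V => ‖tP (ev V) (v V) l (Nk n) (dl 0) - b V‖ₑ ^ 2 +
      ‖tM (ev V) (v V) l (Nk n) (dl 0) - b V‖ₑ ^ 2) (PP d ν) := fun n =>
    (hfP (Nk n)).add (hfM (Nk n))
  have hsum : ∫⁻ V, ∑' n, (‖tP (ev V) (v V) l (Nk n) (dl 0) - b V‖ₑ ^ 2 +
      ‖tM (ev V) (v V) l (Nk n) (dl 0) - b V‖ₑ ^ 2) ∂(PP d ν) ≠ ∞ := by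
    rw [lintegral_tsum hfS]
    have hle : ∑' n, ∫⁻ V, (‖tP (ev V) (v V) l (Nk n) (dl 0) - b V‖ₑ ^ 2 +
        ‖tM (ev V) (v V) l (Nk n) (dl 0) - b V‖ₑ ^ 2) ∂(PP d ν) ≤
          ∑' n : ℕ, (2⁻¹ : ℝ≥0∞) ^ n := by
      refine ENNReal.tsum_le_tsum fun n => ?_
      rw [lintegral_add_left' (hfP (Nk n))]
      exact (hNk n).le
    refine ne_top_of_le_ne_top ?_ hle
    rw [ENNReal.tsum_geometric]
    simp
  have hae := ae_lt_top' (AEMeasurable.tsum hfS) hsum
  have hG : ∀ᵐ V ∂(PP d ν), Tendsto (fun n => tP (ev V) (v V) l (Nk n) (dl 0)) atTop (𝓝 (b V)) ∧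
      Tendsto (fun n => tM (ev V) (v V) l (Nk n) (dl 0)) atTop (𝓝 (b V)) := by
    filter_upwards [hae] with V hV
    have h0 := ENNReal.tendsto_atTop_zero_of_tsum_ne_top hV.ne
    constructor
    · refine tendsto_of_enorm_sq (tendsto_of_tendsto_of_tendsto_of_le_of_le tendsto_const_nhds h0
        (fun _ => zero_le) fun n => ?_)
      exact le_self_add
    · refine tendsto_of_enorm_sq (tendsto_of_tendsto_of_tendsto_of_le_of_le tendsto_const_nhds h0
        (fun _ => zero_le) fun n => ?_)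
      exact le_add_self
  have hGz : ∀ᵐ V ∂(PP d ν), ∀ z : Site d,
      Tendsto (fun n => tP (ev fun y => V (y + z)) (v fun y => V (y + z)) l (Nk n) (dl 0)) atTop
        (𝓝 (b fun y => V (y + z))) ∧
      Tendsto (fun n => tM (ev fun y => V (y + z)) (v fun y => V (y + z)) l (Nk n) (dl 0)) atTop
        (𝓝 (b fun y => V (y + z))) := by
    rw [ae_all_iff]
    intro z
    exact ((h3 d ν).2 z).quasiMeasurePreserving.ae hG
  filter_upwards [hGz] with V hV
  have hlim : ∀ (z : Site d) (S : L2 (Site d) →L[ℂ] L2 (Site d)), IsShift (-z) S →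
      Tendsto (fun k => tPL (ev V) (v V) l (Nk k) (dl z)) atTop
        (𝓝 (S (b fun y => V (y + z)))) ∧
      Tendsto (fun k => tML (ev V) (v V) l (Nk k) (dl z)) atTop
        (𝓝 (S (b fun y => V (y + z)))) := by
    intro z S hS
    obtain ⟨T, hT⟩ := (h5 d).1 z
    have hinv : ∀ ψ, S (T ψ) = ψ := fun ψ => by
      ext x
      rw [hS, hT, neg_add_cancel_right]
    constructor
    · have := (S.continuous.tendsto _).comp (hV z).1
      refine this.congr fun k => ?_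
      have e := tP_conj (z := z) (l := l) hev hO hT hS V (Nk k) (dl 0)
      show S (tP (ev fun y => V (y + z)) (v fun y => V (y + z)) l (Nk k) (dl 0)) =
        tP (ev V) (v V) l (Nk k) (dl z)
      rw [e, hinv, LIMB.shift_dl z S hS]
    · have := (S.continuous.tendsto _).comp (hV z).2
      refine this.congr fun k => ?_
      have e := tM_conj (z := z) (l := l) hev hO hT hS V (Nk k) (dl 0)
      show S (tM (ev fun y => V (y + z)) (v fun y => V (y + z)) l (Nk k) (dl 0)) =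
        tM (ev V) (v V) l (Nk k) (dl z)
      rw [e, hinv, LIMB.shift_dl z S hS]
  obtain ⟨B, hB⟩ := ext_lim (fun k => tPL (ev V) (v V) l (Nk k))
    (fun k => tML (ev V) (v V) l (Nk k))
    ‖v V‖ (norm_nonneg _) (fun k => norm_tPL (ev V) (v V) l (Nk k))
    (fun k => norm_tML (ev V) (v V) l (Nk k))
    (Site d) dl (dl_dense d) (fun z => by
      obtain ⟨S, hS⟩ := (h5 d).1 (-z)
      exact ⟨_, hlim z S hS⟩)
  exact ⟨B, hB⟩

/-- both twisted averages, for `l` and `-l`, converge -/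
def TwoT (W : UG (L2 (Site d))) (v : L2 (Site d) →L[ℂ] L2 (Site d)) (l : ℝ) (Nk : ℕ → ℕ) : Prop :=
  (∃ B : L2 (Site d) →L[ℂ] L2 (Site d), GoodT W v l Nk B) ∧
    ∃ B : L2 (Site d) →L[ℂ] L2 (Site d), GoodT W v (-l) Nk B

variable {c : ℝ} {ev : (Site d → ℝ) → UG (L2 (Site d))}

theorem f1T_0 (hev : ∀ V, IsGrp c V (ev V)) (hO : Obs d v M) (l : ℝ) (ν : Measure ℝ)
    [IsProbabilityMeasure ν] (hν : ∀ κ : ℝ, ν {κ} ≠ 1) (Nk : ℕ → ℕ) (hNk : Tendsto Nk atTop atTop)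
    (hG : ∀ᵐ V ∂(PP d ν), TwoT (ev V) (v V) l Nk) :
    ∀ᵐ V ∂(PP d ν), ∀ B C : L2 (Site d) →L[ℂ] L2 (Site d), GoodT (ev V) (v V) l Nk B →
      GoodT (ev V) (v V) (-l) Nk C →
      ∀ φ ∈ HAC (ev V), (∀ t, ⟪φ, (ev V).U t (dl 0)⟫_ℂ = 0) →
        ⟪B φ, (dl 0 : L2 (Site d))⟫_ℂ = 0 := by
  have hmp := (t_RES d ν).1
  have h1 : ∀ᵐ p ∂((PP d ν).prod ν),
      TwoT (ev (Function.update p.1 0 p.2)) (v (Function.update p.1 0 p.2)) l Nk :=
    hmp.quasiMeasurePreserving.ae hG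
  have h2 := Measure.ae_ae_of_ae_prod h1
  filter_upwards [h2] with V hV B C hB hC φ hφ hort
  have h3 : ∃ k, k ≠ V 0 ∧ TwoT (ev (Function.update V 0 k)) (v (Function.update V 0 k)) l Nk := by
    by_contra h
    have h4 : ∀ᵐ k ∂ν, k = V 0 := by
      filter_upwards [hV] with k hk
      by_contra hne
      exact h ⟨k, hne, hk⟩
    have h5 : ν {V 0} = 1 := by
      rw [← prob_compl_eq_zero_iff (measurableSet_singleton _)]
      exact h4
    exact hν _ h5
  obtain ⟨k, hk, -, ⟨Cm, hCm⟩⟩ := h3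
  have hfam := t_FAM ALL.a_UN d c ev hev V
  have hup : Function.update V 0 (V 0) = V := Function.update_eq_self 0 V
  obtain ⟨F, A, hF⟩ := hO.loc V k
  refine w6T_hac (fun κ => ev (Function.update V 0 κ)) (dl 0) hfam hk
    (v (Function.update V 0 k)) (v V) (hO.symm V) F (fun x => (dl x : L2 (Site d))) A
    (fun x => ?_) l Nk hNk Cm B C hCm ?_ ?_ φ ?_ ?_
  · rw [norm_sub_rev]
    exact hF x
  · simpa only [hup] using hB
  · simpa only [hup] using hC
  · simpa only [hup] using hφ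
  · simpa only [hup] using hort

theorem f1T (hev : ∀ V, IsGrp c V (ev V)) (hO : Obs d v M) (l : ℝ) (ν : Measure ℝ)
    [IsProbabilityMeasure ν] (hν : ∀ κ : ℝ, ν {κ} ≠ 1) (Nk : ℕ → ℕ) (hNk : Tendsto Nk atTop atTop)
    (hG : ∀ᵐ V ∂(PP d ν), TwoT (ev V) (v V) l Nk) :
    ∀ᵐ V ∂(PP d ν), ∀ B C : L2 (Site d) →L[ℂ] L2 (Site d), GoodT (ev V) (v V) l Nk B →
      GoodT (ev V) (v V) (-l) Nk C →
      ∀ z : Site d, ∀ φ ∈ HAC (ev V), (∀ t, ⟪φ, (ev V).U t (dl z)⟫_ℂ = 0) →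
        ⟪B φ, (dl z : L2 (Site d))⟫_ℂ = 0 := by
  have h2 := f1T_0 hev hO l ν hν Nk hNk hG
  have h3 : ∀ᵐ V ∂(PP d ν), ∀ z : Site d, ∀ B C : L2 (Site d) →L[ℂ] L2 (Site d),
      GoodT (ev fun y => V (y + z)) (v fun y => V (y + z)) l Nk B →
      GoodT (ev fun y => V (y + z)) (v fun y => V (y + z)) (-l) Nk C →
        ∀ φ ∈ HAC (ev fun y => V (y + z)),
          (∀ t, ⟪φ, (ev fun y => V (y + z)).U t (dl 0)⟫_ℂ = 0) →
          ⟪B φ, (dl 0 : L2 (Site d))⟫_ℂ = 0 := by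
    rw [ae_all_iff]
    intro z
    exact ((t_RES d ν).2 z).quasiMeasurePreserving.ae h2
  filter_upwards [h3] with V hV B C hB hC z φ hφ hort
  obtain ⟨S, hS⟩ := (t_OPS d).1 z
  obtain ⟨T, hT⟩ := (t_OPS d).1 (-z)
  have hSd : S (dl z) = dl 0 := by
    ext x
    rw [hS]
    unfold dl
    rw [lp.single_apply, lp.single_apply, Pi.single_apply, Pi.single_apply]
    by_cases h : x = 0
    · subst h; simp
    · rw [if_neg h, if_neg]
      intro h'
      apply h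
      exact add_eq_right.1 h'
  have hSi : ∀ a b : L2 (Site d), ⟪S a, S b⟫_ℂ = ⟪a, b⟫_ℂ := by
    intro a b
    rw [STAT.shift_inner z S T hS hT, ZAC.inv2 hS hT]
  have h4 := hV z _ _ (good_conj hev hO hS hT V Nk B hB) (good_conj hev hO hS hT V Nk C hC) (S φ)
    (ZAC.hac_conj hev hS hT V φ hφ)
    (fun t => by
      rw [← hSd, ALL.a_COV d c ev hev z S hS V, hSi]
      exact hort t)
  have h5 : ((S.comp B).comp T) (S φ) = S (B φ) := by
    show S (B (T (S φ))) = _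
    rw [ZAC.inv2 hS hT]
  rw [h5, ← hSd, hSi] at h4
  exact h4

/-- what holds for one potential -/
structure PairT (W : UG (L2 (Site d))) (v : L2 (Site d) →L[ℂ] L2 (Site d)) (l : ℝ) (Nk : ℕ → ℕ)
    (B C : L2 (Site d) →L[ℂ] L2 (Site d)) : Prop where
  g : GoodT W v l Nk B
  g' : GoodT W v (-l) Nk C
  o : ∀ z : Site d, ∀ φ ∈ HAC W, (∀ t, ⟪φ, W.U t (dl z)⟫_ℂ = 0) →
    ⟪B φ, (dl z : L2 (Site d))⟫_ℂ = 0
  o' : ∀ z : Site d, ∀ φ ∈ HAC W, (∀ t, ⟪φ, W.U t (dl z)⟫_ℂ = 0) →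
    ⟪C φ, (dl z : L2 (Site d))⟫_ℂ = 0

theorem GoodT.sub {W : UG (L2 (Site d))} {v : L2 (Site d) →L[ℂ] L2 (Site d)} {l : ℝ}
    {Nk : ℕ → ℕ} {B : L2 (Site d) →L[ℂ] L2 (Site d)} (h : GoodT W v l Nk B) {a : ℕ → ℕ}
    (ha : Tendsto a atTop atTop) : GoodT W v l (Nk ∘ a) B := fun x =>
  ⟨(h x).1.comp ha, (h x).2.comp ha⟩

theorem lim_pairT (hev : ∀ V, IsGrp c V (ev V)) (hO : Obs d v M) (l : ℝ) (ν : Measure ℝ)
    [IsProbabilityMeasure ν] (hν : ∀ κ : ℝ, ν {κ} ≠ 1) (Mk : ℕ → ℕ)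
    (hMk : Tendsto Mk atTop atTop) :
      ∃ a : ℕ → ℕ, StrictMono a ∧
        ∀ᵐ V ∂(PP d ν), ∃ B C : L2 (Site d) →L[ℂ] L2 (Site d),
          PairT (ev V) (v V) l (Mk ∘ a) B C := by
  obtain ⟨a, ha, hG⟩ := lim2T hev hO l ν Mk hMk
  have hMa : Tendsto (Mk ∘ a) atTop atTop := hMk.comp ha.tendsto_atTop
  obtain ⟨a', ha', hG'⟩ := lim2T hev hO (-l) ν (Mk ∘ a) hMa
  have hNk : Tendsto (Mk ∘ (a ∘ a')) atTop atTop := hMa.comp ha'.tendsto_atTop
  have hT : ∀ᵐ V ∂(PP d ν), TwoT (ev V) (v V) l (Mk ∘ (a ∘ a')) := by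
    filter_upwards [hG, hG'] with V ⟨B, hB⟩ ⟨C, hC⟩
    exact ⟨⟨B, hB.sub ha'.tendsto_atTop⟩, ⟨C, hC⟩⟩
  refine ⟨a ∘ a', ha.comp ha', ?_⟩
  have hF := f1T hev hO l ν hν _ hNk hT
  have hF' := f1T hev hO (-l) ν hν _ hNk (hT.mono fun V hV => ⟨hV.2, by
    rw [neg_neg]; exact hV.1⟩)
  filter_upwards [hT, hF, hF'] with V ⟨⟨B, hB⟩, ⟨C, hC⟩⟩ h5 h6
  refine ⟨B, C, hB, hC, h5 B C hB hC, h6 C B hC ?_⟩
  rw [neg_neg]
  exact hB

/-- the same with an additive constant -/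
theorem lim_pairT_off (o : ℝ) (hev : ∀ ω : Site d → ℝ, IsGrp c (fun x => o + ω x) (ev ω))
    (hO : Obs d v M) (l : ℝ) (ν : Measure ℝ)
    [IsProbabilityMeasure ν] (hν : ∀ κ : ℝ, ν {κ} ≠ 1) (Mk : ℕ → ℕ)
    (hMk : Tendsto Mk atTop atTop) :
      ∃ a : ℕ → ℕ, StrictMono a ∧
        ∀ᵐ ω ∂(PP d ν), ∃ B C : L2 (Site d) →L[ℂ] L2 (Site d),
          PairT (ev ω) (v ω) l (Mk ∘ a) B C := by
  have hev' : ∀ V, IsGrp c V (ev (Pool.Agent.Y662.ERG.shf o V)) := by
    intro V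
    have h := hev (Pool.Agent.Y662.ERG.shf o V)
    have e : (fun x => o + Pool.Agent.Y662.ERG.shf o V x) = V := by
      funext x
      unfold Pool.Agent.Y662.ERG.shf
      ring
    rwa [e] at h
  set e : (Site d → ℝ) ≃ᵐ (Site d → ℝ) := MeasurableEquiv.addLeft (fun _ : Site d => o) with he
  have hei : ∀ ω, e ω = fun x => o + ω x := fun ω => rfl
  have hse : ∀ ω, Pool.Agent.Y662.ERG.shf o (e ω) = ω := by
    intro ω
    rw [hei]
    funext x
    unfold Pool.Agent.Y662.ERG.shf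
    ring
  have hg : Measurable (fun r : ℝ => o + r) := by fun_prop
  have hpm : IsProbabilityMeasure (ν.map fun r : ℝ => o + r) :=
    Measure.isProbabilityMeasure_map hg.aemeasurable
  have hmap : (PP d ν).map e = PP d (ν.map fun r : ℝ => o + r) := by
    unfold PP
    exact Measure.infinitePi_map_pi (μ := fun _ : Site d => ν) (fun _ => hg)
  have hne : ∀ κ : ℝ, (ν.map fun r : ℝ => o + r) {κ} ≠ 1 := by
    intro κ
    rw [Measure.map_apply hg (measurableSet_singleton κ)]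
    have : (fun r : ℝ => o + r) ⁻¹' {κ} = {κ - o} := by
      ext r
      simp only [Set.mem_preimage, Set.mem_singleton_iff]
      constructor <;> intro h <;> linarith
    rw [this]
    exact hν _
  have hO' := Pool.Agent.Y662.ERG.Obs.off hO o
  obtain ⟨a, ha, hG⟩ := lim_pairT hev' hO' l (ν.map fun r : ℝ => o + r) hne Mk hMk
  refine ⟨a, ha, ?_⟩
  rw [← hmap, e.measurableEmbedding.ae_map_iff] at hG
  filter_upwards [hG] with ω ⟨B, C, hω⟩
  rw [hse] at hω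
  exact ⟨B, C, hω⟩

end Pool.Agent.H39.WM
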