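import Pool.Agent.H39.WM.A3
import Pool.Graph.R_seed8.Y662.ERG.Acp

/-! # The fibres of the twisted averages vanish -/

set_option autoImplicit false

open MeasureTheory Filter Topology Set
open scoped ENNReal NNReal InnerProductSpace ComplexConjugate

namespace Pool.Agent.H39.WM

open Pool.Agent.TH980.IM Pool.Agent.H5R2 Pool.Agent.Y662.ERG
open Pool.Agent.H12R2.And (Rz isUnit_sub sub_Rz im_inner norm_Rz_le diff_inner)
open Pool.Agent.TH980.IM.PR

section abs

variable {X : Type} [NormedAddCommGroup X] [InnerProductSpace ℂ X] [CompleteSpace X]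
variable {T : X →L[ℂ] X}

/-- existence of the coefficient: `w` is approximated by polynomials in `T` applied to `u`, in the
sense of densities -/
theorem exists_coeff' (hT : IsSelfAdjoint T) (w u : X)
    (p : ℕ → Polynomial ℂ)
    (hp : ∀ n, ∫⁻ E, ENNReal.ofReal (dn hT (w - Polynomial.aeval T (p n) u) E) ≤
      (2⁻¹ : ℝ≥0∞) ^ n) :
    ∀ᵐ E : ℝ, ∃ g : ℂ, Ngl T E (w - g • u) := by
  have h1 := dn_small hT (fun n => w - Polynomial.aeval T (p n) u) hp
  have h2 : ∀ᵐ E : ℝ, ∀ n, Tendsto (fun k => qn T (zk k E) (w - Polynomial.aeval T (p n) u))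
      atTop (𝓝 (Real.sqrt (kap * dn hT (w - Polynomial.aeval T (p n) u) E))) :=
    ae_all_iff.2 fun n => qn_tendsto hT _
  filter_upwards [h1, h2, qn_tendsto hT u] with E e1 e2 e3
  set a := Real.sqrt (kap * dn hT u E) with ha
  -- polynomials
  have e4 : ∀ n, Ngl T E (Polynomial.aeval T (p n) u - (p n).eval (E : ℂ) • u) :=
    fun n => ngl_poly hT (p n) u E
  set s : ℕ → ℝ := fun n => Real.sqrt (kap * dn hT (w - Polynomial.aeval T (p n) u) E) with hs
  have hs0 : Tendsto s atTop (𝓝 0) := sqrt_kap_tendsto e1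
  have hs00 : ∀ n, 0 ≤ s n := fun n => Real.sqrt_nonneg _
  have e5 : ∀ n, Tendsto (fun k => qn T (zk k E) (w - (p n).eval (E : ℂ) • u)) atTop
      (𝓝 (s n)) := by
    intro n
    refine Ngl.lim ?_ (e2 n)
    have e : w - (p n).eval (E : ℂ) • u - (w - Polynomial.aeval T (p n) u) =
        Polynomial.aeval T (p n) u - (p n).eval (E : ℂ) • u := by abel
    rw [e]
    exact e4 n
  rcases (Real.sqrt_nonneg (kap * dn hT u E)).eq_or_lt with h0 | h0
  · rw [← ha] at h0
    rw [← h0] at e3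
    refine ⟨0, ?_⟩
    rw [zero_smul, sub_zero]
    have e6 : ∀ n, Tendsto (fun k => qn T (zk k E) w) atTop (𝓝 (s n)) := by
      intro n
      refine Ngl.lim ?_ (e5 n)
      have e : w - (w - (p n).eval (E : ℂ) • u) = (p n).eval (E : ℂ) • u := by abel
      rw [e]
      exact Ngl.smul _ e3
    have e7 : s 0 = 0 := by
      have e8 : ∀ n, s n = s 0 := fun n => tendsto_nhds_unique (e6 n) (e6 0)
      have e9 : Tendsto s atTop (𝓝 (s 0)) := tendsto_const_nhds.congr fun n => (e8 n).symm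
      exact tendsto_nhds_unique e9 hs0
    have := e6 0
    rw [e7] at this
    exact this
  · rw [← ha] at h0
    have e6 : ∀ n m, ‖(p n).eval (E : ℂ) - (p m).eval (E : ℂ)‖ * a ≤ s n + s m := by
      intro n m
      have h3 : Tendsto (fun k => qn T (zk k E) (((p n).eval (E : ℂ) - (p m).eval (E : ℂ)) • u))
          atTop (𝓝 (‖(p n).eval (E : ℂ) - (p m).eval (E : ℂ)‖ * a)) :=
        (e3.const_mul _).congr fun k => (qn_smul _ _ _).symm
      refine le_of_tendsto_of_tendsto' h3 ((e5 n).add (e5 m)) fun k => ?_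
      have e : ((p n).eval (E : ℂ) - (p m).eval (E : ℂ)) • u =
          (w - (p m).eval (E : ℂ) • u) + (-1 : ℂ) • (w - (p n).eval (E : ℂ) • u) := by
        rw [neg_one_smul, sub_smul]; abel
      rw [e]
      refine (qn_add _ _ _).trans ?_
      rw [qn_smul]
      simp only [norm_neg, norm_one, one_mul]
      linarith
    have hcs : CauchySeq fun n => (p n).eval (E : ℂ) := by
      rw [Metric.cauchySeq_iff]
      intro ε hε
      have hh : 0 < ε * a / 2 := by positivity
      obtain ⟨N, hN⟩ := eventually_atTop.1 (hs0.eventually (gt_mem_nhds hh))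
      refine ⟨N, fun m hm n hn => ?_⟩
      rw [dist_eq_norm]
      have h3 := e6 m n
      have h4 := hN m hm
      have h5 := hN n hn
      have h6 : ‖(p m).eval (E : ℂ) - (p n).eval (E : ℂ)‖ * a < ε * a := by linarith
      exact lt_of_mul_lt_mul_right h6 h0.le
    obtain ⟨g, hg⟩ := cauchySeq_tendsto_of_complete hcs
    refine ⟨g, ?_⟩
    unfold Ngl
    rw [Metric.tendsto_atTop]
    intro ε hε
    have h3 : Tendsto (fun n => s n + ‖(p n).eval (E : ℂ) - g‖ * (a + 1)) atTop (𝓝 0) := by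
      have h4 := (tendsto_iff_norm_sub_tendsto_zero.1 hg).mul_const (a + 1)
      have h5 := hs0.add h4
      rwa [zero_mul, add_zero] at h5
    obtain ⟨n, hn⟩ := (h3.eventually (gt_mem_nhds (half_pos hε))).exists
    have h6 := (e5 n).eventually (gt_mem_nhds (show s n < s n + ε / 2 by linarith))
    have h7 := e3.eventually (gt_mem_nhds (show a < a + 1 by linarith))
    obtain ⟨N, hN⟩ := eventually_atTop.1 (h6.and h7)
    refine ⟨N, fun k hk => ?_⟩
    obtain ⟨h8, h9⟩ := hN k hk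
    rw [Real.dist_eq, sub_zero, abs_of_nonneg (qn_nonneg _ _)]
    have e : w - g • u = (w - (p n).eval (E : ℂ) • u) + ((p n).eval (E : ℂ) - g) • u := by
      rw [sub_smul]; abel
    rw [e]
    refine (qn_add _ _ _).trans_lt ?_
    rw [qn_smul]
    have h10 : ‖(p n).eval (E : ℂ) - g‖ * qn T (zk k E) u ≤
        ‖(p n).eval (E : ℂ) - g‖ * (a + 1) := mul_le_mul_of_nonneg_left h9.le (norm_nonneg _)
    linarith

/-- an operator which intertwines the group with the twisted group -/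
theorem comm_ph {C : X →L[ℂ] X} {l : ℝ} (h : ∀ t x, C (Ex T t x) = ph l t • Ex T t (C x))
    (x : X) : C (T x) = T (C x) - (l : ℂ) • C x := by
  have h1 := ((C.restrictScalars ℝ).hasFDerivAt (x := Ex T 0 x)).comp_hasDerivAt (0 : ℝ)
    (Ex_deriv T 0 x)
  have h2 := Ex_deriv T 0 (C x)
  have hph : HasDerivAt (fun s : ℝ => ph l s) ((l : ℂ) * Complex.I) 0 := by
    have e : (fun s : ℝ => ph l s) = fun s : ℝ => Complex.exp (((l : ℂ) * Complex.I) * s) := by
      funext s
      unfold ph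
      congr 1
      push_cast
      ring
    rw [e]
    have h3 : HasDerivAt (fun s : ℝ => ((l : ℂ) * Complex.I) * (s : ℂ)) ((l : ℂ) * Complex.I)
        0 := by
      have := (Complex.ofRealCLM.hasDerivAt (x := (0 : ℝ))).const_mul ((l : ℂ) * Complex.I)
      simpa using this
    have h4 := h3.cexp
    simpa using h4
  have h3 : (⇑(C.restrictScalars ℝ) ∘ fun s : ℝ => Ex T s x) =
      fun s : ℝ => ph l s • Ex T s (C x) := by
    funext s
    exact h s x
  rw [h3] at h1
  have h5 := hph.smul h2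
  have h4 := h1.unique h5
  have e1 : (C.restrictScalars ℝ) (-Complex.I • T (Ex T 0 x)) = C (-Complex.I • T (Ex T 0 x)) :=
    rfl
  rw [e1, Ex_zero, Ex_zero, ph_zero, one_smul, map_smul] at h4
  have h6 : (-Complex.I) • C (T x) = (-Complex.I) • (T (C x) - (l : ℂ) • C x) := by
    rw [h4, smul_sub, smul_smul, neg_mul, neg_smul Complex.I, neg_smul _ (C x), sub_neg_eq_add,
      mul_comm]
  have h7 : (-Complex.I) ≠ 0 := neg_ne_zero.2 Complex.I_ne_zero
  exact smul_right_injective X h7 h6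

end abs

variable {d : ℕ}

/-- the coefficient at one site -/
theorem fib_siteT {K : ℝ} {V : Sd d → ℝ} (hV : ∀ x, |V x| ≤ K) {W : NB.UG (L2 d)}
    (hW : NB.IsGrp (-1) (fun x => 2 * d + V x) W) {B C : L2 d →L[ℂ] L2 d}
    (hBC : ∀ x y, ⟪B x, y⟫_ℂ = ⟪x, C y⟫_ℂ) (e : L2 d)
    (hF : ∀ φ ∈ NBA.HAC W, (∀ t, ⟪φ, W.U t e⟫_ℂ = 0) → ⟪B φ, e⟫_ℂ = 0) :
    ∀ᵐ E : ℝ, ∃ g : ℂ, Ngl (HV K V) E (C e - g • e) := by
  set T := HV K V with hT
  have hsa : IsSelfAdjoint T := HV_sa K V
  have hUE : ∀ t u, W.U t u = Ex T t u := fun t u => grp_Ex hV hW t u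
  obtain ⟨P, hP1, hP2, hP3, hP4, hP5, -⟩ := NBA.t_PR (Sd d) W
  have hPac : ∀ v, spm hsa v ≪ volume → P v = v := by
    intro v hv
    apply hP2
    apply NBA.ALL.a_SPEC
    refine ⟨spm hsa v, inferInstance, hv, fun t => ?_⟩
    rw [hUE]
    exact Ex_spm hsa t v
  -- the closed subspace generated by the vectors `P p(T) e`
  let L : Polynomial ℂ →ₗ[ℂ] L2 d :=
    { toFun := fun p => P (Polynomial.aeval T p e)
      map_add' := fun p q => by
        rw [map_add]
        show P (_ + _) = _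
        rw [map_add]
        rfl
      map_smul' := fun c p => by
        rw [map_smul]
        show P (c • _) = c • _
        rw [map_smul]
        rfl }
  have hL : ∀ p, L p = P (Polynomial.aeval T p e) := fun p => rfl
  set Mc : Submodule ℂ (L2 d) := (LinearMap.range L).topologicalClosure with hMc
  have : CompleteSpace Mc := (Submodule.isClosed_topologicalClosure _).completeSpace_coe
  set w : L2 d := P (C e) with hw
  have hmem : w ∈ Mc := by
    set φ : L2 d := w - Mc.starProjection w with hφ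
    have hφM : φ ∈ Mcᗮ := Submodule.sub_starProjection_mem_orthogonal w
    rw [Submodule.mem_orthogonal'] at hφM
    have h1 : ∀ p : Polynomial ℂ, ⟪P φ, Polynomial.aeval T p e⟫_ℂ = 0 := by
      intro p
      rw [hP3, ← hL]
      exact hφM _ (Submodule.le_topologicalClosure _ ⟨p, rfl⟩)
    have h2 : ∀ t, ⟪P φ, W.U t e⟫_ℂ = 0 := by
      intro t
      rw [hUE]
      apply orth_Ex
      intro m
      have := h1 (Polynomial.X ^ m)
      rwa [map_pow, Polynomial.aeval_X] at this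
    have h3 := hF (P φ) (hP1 φ) h2
    have h4 : ⟪φ, w⟫_ℂ = 0 := by
      rw [hw, ← hP3, ← hBC]
      exact h3
    have h5 : ⟪φ, Mc.starProjection w⟫_ℂ = 0 := hφM _ (Submodule.starProjection_apply_mem _ _)
    have h6 : ⟪φ, φ⟫_ℂ = 0 := by
      conv_lhs => rw [hφ]
      rw [← hφ, inner_sub_right, h4, h5, sub_zero]
    have h7 : φ = 0 := inner_self_eq_zero.1 h6
    rw [hφ, sub_eq_zero] at h7
    rw [h7]
    exact Submodule.starProjection_apply_mem _ _
  have hex : ∀ n : ℕ, ∃ p : Polynomial ℂ, ‖w - P (Polynomial.aeval T p e)‖ < (2⁻¹ : ℝ) ^ n := by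
    intro n
    have h1 : w ∈ closure (LinearMap.range L : Set (L2 d)) := hmem
    obtain ⟨_, ⟨p, rfl⟩, hp⟩ := Metric.mem_closure_iff.1 h1 ((2⁻¹ : ℝ) ^ n) (by positivity)
    refine ⟨p, ?_⟩
    rwa [dist_eq_norm] at hp
  choose p hp using hex
  refine exists_coeff' hsa (C e) e p fun n => ?_
  refine (dn_le_proj hsa P hPac hP3 _).trans ?_
  have h1 : ‖P (C e - Polynomial.aeval T (p n) e)‖ₑ ≤ (2⁻¹ : ℝ≥0∞) ^ n := by
    rw [map_sub, ← ofReal_norm]
    refine (ENNReal.ofReal_le_ofReal (hp n).le).trans (le_of_eq ?_)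
    rw [ENNReal.ofReal_pow (by norm_num), ENNReal.ofReal_inv_of_pos (by norm_num)]
    norm_num
  have h2 : ((2⁻¹ : ℝ≥0∞) ^ n) ≤ 1 := pow_le_one₀ (by simp) (by simp)
  calc ‖P (C e - Polynomial.aeval T (p n) e)‖ₑ ^ 2 ≤ ((2⁻¹ : ℝ≥0∞) ^ n) ^ 2 := by gcongr
    _ = ((2⁻¹ : ℝ≥0∞) ^ n) * ((2⁻¹ : ℝ≥0∞) ^ n) := by rw [pow_two]
    _ ≤ ((2⁻¹ : ℝ≥0∞) ^ n) * 1 := by gcongr
    _ = _ := mul_one _

/-- extremal points of the support -/
theorem supp_le' {K : ℝ} {V : Sd d → ℝ} {E : ℝ} {v u : L2 d} (hv : FS v)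
    (hu : u = HV K V v - (E : ℂ) • v) (y : Sd d)
    (hy : ∀ j, u j ≠ 0 → j = y ∨ ∃ i : Fin d, j = y + Pi.single i 1 ∨ j = y - Pi.single i 1)
    (i0 : Fin d) (s : ℤ) (hs : s = 1 ∨ s = -1) (j : Sd d) (hj : v j ≠ 0) :
    s * j i0 ≤ s * y i0 := by
  by_contra hcon
  push Not at hcon
  obtain ⟨q, hq, hmax⟩ := Finset.exists_max_image hv.toFinset (fun j => s * j i0)
    ⟨j, hv.mem_toFinset.2 hj⟩
  have hqv : v q ≠ 0 := hv.mem_toFinset.1 hq
  have hqy : s * y i0 < s * q i0 := lt_of_lt_of_le hcon (hmax j (hv.mem_toFinset.2 hj))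
  have hz : ∀ p : Sd d, s * q i0 < s * p i0 → v p = 0 := by
    intro p hp
    by_contra hne
    exact absurd (hmax p (hv.mem_toFinset.2 hne)) (not_le.2 hp)
  have hss : s * s = 1 := by rcases hs with h | h <;> rw [h] <;> norm_num
  set p : Sd d := q + Pi.single i0 s with hp
  have hpi : s * p i0 = s * q i0 + 1 := by
    rw [hp, Pi.add_apply, Pi.single_eq_same, mul_add, hss]
  have hvp : v p = 0 := hz p (by rw [hpi]; linarith)
  have hup : u p = - v q := by
    rw [hu, sub_apply', hvp, mul_zero, sub_zero, HV_apply, hvp]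
    simp only [mul_zero, zero_sub, add_zero]
    rw [Finset.sum_eq_single i0]
    · rcases hs with h | h
      · have e1 : p - Pi.single i0 1 = q := by rw [hp, h]; simp
        have e2 : v (p + Pi.single i0 1) = 0 := by
          apply hz
          rw [h, Pi.add_apply, Pi.single_eq_same]
          rw [h] at hpi
          linarith
        rw [e1, e2, neg_zero, zero_sub]
      · have e1 : p + Pi.single i0 1 = q := by
          rw [hp, h, add_assoc, ← Pi.single_add]
          simp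
        have e2 : v (p - Pi.single i0 1) = 0 := by
          apply hz
          rw [h, Pi.sub_apply, Pi.single_eq_same]
          rw [h] at hpi
          linarith
        rw [e1, e2, sub_zero]
    · intro i _ hi
      have hi0 : (Pi.single i (1 : ℤ) : Sd d) i0 = 0 := single_ne i0 i hi
      have e1 : v (p + Pi.single i 1) = 0 := by
        apply hz
        rw [Pi.add_apply, hi0, add_zero, hpi]
        linarith
      have e2 : v (p - Pi.single i 1) = 0 := by
        apply hz
        rw [Pi.sub_apply, hi0, sub_zero, hpi]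
        linarith
      rw [e1, e2]
      simp
    · intro h
      exact absurd (Finset.mem_univ i0) h
  have hune : u p ≠ 0 := by rw [hup]; exact neg_ne_zero.2 hqv
  have hle : s * p i0 ≤ s * y i0 + 1 := by
    have hsi : ∀ t : ℤ, (t = 0 ∨ t = 1 ∨ t = -1) → s * (y i0 + t) ≤ s * y i0 + 1 := by
      intro t ht
      rcases hs with h | h <;> rcases ht with h1 | h1 | h1 <;> rw [h, h1] <;> linarith
    rcases hy p hune with h | ⟨i, h | h⟩
    · rw [h]
      linarith
    · rw [h, Pi.add_apply]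
      apply hsi
      by_cases hii : i = i0
      · subst hii
        rw [Pi.single_eq_same]
        simp
      · rw [single_ne i0 i hii]
        simp
    · rw [h, Pi.sub_apply, sub_eq_add_neg]
      apply hsi
      by_cases hii : i = i0
      · subst hii
        rw [Pi.single_eq_same]
        simp
      · rw [single_ne i0 i hii]
        simp
  rw [hpi] at hle
  linarith

/-- matrix elements -/
theorem HV_ee (K : ℝ) (V : Sd d → ℝ) (y j : Sd d) : (HV K V (ee y)) j =
    ∑ i : Fin d, (2 * (if j = y then (1 : ℂ) else 0) -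
      (if j + Pi.single i 1 = y then 1 else 0) - (if j - Pi.single i 1 = y then 1 else 0)) +
      (cl K (V j) : ℂ) * (if j = y then 1 else 0) := by
  rw [HV_apply]
  simp only [ee_apply]

theorem ne_add (y : Sd d) (i : Fin d) : y + Pi.single i 1 ≠ y := by
  intro h
  have h1 := congrFun h i
  rw [Pi.add_apply, Pi.single_eq_same] at h1
  linarith

theorem ne_sub (y : Sd d) (i : Fin d) : y - Pi.single i 1 ≠ y := by
  intro h
  have h1 := congrFun h i
  rw [Pi.sub_apply, Pi.single_eq_same] at h1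
  linarith

theorem HV_ee_diag (K : ℝ) (V : Sd d → ℝ) (y : Sd d) :
    (HV K V (ee y)) y = ((2 * d + cl K (V y) : ℝ) : ℂ) := by
  rw [HV_ee]
  simp only [if_true, if_neg (ne_add y _), if_neg (ne_sub y _)]
  simp only [Finset.sum_const, Finset.card_univ, Fintype.card_fin, nsmul_eq_mul]
  push_cast
  ring

theorem HV_ee_off (K : ℝ) (V : Sd d → ℝ) {y j : Sd d} (h0 : j ≠ y)
    (h : ∀ i : Fin d, j ≠ y + Pi.single i 1 ∧ j ≠ y - Pi.single i 1) :
    (HV K V (ee y)) j = 0 := by
  rw [HV_ee, if_neg h0]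
  simp only [mul_zero, zero_sub, add_zero]
  refine Finset.sum_eq_zero fun i _ => ?_
  rw [if_neg, if_neg]
  · simp
  · intro h'
    exact (h i).1 (by rw [← h']; simp)
  · intro h'
    exact (h i).2 (by rw [← h']; simp)

theorem HV_ee_add (K : ℝ) (V : Sd d → ℝ) (y : Sd d) (i : Fin d) :
    (HV K V (ee y)) (y + Pi.single i 1) = -1 := by
  rw [HV_ee, if_neg (ne_add y i)]
  simp only [mul_zero, zero_sub, add_zero]
  rw [Finset.sum_eq_single i]
  · rw [if_neg, if_pos]
    · simp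
    · simp
    · intro h
      have h1 := congrFun h i
      rw [Pi.add_apply, Pi.add_apply, Pi.single_eq_same] at h1
      linarith
  · intro k _ hk
    rw [if_neg, if_neg]
    · simp
    · intro h
      have h1 := congrFun h i
      rw [Pi.sub_apply, Pi.add_apply, Pi.single_eq_same, single_ne i k hk] at h1
      linarith
    · intro h
      have h1 := congrFun h i
      rw [Pi.add_apply, Pi.add_apply, Pi.single_eq_same, single_ne i k hk] at h1
      linarith
  · intro h
    exact absurd (Finset.mem_univ i) h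

theorem HV_ee_sub (K : ℝ) (V : Sd d → ℝ) (y : Sd d) (i : Fin d) :
    (HV K V (ee y)) (y - Pi.single i 1) = -1 := by
  rw [HV_ee, if_neg (ne_sub y i)]
  simp only [mul_zero, zero_sub, add_zero]
  rw [Finset.sum_eq_single i]
  · rw [if_pos, if_neg]
    · simp
    · intro h
      have h1 := congrFun h i
      rw [Pi.sub_apply, Pi.sub_apply, Pi.single_eq_same] at h1
      linarith
    · simp
  · intro k _ hk
    rw [if_neg, if_neg]
    · simp
    · intro h
      have h1 := congrFun h i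
      rw [Pi.sub_apply, Pi.sub_apply, Pi.single_eq_same, single_ne i k hk] at h1
      linarith
    · intro h
      have h1 := congrFun h i
      rw [Pi.add_apply, Pi.sub_apply, Pi.single_eq_same, single_ne i k hk] at h1
      linarith
  · intro h
    exact absurd (Finset.mem_univ i) h

/-- the relation between the coefficients at neighbouring sites -/
theorem relT (i0 : Fin d) {K : ℝ} {V : Sd d → ℝ} {h : Sd d → (Sd d → ℝ) × ℝ → ℂ} {E l : ℝ}
    (e1 : Gen K h V E)
    (hPD : ∀ (m : ℤ) (n : ℕ) (p : Fin n → Sd d), Lay i0 m p → PD (MM h p (V, E)))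
    {C : L2 d →L[ℂ] L2 d} (hC : ∀ x, C (HV K V x) = HV K V (C x) - (l : ℂ) • C x)
    {g : Sd d → ℂ} (hg : ∀ x, Ngl (HV K V) E (C (ee x) - g x • ee x)) (x : Sd d) :
    ∃ c : ℂ, (((2 * d + cl K (V x) : ℝ) : ℂ) - E + l) * g x =
        c * (((2 * d + cl K (V x) : ℝ) : ℂ) - E) ∧
      ∀ i : Fin d, g (x + Pi.single i 1) = c ∧ g (x - Pi.single i 1) = c := by
  have hsa := HV_sa K V
  set T := HV K V with hT
  set w : L2 d := T (ee x) - ((E - l : ℝ) : ℂ) • ee x with hw
  have hfs : FS w := by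
    have h1 : FS (T (ee x)) := FS.HV (FS_ee x)
    have h2 : FS ((-1 : ℂ) • ((E - l : ℝ) : ℂ) • (ee x : L2 d)) := ((FS_ee x).smul _).smul _
    have e : w = T (ee x) + (-1 : ℂ) • ((E - l : ℝ) : ℂ) • (ee x : L2 d) := by
      rw [hw, neg_one_smul, sub_eq_add_neg]
    rw [e]
    exact h1.add h2
  set F := hfs.toFinset with hF
  have hrep : w = ∑ y ∈ F, (w y) • ee y := fin_sum fun j hj => by
    by_contra hne
    exact hj (hfs.mem_toFinset.2 hne)
  -- three negligible vectors
  have n2 : Ngl T E (C w) := by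
    have e : C w = T (C (ee x)) - (E : ℂ) • C (ee x) := by
      rw [hw, map_sub, map_smul, hC]
      push_cast
      module
    rw [e]
    exact qn_T hsa _ E
  have n3 : Ngl T E (∑ y ∈ F, w y • (C (ee y) - g y • ee y)) :=
    Ngl.sum F fun y _ => (hg y).smul _
  set u : L2 d := ∑ y ∈ F, (w y * g y) • ee y with hu
  have nu : Ngl T E u := by
    have e : u = C w - ∑ y ∈ F, w y • (C (ee y) - g y • ee y) := by
      have h1 : C w = ∑ y ∈ F, w y • C (ee y) := by
        conv_lhs => rw [hrep]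
        rw [map_sum]
        refine Finset.sum_congr rfl fun y _ => ?_
        rw [map_smul]
      rw [h1, ← Finset.sum_sub_distrib, hu]
      refine Finset.sum_congr rfl fun y _ => ?_
      rw [smul_sub, smul_smul]
      abel
    rw [e]
    exact n2.sub n3
  have hufs : FS u := FS.sum _ fun y _ => (FS_ee y).smul _
  have huj : ∀ j, u j = w j * g j := by
    intro j
    have h1 : u j = inner ℂ (ee j) u := (inner_ee j u).symm
    rw [h1, hu, inner_sum]
    simp only [inner_smul_right, inner_ee, ee_apply]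
    simp only [mul_ite, mul_one, mul_zero, Finset.sum_ite_eq]
    split_ifs with hj
    · rfl
    · have : w j = 0 := by
        by_contra hne
        exact hj (hfs.mem_toFinset.2 hne)
      rw [this, zero_mul]
  have hwj : ∀ j, w j = (T (ee x)) j - ((E - l : ℝ) : ℂ) * (ee x : L2 d) j := fun j => rfl
  obtain ⟨v, hv, huv⟩ := kernel_zk i0 e1 hPD hufs nu
  have hnb : ∀ j, u j ≠ 0 → j = x ∨ ∃ i : Fin d, j = x + Pi.single i 1 ∨ j = x - Pi.single i 1 := by
    intro j hj
    rw [huj] at hj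
    by_contra hcon
    push Not at hcon
    obtain ⟨hc1, hc2⟩ := hcon
    apply hj
    rw [hwj, HV_ee_off K V hc1 hc2, ee_apply, if_neg hc1]
    ring
  have hsupp : ∀ j, v j ≠ 0 → j = x := by
    intro j hj
    funext i
    have h1 := supp_le' hv huv x hnb i 1 (Or.inl rfl) j hj
    have h2 := supp_le' hv huv x hnb i (-1) (Or.inr rfl) j hj
    linarith
  have hvx : v = v x • (ee x : L2 d) := by
    refine lp.ext (funext fun j => ?_)
    show v j = v x * (ee x : L2 d) j
    rw [ee_apply]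
    by_cases hj : j = x
    · rw [if_pos hj, hj, mul_one]
    · rw [if_neg hj, mul_zero]
      by_contra hne
      exact hj (hsupp j hne)
  have huj2 : ∀ j, u j = v x * ((T (ee x)) j - (E : ℂ) * (ee x : L2 d) j) := by
    intro j
    have h1 : u = v x • (T (ee x) - (E : ℂ) • ee x) := by
      rw [huv]
      conv_lhs => rw [hvx]
      rw [map_smul, smul_sub, smul_comm (E : ℂ)]
    rw [h1]
    rfl
  refine ⟨v x, ?_, fun i => ⟨?_, ?_⟩⟩
  · have h1 := (huj x).symm.trans (huj2 x)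
    rw [hwj, HV_ee_diag, ee_apply, if_pos rfl] at h1
    push_cast at h1 ⊢
    linear_combination h1
  · have h1 := (huj (x + Pi.single i 1)).symm.trans (huj2 (x + Pi.single i 1))
    rw [hwj, HV_ee_add, ee_apply, if_neg (ne_add x i)] at h1
    linear_combination -h1
  · have h1 := (huj (x - Pi.single i 1)).symm.trans (huj2 (x - Pi.single i 1))
    rw [hwj, HV_ee_sub, ee_apply, if_neg (ne_sub x i)] at h1
    linear_combination -h1

/-- the coefficients vanish -/
theorem zeroT (i0 : Fin d) {K : ℝ} {V : Sd d → ℝ} {h : Sd d → (Sd d → ℝ) × ℝ → ℂ} {E l : ℝ}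
    (hl : l ≠ 0) (e1 : Gen K h V E)
    (hPD : ∀ (m : ℤ) (n : ℕ) (p : Fin n → Sd d), Lay i0 m p → PD (MM h p (V, E)))
    {C : L2 d →L[ℂ] L2 d} (hC : ∀ x, C (HV K V x) = HV K V (C x) - (l : ℂ) • C x)
    {g : Sd d → ℂ} (hg : ∀ x, Ngl (HV K V) E (C (ee x) - g x • ee x))
    (hE : ∀ x y, (2 * d + cl K (V x)) + (2 * d + cl K (V y)) - 2 * E + l ≠ (0 : ℝ)) (x : Sd d) :
    g x = 0 := by
  obtain ⟨c, hc1, hc2⟩ := relT i0 e1 hPD hC hg x
  obtain ⟨c', hc1', hc2'⟩ := relT i0 e1 hPD hC hg (x + Pi.single i0 1)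
  have h1 := (hc2 i0).1
  have h2 := (hc2' i0).2
  rw [add_sub_cancel_right] at h2
  rw [← h1] at hc1
  rw [← h2] at hc1'
  set y := x + Pi.single i0 1 with hy
  set a : ℂ := ((2 * d + cl K (V x) : ℝ) : ℂ) - E with ha
  set b : ℂ := ((2 * d + cl K (V y) : ℝ) : ℂ) - E with hb
  have h3 : g x * (l * (a + b + l)) = 0 := by
    linear_combination (b + l) * hc1 + a * hc1'
  rcases mul_eq_zero.1 h3 with h4 | h4
  · exact h4
  · exfalso
    rcases mul_eq_zero.1 h4 with h5 | h5
    · exact hl (by exact_mod_cast h5)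
    · apply hE x y
      have h6 : (((2 * d + cl K (V x)) + (2 * d + cl K (V y)) - 2 * E + l : ℝ) : ℂ) = 0 := by
        rw [ha, hb] at h5
        rw [← h5]
        push_cast
        ring
      exact_mod_cast h6

/-- all sites are negligible in almost every fibre -/
theorem nglT (hd : 1 ≤ d) {K : ℝ} {V : Sd d → ℝ} (hV : ∀ x, |V x| ≤ K) {W : NB.UG (L2 d)}
    (hW : NB.IsGrp (-1) (fun x => 2 * d + V x) W) {l : ℝ} (hl : l ≠ 0) {B C : L2 d →L[ℂ] L2 d}
    (hBC : ∀ x y, ⟪B x, y⟫_ℂ = ⟪x, C y⟫_ℂ) (hCc : ∀ t x, C (W.U t x) = ph l t • W.U t (C x))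
    (hF : ∀ z : Sd d, ∀ φ ∈ NBA.HAC W, (∀ t, ⟪φ, W.U t (ee z)⟫_ℂ = 0) → ⟪B φ, ee z⟫_ℂ = 0)
    {h : Sd d → (Sd d → ℝ) × ℝ → ℂ} {Sg : Set ℝ}
    (h1 : ∀ᵐ E : ℝ, Gen K h V E)
    (h2 : ∀ᵐ E : ℝ, E ∈ Sg → ∀ (i0 : Fin d) (m : ℤ) (n : ℕ) (p : Fin n → Sd d), Lay i0 m p →
      PD (MM h p (V, E)))
    (h3 : ∀ᵐ E : ℝ, E ∉ Sg → ∀ x : Sd d, (h 0 (sh x V, E)).im ≤ 0) (x : Sd d) :
    acP (HV_sa K V) (C (ee x)) = 0 := by
  have hUE : ∀ t u, W.U t u = Ex (HV K V) t u := fun t u => grp_Ex hV hW t u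
  have hCT : ∀ x, C (HV K V x) = HV K V (C x) - (l : ℂ) • C x :=
    comm_ph fun t x => by rw [← hUE, hCc, hUE]
  have h4 : ∀ᵐ E : ℝ, ∀ x : Sd d, ∃ g : ℂ, Ngl (HV K V) E (C (ee x) - g • ee x) :=
    ae_all_iff.2 fun x => fib_siteT hV hW hBC (ee x) (hF x)
  have h5 : ∀ᵐ E : ℝ, ∀ x y : Sd d,
      (2 * d + cl K (V x)) + (2 * d + cl K (V y)) - 2 * E + l ≠ (0 : ℝ) := by
    rw [ae_all_iff]
    intro x
    rw [ae_all_iff]
    intro y
    have : ∀ᵐ E : ℝ, E ∉ ({((2 * d + cl K (V x)) + (2 * d + cl K (V y)) + l) / 2} : Set ℝ) :=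
      (Set.countable_singleton _).ae_notMem volume
    filter_upwards [this] with E hE hE2
    apply hE
    rw [Set.mem_singleton_iff]
    linarith
  have key : ∀ᵐ E : ℝ, dn (HV_sa K V) (C (ee x)) E = 0 := by
    filter_upwards [h1, h2, h3, h4, h5, qn_tendsto (HV_sa K V) (C (ee x))]
      with E e1 e2 e3 e4 e5 e6
    have hN : Ngl (HV K V) E (C (ee x)) := by
      choose g hg using e4
      by_cases hE : E ∈ Sg
      · have h6 := zeroT ⟨0, hd⟩ hl e1 (fun m n p hp => e2 hE _ m n p hp) hCT hg e5 x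
        have h7 := hg x
        rwa [h6, zero_smul, sub_zero] at h7
      · have t1 : Tendsto (fun k => inner ℂ (ee x) (Rz (HV K V) (zk k E) (ee x))) atTop
            (𝓝 (h 0 (sh x V, E))) := by
          have := e1 x x
          rw [sub_self] at this
          refine this.congr fun k => ?_
          exact GG_inner K V _ x x
        have t2 := qn_lim (HV_sa K V) t1
        rw [Real.sqrt_eq_zero_of_nonpos (e3 hE x)] at t2
        have t3 : Ngl (HV K V) E (ee x) := t2
        have h7 := (hg x).add (t3.smul (g x))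
        rwa [sub_add_cancel] at h7
    have h8 := tendsto_nhds_unique e6 hN
    have h9 : kap * dn (HV_sa K V) (C (ee x)) E ≤ 0 := Real.sqrt_eq_zero'.1 h8
    have h10 := kap_pos
    have h11 := dn_nonneg (HV_sa K V) (C (ee x)) E
    nlinarith
  have h6 := acP_mass (HV_sa K V) (C (ee x))
  have h7 : ∫⁻ E, ENNReal.ofReal (dn (HV_sa K V) (C (ee x)) E) = 0 := by
    rw [lintegral_eq_zero_iff' (dn_meas _ _).ennreal_ofReal.aemeasurable]
    filter_upwards [key] with E hE
    rw [hE]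
    simp
  rw [h7] at h6
  have h8 : ‖acP (HV_sa K V) (C (ee x))‖ₑ = 0 := by
    by_contra hne
    exact (pow_ne_zero 2 hne) h6
  exact enorm_eq_zero.1 h8

/-- **twisted averages vanish on the absolutely continuous subspace** -/
theorem vanishT (hd : 1 ≤ d) {K : ℝ} {V : Sd d → ℝ} (hV : ∀ x, |V x| ≤ K) {W : NB.UG (L2 d)}
    (hW : NB.IsGrp (-1) (fun x => 2 * d + V x) W) {l : ℝ} (hl : l ≠ 0) {B C : L2 d →L[ℂ] L2 d}
    (hBC : ∀ x y, ⟪B x, y⟫_ℂ = ⟪x, C y⟫_ℂ) (hCc : ∀ t x, C (W.U t x) = ph l t • W.U t (C x))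
    (hF : ∀ z : Sd d, ∀ φ ∈ NBA.HAC W, (∀ t, ⟪φ, W.U t (ee z)⟫_ℂ = 0) → ⟪B φ, ee z⟫_ℂ = 0)
    {h : Sd d → (Sd d → ℝ) × ℝ → ℂ} {Sg : Set ℝ}
    (h1 : ∀ᵐ E : ℝ, Gen K h V E)
    (h2 : ∀ᵐ E : ℝ, E ∈ Sg → ∀ (i0 : Fin d) (m : ℤ) (n : ℕ) (p : Fin n → Sd d), Lay i0 m p →
      PD (MM h p (V, E)))
    (h3 : ∀ᵐ E : ℝ, E ∉ Sg → ∀ x : Sd d, (h 0 (sh x V, E)).im ≤ 0)
    {ψ : L2 d} (hψ : spm (HV_sa K V) ψ ≪ volume) : B ψ = 0 := by
  refine lp.ext (funext fun x => ?_)
  have e1 : (B ψ) x = inner ℂ (ee x) (B ψ) := (inner_ee x _).symm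
  have e2 : ⟪B ψ, ee x⟫_ℂ = 0 := by
    rw [hBC, ← acP_of (HV_sa K V) hψ, acP_symm, nglT hd hV hW hl hBC hCc hF h1 h2 h3 x,
      inner_zero_right]
  have e3 : inner ℂ (ee x) (B ψ) = (0 : ℂ) := by
    rw [← inner_conj_symm, e2, map_zero]
  rw [e1, e3]
  rfl

end Pool.Agent.H39.WM
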