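import Pool.Agent.H39.WM.A3
import Pool.Agent.H39.WM.A4

/-! # The twisted averages of a local observable vanish on absolutely continuous states -/

set_option autoImplicit false

open MeasureTheory Filter Topology
open scoped BigOperators ENNReal NNReal InnerProductSpace ComplexConjugate

namespace Pool.Agent.H39.WM

open Pool.Agent.TH980.IM Pool.Agent.H5R2 Pool.Agent.Y662.ERG
open Pool.Agent.TH980.IM.PR

variable {d : ℕ} {ev : (NB.Site d → ℝ) → NB.UG (L2 d)} {v : (NB.Site d → ℝ) → L2 d →L[ℂ] L2 d}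
  {M : ℝ}

theorem tw_obs (hd : 1 ≤ d) {K : ℝ} {ν : Measure ℝ} [IsProbabilityMeasure ν]
    (hK : ∀ᵐ r ∂ν, |r| ≤ K) (hν : ∀ r : ℝ, ν {r} ≠ 1)
    (hev : ∀ ω : NB.Site d → ℝ, NB.IsGrp (-1) (fun x => 2 * d + ω x) (ev ω))
    (hO : Obs d v M) {l : ℝ} (hl : l ≠ 0)
    (Mk : ℕ → ℕ) (hMk : Tendsto Mk atTop atTop) :
    ∃ a : ℕ → ℕ, StrictMono a ∧ ∀ᵐ ω ∂(NB.PP d ν),
      ∃ B : L2 d →L[ℂ] L2 d, GoodT (ev ω) (v ω) l (Mk ∘ a) B ∧
        ∀ ψ, spm (HV_sa K ω) ψ ≪ volume → B ψ = 0 := by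
  obtain ⟨a, ha, hG⟩ := lim_pairT_off (2 * d) hev hO l ν hν Mk hMk
  have hNk : Tendsto (Mk ∘ a) atTop atTop := hMk.comp ha.tendsto_atTop
  refine ⟨a, ha, ?_⟩
  have hbd : ∀ᵐ ω ∂(NB.PP d ν), ∀ x, |ω x| ≤ K := by
    rw [ae_all_iff]
    intro x
    exact (measurePreserving_eval_infinitePi (fun _ : Sd d => ν) x).quasiMeasurePreserving.ae hK
  obtain ⟨hh, Sg, hSg, hm, hcore⟩ := all_core (d := d) hd hK hν
  filter_upwards [hG, hbd, hcore] with ω ⟨B, C, hBC⟩ e2 ⟨e3, e4, e5⟩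
  refine ⟨B, hBC.g, fun ψ hψ => ?_⟩
  refine vanishT (B := B) (C := C) (W := ev ω) (l := l) hd e2 (hev ω) hl
    (fun x y => GoodT.adj (hO.symm ω) hBC.g hBC.g' x y) (fun t x => ?_) (fun z φ hφ hort => ?_)
    e3 e5 e4 hψ
  · have h := GoodT.comm hNk hBC.g' t x
    rw [ph_neg, neg_neg] at h
    exact h
  · exact hBC.o z φ hφ hort

end Pool.Agent.H39.WM
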