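import Mathlib

/-! # Stationary sequences in a Hilbert space: weak mixing from uniform bounds of the twisted
averages -/

set_option autoImplicit false

open MeasureTheory Filter Topology
open scoped BigOperators InnerProductSpace ComplexConjugate

namespace Pool.Agent.H39.WM

/-- the phase `exp(iλs)` (the same as `ph`) -/
noncomputable def ps (l s : ℝ) : ℂ := Complex.exp (((l * s : ℝ) : ℂ) * Complex.I)

theorem ps_norm (l s : ℝ) : ‖ps l s‖ = 1 := Complex.norm_exp_ofReal_mul_I _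

theorem ps_cont (s : ℝ) : Continuous fun l => ps l s := by
  unfold ps
  fun_prop

theorem ps_add (l s t : ℝ) : ps l (s + t) = ps l s * ps l t := by
  unfold ps
  rw [← Complex.exp_add]
  congr 1
  push_cast
  ring

theorem ps_conj (l s : ℝ) : conj (ps l s) = ps l (-s) := by
  unfold ps
  rw [← Complex.exp_conj]
  congr 1
  rw [map_mul, Complex.conj_I, Complex.conj_ofReal]
  push_cast
  ring

/-- orthogonality of the characters -/
theorem ps_orth (j : ℤ) : ∫ θ in (-Real.pi)..Real.pi, ps θ (j : ℝ) =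
    if j = 0 then ((2 * Real.pi : ℝ) : ℂ) else 0 := by
  have e : ∀ θ : ℝ, ps θ (j : ℝ) = Complex.exp ((Complex.I * j) * θ) := by
    intro θ
    unfold ps
    congr 1
    push_cast
    ring
  simp_rw [e]
  split_ifs with h
  · subst h
    simp
    ring
  · have hc : Complex.I * (j : ℂ) ≠ 0 := mul_ne_zero Complex.I_ne_zero (by exact_mod_cast h)
    rw [integral_exp_mul_complex hc]
    have e2 : Complex.exp ((Complex.I * j) * (Real.pi : ℝ)) =
        Complex.exp ((Complex.I * j) * ((-Real.pi : ℝ) : ℂ)) := by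
      rw [Complex.exp_eq_exp_iff_exists_int]
      refine ⟨j, ?_⟩
      push_cast
      ring
    rw [e2, sub_self, zero_div]

variable {Y : Type*} [NormedAddCommGroup Y] [InnerProductSpace ℂ Y]

/-- stationary sequences -/
def StS (x : ℕ → Y) : Prop := ∀ m n a : ℕ, ⟪x (m + a), x (n + a)⟫_ℂ = ⟪x m, x n⟫_ℂ

theorem norm_sq_sum {ι : Type*} (s : Finset ι) (z : ι → Y) :
    ((‖∑ i ∈ s, z i‖ ^ 2 : ℝ) : ℂ) = ∑ i ∈ s, ∑ j ∈ s, ⟪z i, z j⟫_ℂ := by
  have h : ⟪∑ i ∈ s, z i, ∑ i ∈ s, z i⟫_ℂ = ((‖∑ i ∈ s, z i‖ ^ 2 : ℝ) : ℂ) := by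
    rw [inner_self_eq_norm_sq_to_K]
    push_cast
    rfl
  rw [← h, sum_inner]
  refine Finset.sum_congr rfl fun i _ => ?_
  rw [inner_sum]

theorem StS.norm_sum {x : ℕ → Y} (h : StS x) (s : Finset ℕ) (c : ℕ → ℂ) (a : ℕ) :
    ‖∑ n ∈ s, c n • x (n + a)‖ = ‖∑ n ∈ s, c n • x n‖ := by
  have h1 := norm_sq_sum s fun n => c n • x (n + a)
  have h2 := norm_sq_sum s fun n => c n • x n
  have h3 : ∀ i j, ⟪c i • x (i + a), c j • x (j + a)⟫_ℂ = ⟪c i • x i, c j • x j⟫_ℂ := by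
    intro i j
    rw [inner_smul_left, inner_smul_right, inner_smul_left, inner_smul_right, h]
  simp_rw [h3] at h1
  rw [← h2] at h1
  have h4 : ‖∑ n ∈ s, c n • x (n + a)‖ ^ 2 = ‖∑ n ∈ s, c n • x n‖ ^ 2 := by exact_mod_cast h1
  exact (sq_eq_sq₀ (norm_nonneg _) (norm_nonneg _)).1 h4

/-- the twisted sums -/
noncomputable def SN (x : ℕ → Y) (N : ℕ) (θ : ℝ) : Y := ∑ n ∈ Finset.range N, ps θ n • x n

theorem SN_cont (x : ℕ → Y) (N : ℕ) : Continuous (SN x N) := by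
  unfold SN
  refine continuous_finsetSum _ fun n _ => ?_
  exact (ps_cont _).smul continuous_const

theorem SN_add {x : ℕ → Y} (h : StS x) (N M : ℕ) (θ : ℝ) :
    ‖SN x (N + M) θ‖ ≤ ‖SN x N θ‖ + ‖SN x M θ‖ := by
  unfold SN
  rw [Finset.sum_range_add]
  refine (norm_add_le _ _).trans (add_le_add le_rfl (le_of_eq ?_))
  have e : ∀ m ∈ Finset.range M, ps θ ((N + m : ℕ) : ℝ) • x (N + m) =
      ps θ N • (ps θ m • x (m + N)) := by
    intro m _
    rw [smul_smul, add_comm N m]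
    congr 1
    push_cast
    rw [ps_add, mul_comm]
  rw [Finset.sum_congr rfl e, ← Finset.smul_sum, norm_smul, ps_norm, one_mul,
    h.norm_sum (Finset.range M) (fun m => ps θ m) N]

theorem SN_mul {x : ℕ → Y} (h : StS x) (N k : ℕ) (θ : ℝ) :
    ‖SN x (k * N) θ‖ ≤ k * ‖SN x N θ‖ := by
  induction k with
  | zero => simp [SN]
  | succ k ih =>
    have h1 := SN_add h (k * N) N θ
    have e : (k + 1) * N = k * N + N := by ring
    rw [e]
    refine h1.trans ?_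
    push_cast
    linarith

/-- uniformity by compactness -/
theorem unif {x : ℕ → Y} (h : StS x) {r : ℝ}
    (hr : ∀ θ ∈ Set.Icc (-Real.pi) Real.pi, ∃ N : ℕ, 0 < N ∧ ‖SN x N θ‖ < r * N) :
    ∃ N : ℕ, 0 < N ∧ ∀ k : ℕ, ∀ θ ∈ Set.Icc (-Real.pi) Real.pi,
      ‖SN x (k * N) θ‖ ≤ r * (k * N : ℕ) := by
  set U : ℕ → Set ℝ := fun N => {θ | ‖SN x (N + 1) θ‖ < r * ((N + 1 : ℕ) : ℝ)} with hU
  have hUo : ∀ N, IsOpen (U N) := fun N =>
    isOpen_lt (SN_cont x (N + 1)).norm continuous_const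
  have hcov : Set.Icc (-Real.pi) Real.pi ⊆ ⋃ N, U N := by
    intro θ hθ
    obtain ⟨N, hN, hlt⟩ := hr θ hθ
    refine Set.mem_iUnion.2 ⟨N - 1, ?_⟩
    show ‖SN x (N - 1 + 1) θ‖ < r * ((N - 1 + 1 : ℕ) : ℝ)
    rw [Nat.sub_add_cancel hN]
    exact hlt
  obtain ⟨t, ht⟩ := isCompact_Icc.elim_finite_subcover U hUo hcov
  refine ⟨∏ N ∈ t, (N + 1), Finset.prod_pos fun N _ => Nat.succ_pos N, fun k θ hθ => ?_⟩
  obtain ⟨N, hNt, hN⟩ := Set.mem_iUnion₂.1 (ht hθ)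
  obtain ⟨q, hq⟩ : (N + 1) ∣ k * ∏ N ∈ t, (N + 1) :=
    Dvd.dvd.mul_left (Finset.dvd_prod_of_mem (fun N => N + 1) hNt) k
  rw [hq, mul_comm]
  refine (SN_mul h (N + 1) q θ).trans ?_
  have h1 : ‖SN x (N + 1) θ‖ ≤ r * ((N + 1 : ℕ) : ℝ) := (show θ ∈ U N from hN).le
  calc (q : ℝ) * ‖SN x (N + 1) θ‖ ≤ q * (r * ((N + 1 : ℕ) : ℝ)) :=
        mul_le_mul_of_nonneg_left h1 (Nat.cast_nonneg q)
    _ = r * ((q * (N + 1) : ℕ) : ℝ) := by push_cast; ring

/-- Parseval for finite sums of characters -/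
theorem parseval {ι : Type*} (I : Finset ι) (f : ι → ℤ) (y : ι → Y) :
    ((∫ θ in (-Real.pi)..Real.pi, ‖∑ i ∈ I, ps θ (f i : ℝ) • y i‖ ^ 2 : ℝ) : ℂ) =
      ((2 * Real.pi : ℝ) : ℂ) * ∑ i ∈ I, ∑ j ∈ I, if f i = f j then ⟪y i, y j⟫_ℂ else 0 := by
  have h1 : ∀ θ : ℝ, ((‖∑ i ∈ I, ps θ (f i : ℝ) • y i‖ ^ 2 : ℝ) : ℂ) =
      ∑ i ∈ I, ∑ j ∈ I, ps θ ((f j - f i : ℤ) : ℝ) * ⟪y i, y j⟫_ℂ := by
    intro θ
    rw [norm_sq_sum]
    refine Finset.sum_congr rfl fun i _ => Finset.sum_congr rfl fun j _ => ?_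
    rw [inner_smul_left, inner_smul_right, ps_conj, ← mul_assoc, ← ps_add]
    congr 2
    push_cast
    ring
  rw [← intervalIntegral.integral_ofReal]
  simp_rw [h1]
  have hc : ∀ i j, Continuous fun θ : ℝ => ps θ ((f j - f i : ℤ) : ℝ) * ⟪y i, y j⟫_ℂ :=
    fun i j => (ps_cont _).mul continuous_const
  rw [intervalIntegral.integral_finsetSum fun i _ =>
    (continuous_finsetSum _ fun j _ => hc i j).intervalIntegrable _ _, Finset.mul_sum]
  refine Finset.sum_congr rfl fun i _ => ?_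
  rw [intervalIntegral.integral_finsetSum fun j _ => (hc i j).intervalIntegrable _ _,
    Finset.mul_sum]
  refine Finset.sum_congr rfl fun j _ => ?_
  rw [intervalIntegral.integral_mul_const, ps_orth]
  by_cases h : f i = f j
  · rw [if_pos h, if_pos (by omega)]
  · rw [if_neg h, if_neg (by omega), zero_mul, mul_zero]

theorem group_sum {ι : Type*} [DecidableEq ι] (I : Finset ι) (f : ι → ℤ) (y : ι → Y)
    (K : Finset ℤ) (hK : ∀ i ∈ I, f i ∈ K) :
    (∑ i ∈ I, ∑ j ∈ I, if f i = f j then ⟪y i, y j⟫_ℂ else 0) =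
      ∑ k ∈ K, ((‖∑ i ∈ I, if f i = k then y i else 0‖ ^ 2 : ℝ) : ℂ) := by
  simp_rw [norm_sq_sum]
  have h1 : ∀ k ∈ K, (∑ i ∈ I, ∑ j ∈ I, ⟪(if f i = k then y i else 0 : Y),
      (if f j = k then y j else 0 : Y)⟫_ℂ) =
      ∑ i ∈ I, ∑ j ∈ I, if f i = k then (if f j = k then ⟪y i, y j⟫_ℂ else 0) else 0 := by
    intro k _
    refine Finset.sum_congr rfl fun i _ => Finset.sum_congr rfl fun j _ => ?_
    split_ifs <;> simp
  rw [Finset.sum_congr rfl h1]
  symm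
  calc (∑ k ∈ K, ∑ i ∈ I, ∑ j ∈ I, if f i = k then (if f j = k then ⟪y i, y j⟫_ℂ else 0) else 0)
      = ∑ i ∈ I, ∑ k ∈ K, ∑ j ∈ I,
          (if f i = k then (if f j = k then ⟪y i, y j⟫_ℂ else 0) else 0) := Finset.sum_comm
    _ = ∑ i ∈ I, ∑ j ∈ I, ∑ k ∈ K,
          (if f i = k then (if f j = k then ⟪y i, y j⟫_ℂ else 0) else 0) :=
        Finset.sum_congr rfl fun i _ => Finset.sum_comm
    _ = _ := by
        refine Finset.sum_congr rfl fun i hi => Finset.sum_congr rfl fun j hj => ?_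
        rw [Finset.sum_ite_eq, if_pos (hK i hi)]
        by_cases h : f i = f j
        · rw [if_pos h, if_pos h.symm]
        · rw [if_neg h, if_neg (Ne.symm h)]

/-- bound for the Gram matrix -/
theorem gram {x : ℕ → Y} (h : StS x) (N : ℕ) (a : ℕ → ℂ) {R : ℝ}
    (hR : ∀ θ ∈ Set.Icc (-Real.pi) Real.pi, ‖SN x (2 * N) θ‖ ≤ R) :
    N * ‖∑ n ∈ Finset.range N, a n • x n‖ ^ 2 ≤ R ^ 2 * ∑ n ∈ Finset.range N, ‖a n‖ ^ 2 := by
  classical
  have hpi : 0 < 2 * Real.pi := by positivity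
  have hpi' : ((2 * Real.pi : ℝ) : ℂ) ≠ 0 := by exact_mod_cast hpi.ne'
  have hle : -Real.pi ≤ Real.pi := by linarith [Real.pi_pos]
  set A : ℝ → ℂ := fun θ => ∑ n ∈ Finset.range N, ps θ ((-(n : ℤ) : ℤ) : ℝ) • a n with hA
  set I : Finset (ℕ × ℕ) := Finset.range N ×ˢ Finset.range (2 * N) with hI
  set f : ℕ × ℕ → ℤ := fun p => (p.2 : ℤ) - p.1 with hf
  set y : ℕ × ℕ → Y := fun p => a p.1 • x p.2 with hy
  have hV : ∀ θ, ∑ p ∈ I, ps θ (f p : ℝ) • y p = A θ • SN x (2 * N) θ := by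
    intro θ
    rw [hI, Finset.sum_product, hA]
    simp only
    rw [Finset.sum_smul]
    refine Finset.sum_congr rfl fun n _ => ?_
    unfold SN
    rw [Finset.smul_sum]
    refine Finset.sum_congr rfl fun m _ => ?_
    simp only [hf, hy]
    rw [smul_smul, smul_smul, smul_eq_mul]
    congr 1
    have e : ((((m : ℤ) - (n : ℤ)) : ℤ) : ℝ) = ((-(n : ℤ) : ℤ) : ℝ) + (m : ℝ) := by
      push_cast; ring
    rw [e, ps_add]
    ring
  -- upper bound
  have hAc : Continuous A := continuous_finsetSum _ fun n _ => (ps_cont _).smul continuous_const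
  have hup : ∫ θ in (-Real.pi)..Real.pi, ‖∑ p ∈ I, ps θ (f p : ℝ) • y p‖ ^ 2 ≤
      R ^ 2 * (2 * Real.pi * ∑ n ∈ Finset.range N, ‖a n‖ ^ 2) := by
    have e1 : ∫ θ in (-Real.pi)..Real.pi, ‖A θ‖ ^ 2 = 2 * Real.pi * ∑ n ∈ Finset.range N, ‖a n‖ ^ 2 := by
      have h1 := parseval (Y := ℂ) (Finset.range N) (fun n => (-(n : ℤ) : ℤ)) a
      have h2 : (∑ i ∈ Finset.range N, ∑ j ∈ Finset.range N,
          if (-(i : ℤ)) = (-(j : ℤ)) then ⟪a i, a j⟫_ℂ else 0) =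
          ((∑ n ∈ Finset.range N, ‖a n‖ ^ 2 : ℝ) : ℂ) := by
        push_cast
        refine Finset.sum_congr rfl fun i hi => ?_
        rw [Finset.sum_eq_single i]
        · rw [if_pos rfl, inner_self_eq_norm_sq_to_K]
          rfl
        · intro j _ hj
          rw [if_neg (by omega)]
        · intro h'
          exact absurd hi h'
      rw [h2] at h1
      exact_mod_cast h1
    rw [← e1, ← intervalIntegral.integral_const_mul]
    refine intervalIntegral.integral_mono_on hle ?_ ?_ fun θ hθ => ?_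
    · refine Continuous.intervalIntegrable ?_ _ _
      refine ((continuous_finsetSum _ fun p _ => ?_).norm).pow 2
      exact (ps_cont _).smul continuous_const
    · exact ((hAc.norm.pow 2).const_mul _).intervalIntegrable _ _ |> fun h => h
    · rw [hV, norm_smul, mul_pow, mul_comm]
      refine mul_le_mul_of_nonneg_right ?_ (by positivity)
      exact pow_le_pow_left₀ (norm_nonneg _) (hR θ hθ) 2
  -- lower bound
  set G : ℤ → Y := fun k => ∑ p ∈ I, if f p = k then y p else 0 with hG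
  set K : Finset ℤ := Finset.Icc (-(N : ℤ)) (2 * N) with hK
  have hlow : (∫ θ in (-Real.pi)..Real.pi, ‖∑ p ∈ I, ps θ (f p : ℝ) • y p‖ ^ 2) =
      2 * Real.pi * ∑ k ∈ K, ‖G k‖ ^ 2 := by
    have h1 := parseval I f y
    rw [group_sum I f y K (fun p hp => by
      rw [hI, Finset.mem_product, Finset.mem_range, Finset.mem_range] at hp
      rw [hK, Finset.mem_Icc]
      simp only [hf]
      omega)] at h1
    exact_mod_cast h1
  have hGk : ∀ k ∈ Finset.range N, ‖G k‖ = ‖∑ n ∈ Finset.range N, a n • x n‖ := by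
    intro k hk
    rw [← h.norm_sum (Finset.range N) a k, hG]
    congr 1
    simp only
    rw [hI, Finset.sum_product]
    refine Finset.sum_congr rfl fun n hn => ?_
    rw [Finset.mem_range] at hk hn
    rw [Finset.sum_eq_single (n + k)]
    · rw [if_pos (by simp only [hf]; push_cast; ring)]
    · intro m _ hm
      rw [if_neg]
      simp only [hf]
      omega
    · intro h'
      exact absurd (Finset.mem_range.2 (by omega)) h'
  have hsum : (N : ℝ) * ‖∑ n ∈ Finset.range N, a n • x n‖ ^ 2 ≤ ∑ k ∈ K, ‖G k‖ ^ 2 := by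
    have e1 : (N : ℝ) * ‖∑ n ∈ Finset.range N, a n • x n‖ ^ 2 =
        ∑ k ∈ Finset.range N, ‖G k‖ ^ 2 := by
      have e0 : ∑ k ∈ Finset.range N, ‖G k‖ ^ 2 =
          ∑ _k ∈ Finset.range N, ‖∑ n ∈ Finset.range N, a n • x n‖ ^ 2 :=
        Finset.sum_congr rfl fun k hk => by rw [hGk k hk]
      rw [e0, Finset.sum_const, Finset.card_range, nsmul_eq_mul]
    have e2 : ∑ k ∈ Finset.range N, ‖G k‖ ^ 2 =
        ∑ k ∈ (Finset.range N).map Nat.castEmbedding, ‖G k‖ ^ 2 := by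
      rw [Finset.sum_map]
      rfl
    rw [e1, e2]
    refine Finset.sum_le_sum_of_subset_of_nonneg (fun k hk => ?_) fun _ _ _ => by positivity
    rw [Finset.mem_map] at hk
    obtain ⟨n, hn, rfl⟩ := hk
    rw [Finset.mem_range] at hn
    rw [hK, Finset.mem_Icc]
    simp only [Nat.castEmbedding_apply]
    omega
  rw [hlow] at hup
  have h5 : 2 * Real.pi * (∑ k ∈ K, ‖G k‖ ^ 2) ≤
      2 * Real.pi * (R ^ 2 * ∑ n ∈ Finset.range N, ‖a n‖ ^ 2) := by
    calc _ ≤ _ := hup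
      _ = _ := by ring
  exact hsum.trans (le_of_mul_le_mul_left h5 hpi)

/-- bound for the coefficients of a vector -/
theorem coeff_bound {x : ℕ → Y} (h : StS x) (N : ℕ) {R : ℝ}
    (hR : ∀ θ ∈ Set.Icc (-Real.pi) Real.pi, ‖SN x (2 * N) θ‖ ≤ R) (y : Y) :
    N * ∑ n ∈ Finset.range N, ‖⟪y, x n⟫_ℂ‖ ^ 2 ≤ R ^ 2 * ‖y‖ ^ 2 := by
  set a : ℕ → ℂ := fun n => conj ⟪y, x n⟫_ℂ with ha
  set Q : ℝ := ∑ n ∈ Finset.range N, ‖⟪y, x n⟫_ℂ‖ ^ 2 with hQ
  have hQ0 : 0 ≤ Q := Finset.sum_nonneg fun _ _ => by positivity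
  have hg := gram h N a hR
  have e1 : ∑ n ∈ Finset.range N, ‖a n‖ ^ 2 = Q := by
    refine Finset.sum_congr rfl fun n _ => ?_
    rw [ha]
    simp only [RCLike.norm_conj]
  rw [e1] at hg
  set w := ∑ n ∈ Finset.range N, a n • x n with hw
  have e2 : ⟪y, w⟫_ℂ = ((Q : ℝ) : ℂ) := by
    rw [hw, inner_sum, hQ]
    push_cast
    refine Finset.sum_congr rfl fun n _ => ?_
    rw [inner_smul_right, ha]
    simp only
    rw [mul_comm, Complex.mul_conj, Complex.normSq_eq_norm_sq]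
    push_cast
    rfl
  have e3 : Q ≤ ‖y‖ * ‖w‖ := by
    have h1 := norm_inner_le_norm (𝕜 := ℂ) y w
    rw [e2, Complex.norm_real, Real.norm_of_nonneg hQ0] at h1
    exact h1
  rcases hQ0.eq_or_lt with h0 | h0
  · rw [← h0, mul_zero]
    positivity
  · have e4 : N * Q ^ 2 ≤ (R ^ 2 * ‖y‖ ^ 2) * Q := by
      have h1 : Q ^ 2 ≤ (‖y‖ * ‖w‖) ^ 2 := pow_le_pow_left₀ hQ0 e3 2
      calc (N : ℝ) * Q ^ 2 ≤ N * (‖y‖ * ‖w‖) ^ 2 :=
            mul_le_mul_of_nonneg_left h1 (Nat.cast_nonneg _)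
        _ = ‖y‖ ^ 2 * (N * ‖w‖ ^ 2) := by ring
        _ ≤ ‖y‖ ^ 2 * (R ^ 2 * Q) := mul_le_mul_of_nonneg_left hg (by positivity)
        _ = _ := by ring
    have e5 : (N * Q) * Q ≤ (R ^ 2 * ‖y‖ ^ 2) * Q := by
      calc (N * Q) * Q = N * Q ^ 2 := by ring
        _ ≤ _ := e4
    exact le_of_mul_le_mul_right e5 h0

end Pool.Agent.H39.WM
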