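import Pool.Agent.H39.WM.B1

/-! # Stationary curves in a Hilbert space: weak mixing from small twisted averages -/

set_option autoImplicit false

open MeasureTheory Filter Topology
open scoped BigOperators InnerProductSpace ComplexConjugate

namespace Pool.Agent.H39.WM

variable {Y : Type*} [NormedAddCommGroup Y] [InnerProductSpace ℂ Y]

/-- stationary curves -/
def StC (X : ℝ → Y) : Prop := ∀ s t a : ℝ, ⟪X (s + a), X (t + a)⟫_ℂ = ⟪X s, X t⟫_ℂ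

theorem StC.norm {X : ℝ → Y} (h : StC X) (s : ℝ) : ‖X s‖ = ‖X 0‖ := by
  have h1 := h 0 0 s
  rw [zero_add, inner_self_eq_norm_sq_to_K, inner_self_eq_norm_sq_to_K] at h1
  have h2 : ‖X s‖ ^ 2 = ‖X 0‖ ^ 2 := by exact_mod_cast h1
  exact (sq_eq_sq₀ (norm_nonneg _) (norm_nonneg _)).1 h2

theorem StC.norm_sub {X : ℝ → Y} (h : StC X) (s t a : ℝ) :
    ‖X (s + a) - X (t + a)‖ = ‖X s - X t‖ := by
  have h1 := @norm_sub_sq ℂ Y _ _ _ (X (s + a)) (X (t + a))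
  have h2 := @norm_sub_sq ℂ Y _ _ _ (X s) (X t)
  rw [h s t a, h.norm (s + a), h.norm (t + a)] at h1
  rw [h.norm s, h.norm t] at h2
  rw [← h2] at h1
  exact (sq_eq_sq₀ (norm_nonneg _) (norm_nonneg _)).1 h1

theorem StC.seq {X : ℝ → Y} (h : StC X) (δ : ℝ) : StS fun n : ℕ => X (n * δ) := by
  intro m n a
  have h1 := h (m * δ) (n * δ) (a * δ)
  simp only
  push_cast
  rw [add_mul, add_mul]
  exact h1

/-- lower bound for the integral of a character -/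
theorem char_lower {δ θ : ℝ} (hδ : 0 < δ) (hθ : θ ∈ Set.Icc (-Real.pi) Real.pi) :
    2 / Real.pi * δ ≤ ‖∫ r in (0 : ℝ)..δ, ps (θ / δ) r‖ := by
  have hpi := Real.pi_pos
  have e : ∀ r : ℝ, ps (θ / δ) r = Complex.exp ((Complex.I * ((θ / δ : ℝ) : ℂ)) * r) := by
    intro r
    unfold ps
    congr 1
    push_cast
    ring
  simp_rw [e]
  rcases eq_or_ne θ 0 with h0 | h0
  · subst h0
    simp only [zero_div, Complex.ofReal_zero, mul_zero, zero_mul, Complex.exp_zero]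
    rw [intervalIntegral.integral_const, sub_zero]
    simp only [Complex.real_smul, mul_one, Complex.norm_real, Real.norm_eq_abs, abs_of_pos hδ]
    have : 2 / Real.pi ≤ 1 := by
      rw [div_le_one hpi]
      exact Real.two_le_pi
    nlinarith
  · have hc : Complex.I * ((θ / δ : ℝ) : ℂ) ≠ 0 :=
      mul_ne_zero Complex.I_ne_zero (by exact_mod_cast (div_ne_zero h0 hδ.ne'))
    rw [integral_exp_mul_complex hc, norm_div]
    have e1 : (Complex.I * ((θ / δ : ℝ) : ℂ)) * ((δ : ℝ) : ℂ) = Complex.I * (θ : ℂ) := by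
      rw [mul_assoc, ← Complex.ofReal_mul, div_mul_cancel₀ _ hδ.ne']
    rw [e1]
    have e2 : Complex.exp (Complex.I * ((θ / δ : ℝ) : ℂ) * ((0 : ℝ) : ℂ)) = 1 := by simp
    rw [e2, Complex.norm_exp_I_mul_ofReal_sub_one]
    have e4 : ‖Complex.I * ((θ / δ : ℝ) : ℂ)‖ = |θ| / δ := by
      rw [norm_mul, Complex.norm_I, one_mul, Complex.norm_real, Real.norm_eq_abs, abs_div,
        abs_of_pos hδ]
    rw [e4, norm_mul, Real.norm_eq_abs, Real.norm_eq_abs, abs_of_pos (two_pos : (0 : ℝ) < 2)]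
    have h1 : |θ / 2| ≤ Real.pi / 2 := by
      rw [abs_div, abs_of_pos (two_pos : (0 : ℝ) < 2)]
      have := abs_le.2 ⟨hθ.1, hθ.2⟩
      linarith
    have h2 := Real.mul_abs_le_abs_sin h1
    rw [abs_div, abs_of_pos (two_pos : (0 : ℝ) < 2)] at h2
    have h3 : 0 < |θ| := abs_pos.2 h0
    rw [le_div_iff₀ (div_pos h3 hδ)]
    have e3 : 2 / Real.pi * δ * (|θ| / δ) = 2 * (2 / Real.pi * (|θ| / 2)) := by
      field_simp
    rw [e3]
    linarith

variable [CompleteSpace Y]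

/-- comparison of the discrete with the continuous twisted averages -/
theorem compare {X : ℝ → Y} (hc : Continuous X) (h : StC X) {δ ρ θ : ℝ} (hδ : 0 < δ)
    (hρ : ∀ r ∈ Set.Icc 0 δ, ‖X r - X 0‖ ≤ ρ) (hθ : θ ∈ Set.Icc (-Real.pi) Real.pi) (N : ℕ) :
    2 / Real.pi * δ * ‖SN (fun n : ℕ => X (n * δ)) N θ‖ ≤
      ‖∫ s in (0 : ℝ)..(N * δ), ps (θ / δ) s • X s‖ + N * δ * ρ := by
  set l := θ / δ with hl
  set c := ∫ r in (0 : ℝ)..δ, ps l r with hcd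
  have hpc : Continuous fun s : ℝ => ps l s := by unfold ps; fun_prop
  have hint : Continuous fun s : ℝ => ps l s • X s := hpc.smul hc
  have e1 : ∫ s in (0 : ℝ)..(N * δ), ps l s • X s =
      ∑ n ∈ Finset.range N, ∫ s in ((n : ℝ) * δ)..(((n + 1 : ℕ) : ℝ) * δ), ps l s • X s := by
    have := intervalIntegral.sum_integral_adjacent_intervals (a := fun n : ℕ => (n : ℝ) * δ)
      (n := N) (f := fun s => ps l s • X s) (μ := volume)
      (fun k _ => hint.intervalIntegrable _ _)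
    rw [this]
    simp
  have e2 : ∀ n : ℕ, ∫ s in ((n : ℝ) * δ)..(((n + 1 : ℕ) : ℝ) * δ), ps l s • X s =
      ∫ r in (0 : ℝ)..δ, (ps l (n * δ) * ps l r) • X (r + n * δ) := by
    intro n
    have h1 := intervalIntegral.integral_comp_add_right (a := 0) (b := δ)
      (fun s => ps l s • X s) ((n : ℝ) * δ)
    rw [zero_add] at h1
    have h2 : δ + (n : ℝ) * δ = ((n + 1 : ℕ) : ℝ) * δ := by push_cast; ring
    rw [h2] at h1
    rw [← h1]
    refine intervalIntegral.integral_congr fun r _ => ?_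
    rw [ps_add, mul_comm (ps l r)]
  have e3 : ∀ n : ℕ, ‖(∫ r in (0 : ℝ)..δ, (ps l (n * δ) * ps l r) • X (r + n * δ)) -
      (ps l (n * δ) * c) • X (n * δ)‖ ≤ δ * ρ := by
    intro n
    have h1 : (ps l (n * δ) * c) • X (n * δ) =
        ∫ r in (0 : ℝ)..δ, (ps l (n * δ) * ps l r) • X (n * δ) := by
      rw [intervalIntegral.integral_smul_const, intervalIntegral.integral_const_mul]
    have hi1 : Continuous fun r : ℝ => (ps l (n * δ) * ps l r) • X (r + n * δ) := by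
      refine (continuous_const.mul hpc).smul (hc.comp (by fun_prop))
    have hi2 : Continuous fun r : ℝ => (ps l (n * δ) * ps l r) • X (n * δ) :=
      (continuous_const.mul hpc).smul continuous_const
    rw [h1, ← intervalIntegral.integral_sub (hi1.intervalIntegrable _ _)
      (hi2.intervalIntegrable _ _)]
    have h2 := intervalIntegral.norm_integral_le_of_norm_le_const (a := 0) (b := δ) (C := ρ)
      (f := fun r => (ps l (n * δ) * ps l r) • X (r + n * δ) -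
        (ps l (n * δ) * ps l r) • X (n * δ)) ?_
    · rw [sub_zero, abs_of_pos hδ, mul_comm ρ δ] at h2
      exact h2
    · intro r hr
      rw [Set.uIoc_of_le hδ.le] at hr
      rw [← smul_sub, norm_smul, norm_mul, ps_norm, ps_norm, one_mul, one_mul]
      have h3 := h.norm_sub r 0 (n * δ)
      rw [zero_add] at h3
      rw [h3]
      exact hρ r ⟨hr.1.le, hr.2⟩
  have e4 : c • SN (fun n : ℕ => X (n * δ)) N θ =
      ∑ n ∈ Finset.range N, (ps l (n * δ) * c) • X (n * δ) := by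
    unfold SN
    rw [Finset.smul_sum]
    refine Finset.sum_congr rfl fun n _ => ?_
    rw [smul_smul, mul_comm c]
    congr 2
    unfold ps
    congr 3
    rw [hl]
    field_simp
  have e5 : ‖c • SN (fun n : ℕ => X (n * δ)) N θ‖ ≤
      ‖∫ s in (0 : ℝ)..(N * δ), ps l s • X s‖ + N * δ * ρ := by
    rw [e4, e1]
    set P := ∑ n ∈ Finset.range N, (ps l (n * δ) * c) • X (n * δ)
    set Q := ∑ n ∈ Finset.range N, ∫ s in ((n : ℝ) * δ)..(((n + 1 : ℕ) : ℝ) * δ), ps l s • X s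
    have h1 : ‖P - Q‖ ≤ N * δ * ρ := by
      rw [norm_sub_rev, ← Finset.sum_sub_distrib]
      refine (norm_sum_le _ _).trans ?_
      have : ∑ i ∈ Finset.range N, ‖(∫ s in ((i : ℝ) * δ)..(((i + 1 : ℕ) : ℝ) * δ), ps l s • X s) -
          (ps l (i * δ) * c) • X (i * δ)‖ ≤ ∑ i ∈ Finset.range N, δ * ρ := by
        refine Finset.sum_le_sum fun i _ => ?_
        rw [e2]
        exact e3 i
      refine this.trans (le_of_eq ?_)
      rw [Finset.sum_const, Finset.card_range, nsmul_eq_mul, mul_assoc]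
    calc ‖P‖ = ‖Q + (P - Q)‖ := by congr 1; abel
      _ ≤ ‖Q‖ + ‖P - Q‖ := norm_add_le _ _
      _ ≤ _ := by linarith
  refine le_trans ?_ e5
  rw [norm_smul]
  exact mul_le_mul_of_nonneg_right (char_lower hδ hθ) (norm_nonneg _)

/-- small twisted averages of the curve give small twisted averages of the sequence -/
theorem seq_small {X : ℝ → Y} (hc : Continuous X) (h : StC X)
    (hsm : ∀ l ε T0 : ℝ, 0 < ε → ∃ T, T0 ≤ T ∧ ‖∫ s in (0 : ℝ)..T, ps l s • X s‖ ≤ ε * T)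
    {δ ρ : ℝ} (hδ : 0 < δ) (hρ0 : 0 < ρ)
    (hρ : ∀ r ∈ Set.Icc 0 δ, ‖X r - X 0‖ ≤ ρ) (θ : ℝ) (hθ : θ ∈ Set.Icc (-Real.pi) Real.pi) :
    ∃ N : ℕ, 0 < N ∧ ‖SN (fun n : ℕ => X (n * δ)) N θ‖ < (3 * ρ) * N := by
  have hpi := Real.pi_pos
  set C0 := ‖X 0‖ with hC0
  obtain ⟨M, hM⟩ := exists_nat_gt (4 * C0 / ρ)
  obtain ⟨T, hT0, hT⟩ := hsm (θ / δ) (ρ / 8) (δ * (M + 1)) (by positivity)
  have hTpos : 0 ≤ T := le_trans (by positivity) hT0
  set N := ⌊T / δ⌋₊ with hN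
  have hN1 : (N : ℝ) * δ ≤ T := by
    have := Nat.floor_le (div_nonneg hTpos hδ.le)
    rwa [← hN, le_div_iff₀ hδ] at this
  have hN2 : T ≤ (N + 1) * δ := by
    have := Nat.lt_floor_add_one (T / δ)
    rw [← hN, div_lt_iff₀ hδ] at this
    exact this.le
  have hNM : M + 1 ≤ N := by
    rw [hN]
    refine Nat.le_floor ?_
    rw [le_div_iff₀ hδ]
    push_cast
    linarith
  have hNpos : 0 < N := by omega
  have hNr : (1 : ℝ) ≤ N := by exact_mod_cast hNpos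
  have hMN : (M : ℝ) ≤ N := by exact_mod_cast (by omega : M ≤ N)
  refine ⟨N, hNpos, ?_⟩
  have hcmp := compare hc h hδ hρ hθ N
  have hpc : Continuous fun s : ℝ => ps (θ / δ) s := by unfold ps; fun_prop
  have hint : Continuous fun s : ℝ => ps (θ / δ) s • X s := hpc.smul hc
  -- the integral up to `N δ`
  have h1 : ‖∫ s in (0 : ℝ)..(N * δ), ps (θ / δ) s • X s‖ ≤ ρ / 8 * T + C0 * δ := by
    have h2 := intervalIntegral.integral_add_adjacent_intervals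
      (hint.intervalIntegrable (μ := volume) 0 (N * δ)) (hint.intervalIntegrable (N * δ) T)
    have h3 : ‖∫ s in (N * δ)..T, ps (θ / δ) s • X s‖ ≤ C0 * δ := by
      have h4 := intervalIntegral.norm_integral_le_of_norm_le_const (a := N * δ) (b := T) (C := C0)
        (f := fun s => ps (θ / δ) s • X s) (fun s _ => by
          rw [norm_smul, ps_norm, one_mul, h.norm])
      refine h4.trans ?_
      rw [abs_of_nonneg (by linarith)]
      refine mul_le_mul_of_nonneg_left ?_ (norm_nonneg _)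
      linarith
    have h5 : (∫ s in (0 : ℝ)..(N * δ), ps (θ / δ) s • X s) =
        (∫ s in (0 : ℝ)..T, ps (θ / δ) s • X s) - ∫ s in (N * δ)..T, ps (θ / δ) s • X s := by
      rw [← h2]; abel
    rw [h5]
    refine (norm_sub_le _ _).trans ?_
    linarith
  set S := ‖SN (fun n : ℕ => X (n * δ)) N θ‖ with hS
  have hS0 : 0 ≤ S := norm_nonneg _
  have h6 : 4 * C0 < ρ * N := by
    have := (div_lt_iff₀ hρ0).1 hM
    nlinarith
  -- `(2/π) δ S ≤ ρ/8 (N+1) δ + C0 δ + N δ ρ`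
  have h7 : 2 / Real.pi * δ * S ≤ (ρ / 8 * (N + 1) + C0 + N * ρ) * δ := by
    have h8 : ρ / 8 * T ≤ ρ / 8 * ((N + 1) * δ) := mul_le_mul_of_nonneg_left hN2 (by positivity)
    nlinarith
  have h8 : 2 / Real.pi * S ≤ ρ / 8 * (N + 1) + C0 + N * ρ := by
    have : (2 / Real.pi * S) * δ ≤ (ρ / 8 * (N + 1) + C0 + N * ρ) * δ := by
      calc _ = 2 / Real.pi * δ * S := by ring
        _ ≤ _ := h7
    exact le_of_mul_le_mul_right this hδ
  have h9 : ρ / 8 * (N + 1) + C0 + N * ρ < (3 / 2) * ρ * N := by nlinarith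
  have h10 : 1 / 2 * S ≤ 2 / Real.pi * S := by
    refine mul_le_mul_of_nonneg_right ?_ hS0
    rw [div_le_div_iff₀ two_pos hpi]
    have := Real.pi_le_four
    linarith
  nlinarith

theorem wm_bound {X : ℝ → Y} (hc : Continuous X) (h : StC X)
    (hsm : ∀ l ε T0 : ℝ, 0 < ε → ∃ T, T0 ≤ T ∧ ‖∫ s in (0 : ℝ)..T, ps l s • X s‖ ≤ ε * T)
    {δ ρ : ℝ} (hδ : 0 < δ) (hρ0 : 0 < ρ)
    (hρ : ∀ r ∈ Set.Icc 0 δ, ‖X r - X 0‖ ≤ ρ) (y : Y) :
    ∃ T1 : ℝ, 0 < T1 ∧ ∀ T, T1 ≤ T →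
      (1 / T) * ∫ s in (0 : ℝ)..T, ‖⟪y, X s⟫_ℂ‖ ^ 2 ≤ 148 * ρ ^ 2 * ‖y‖ ^ 2 := by
  set x : ℕ → Y := fun n => X (n * δ) with hx
  have hst : StS x := h.seq δ
  obtain ⟨N0, hN0, hunif⟩ := unif hst (seq_small hc h hsm hδ hρ0 hρ)
  have hkey : ∀ k : ℕ, ∑ n ∈ Finset.range (k * N0), ‖⟪y, x n⟫_ℂ‖ ^ 2 ≤
      36 * ρ ^ 2 * (k * N0 : ℕ) * ‖y‖ ^ 2 := by
    intro k
    rcases Nat.eq_zero_or_pos (k * N0) with h0 | h0
    · rw [h0]
      simp
    have hb := coeff_bound hst (k * N0) (R := 3 * ρ * ((2 * k) * N0 : ℕ)) (fun θ hθ => by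
      have := hunif (2 * k) θ hθ
      rw [mul_assoc] at this
      rw [mul_assoc 2 k N0]
      exact this) y
    have hpos : (0 : ℝ) < (k * N0 : ℕ) := by exact_mod_cast h0
    refine le_of_mul_le_mul_left (hb.trans (le_of_eq ?_)) hpos
    push_cast
    ring
  refine ⟨N0 * δ, by positivity, fun T hT => ?_⟩
  have hN0δ : 0 < (N0 : ℝ) * δ := by positivity
  have hTpos : 0 < T := lt_of_lt_of_le hN0δ hT
  set k := ⌈T / (N0 * δ)⌉₊ with hk
  have hk1 : T ≤ ((k * N0 : ℕ) : ℝ) * δ := by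
    have := Nat.le_ceil (T / (N0 * δ))
    rw [← hk, div_le_iff₀ hN0δ] at this
    push_cast
    linarith
  have hk2 : ((k * N0 : ℕ) : ℝ) * δ ≤ 2 * T := by
    have := Nat.ceil_lt_add_one (div_nonneg hTpos.le hN0δ.le)
    rw [← hk, ← sub_lt_iff_lt_add, lt_div_iff₀ hN0δ] at this
    push_cast
    nlinarith
  have hfc : Continuous fun s => ‖⟪y, X s⟫_ℂ‖ ^ 2 := ((continuous_const.inner hc).norm).pow 2
  have h1 : ∫ s in (0 : ℝ)..T, ‖⟪y, X s⟫_ℂ‖ ^ 2 ≤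
      ∫ s in (0 : ℝ)..(((k * N0 : ℕ) : ℝ) * δ), ‖⟪y, X s⟫_ℂ‖ ^ 2 :=
    intervalIntegral.integral_mono_interval le_rfl hTpos.le hk1
      (ae_of_all _ fun _ => by positivity) (hfc.intervalIntegrable _ _)
  have h2 : ∫ s in (0 : ℝ)..(((k * N0 : ℕ) : ℝ) * δ), ‖⟪y, X s⟫_ℂ‖ ^ 2 =
      ∑ n ∈ Finset.range (k * N0),
        ∫ s in ((n : ℝ) * δ)..(((n + 1 : ℕ) : ℝ) * δ), ‖⟪y, X s⟫_ℂ‖ ^ 2 := by
    have := intervalIntegral.sum_integral_adjacent_intervals (a := fun n : ℕ => (n : ℝ) * δ)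
      (n := k * N0) (f := fun s => ‖⟪y, X s⟫_ℂ‖ ^ 2) (μ := volume)
      (fun k _ => hfc.intervalIntegrable _ _)
    rw [this]
    simp
  have h3 : ∀ n : ℕ, ∫ s in ((n : ℝ) * δ)..(((n + 1 : ℕ) : ℝ) * δ), ‖⟪y, X s⟫_ℂ‖ ^ 2 ≤
      (2 * ‖⟪y, x n⟫_ℂ‖ ^ 2 + 2 * ρ ^ 2 * ‖y‖ ^ 2) * δ := by
    intro n
    have hle : (n : ℝ) * δ ≤ ((n + 1 : ℕ) : ℝ) * δ := by
      push_cast; nlinarith
    have h4 : ∫ s in ((n : ℝ) * δ)..(((n + 1 : ℕ) : ℝ) * δ), ‖⟪y, X s⟫_ℂ‖ ^ 2 ≤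
        ∫ s in ((n : ℝ) * δ)..(((n + 1 : ℕ) : ℝ) * δ),
          (2 * ‖⟪y, x n⟫_ℂ‖ ^ 2 + 2 * ρ ^ 2 * ‖y‖ ^ 2) := by
      refine intervalIntegral.integral_mono_on hle (hfc.intervalIntegrable _ _)
        (continuous_const.intervalIntegrable _ _) fun s hs => ?_
      have hs0 : s - n * δ ∈ Set.Icc 0 δ := by
        constructor
        · linarith [hs.1]
        · have := hs.2
          push_cast at this
          linarith
      have h5 : ‖X s - x n‖ ≤ ρ := by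
        have h6 := h.norm_sub (s - n * δ) 0 (n * δ)
        rw [sub_add_cancel, zero_add] at h6
        rw [hx]
        simp only
        rw [h6]
        exact hρ _ hs0
      have h7 : ‖⟪y, X s⟫_ℂ‖ ≤ ‖⟪y, x n⟫_ℂ‖ + ‖y‖ * ρ := by
        have h8 : ⟪y, X s⟫_ℂ = ⟪y, x n⟫_ℂ + ⟪y, X s - x n⟫_ℂ := by
          rw [← inner_add_right]
          congr 1
          abel
        rw [h8]
        refine (norm_add_le _ _).trans (add_le_add le_rfl ?_)
        exact (norm_inner_le_norm _ _).trans (mul_le_mul_of_nonneg_left h5 (norm_nonneg _))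
      have h9 : ‖⟪y, X s⟫_ℂ‖ ^ 2 ≤ (‖⟪y, x n⟫_ℂ‖ + ‖y‖ * ρ) ^ 2 :=
        pow_le_pow_left₀ (norm_nonneg _) h7 2
      nlinarith [sq_nonneg (‖⟪y, x n⟫_ℂ‖ - ‖y‖ * ρ)]
    refine h4.trans (le_of_eq ?_)
    rw [intervalIntegral.integral_const, smul_eq_mul]
    push_cast
    ring
  have h4 : ∫ s in (0 : ℝ)..T, ‖⟪y, X s⟫_ℂ‖ ^ 2 ≤ (148 * ρ ^ 2 * ‖y‖ ^ 2) * T := by
    calc ∫ s in (0 : ℝ)..T, ‖⟪y, X s⟫_ℂ‖ ^ 2 ≤ _ := h1
      _ = _ := h2
      _ ≤ ∑ n ∈ Finset.range (k * N0), (2 * ‖⟪y, x n⟫_ℂ‖ ^ 2 + 2 * ρ ^ 2 * ‖y‖ ^ 2) * δ :=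
          Finset.sum_le_sum fun n _ => h3 n
      _ = (2 * ∑ n ∈ Finset.range (k * N0), ‖⟪y, x n⟫_ℂ‖ ^ 2 +
            ((k * N0 : ℕ) : ℝ) * (2 * ρ ^ 2 * ‖y‖ ^ 2)) * δ := by
          rw [← Finset.sum_mul, Finset.sum_add_distrib, ← Finset.mul_sum, Finset.sum_const,
            Finset.card_range, nsmul_eq_mul]
      _ ≤ (2 * (36 * ρ ^ 2 * (k * N0 : ℕ) * ‖y‖ ^ 2) +
            ((k * N0 : ℕ) : ℝ) * (2 * ρ ^ 2 * ‖y‖ ^ 2)) * δ := by
          refine mul_le_mul_of_nonneg_right ?_ hδ.le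
          linarith [hkey k]
      _ = (74 * ρ ^ 2 * ‖y‖ ^ 2) * (((k * N0 : ℕ) : ℝ) * δ) := by ring
      _ ≤ (74 * ρ ^ 2 * ‖y‖ ^ 2) * (2 * T) := mul_le_mul_of_nonneg_left hk2 (by positivity)
      _ = _ := by ring
  rw [one_div, inv_mul_le_iff₀ hTpos]
  linarith

/-- **weak mixing from small twisted averages** -/
theorem weak_mixing {X : ℝ → Y} (hc : Continuous X) (h : StC X)
    (hsm : ∀ l ε T0 : ℝ, 0 < ε → ∃ T, T0 ≤ T ∧ ‖∫ s in (0 : ℝ)..T, ps l s • X s‖ ≤ ε * T)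
    (y : Y) :
    Tendsto (fun T : ℝ => (1 / T) * ∫ s in (0 : ℝ)..T, ‖⟪y, X s⟫_ℂ‖ ^ 2) atTop (𝓝 0) := by
  rw [Metric.tendsto_atTop]
  intro η hη
  set ρ : ℝ := min 1 (η / (149 * (‖y‖ ^ 2 + 1))) with hρd
  have hρ0 : 0 < ρ := lt_min one_pos (by positivity)
  have hρ1 : ρ ≤ 1 := min_le_left _ _
  have hρ2 : ρ ≤ η / (149 * (‖y‖ ^ 2 + 1)) := min_le_right _ _
  have hX0 : ∀ᶠ r in 𝓝 (0 : ℝ), ‖X r - X 0‖ < ρ := by
    have := (hc.tendsto 0)
    rw [Metric.tendsto_nhds] at this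
    have h1 := this ρ hρ0
    filter_upwards [h1] with r hr
    rwa [dist_eq_norm] at hr
  obtain ⟨δ, hδ, hball⟩ := Metric.eventually_nhds_iff.1 hX0
  obtain ⟨T1, hT1, hb⟩ := wm_bound hc h hsm (δ := δ / 2) (by positivity) hρ0
    (fun r hr => (hball (by
      rw [Real.dist_eq, sub_zero, abs_of_nonneg hr.1]
      linarith [hr.2])).le) y
  refine ⟨T1, fun T hT => ?_⟩
  have h1 := hb T hT
  have hTpos : 0 < T := lt_of_lt_of_le hT1 hT
  have h2 : 0 ≤ (1 / T) * ∫ s in (0 : ℝ)..T, ‖⟪y, X s⟫_ℂ‖ ^ 2 :=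
    mul_nonneg (by positivity) (intervalIntegral.integral_nonneg hTpos.le fun _ _ => by positivity)
  rw [Real.dist_eq, sub_zero, abs_of_nonneg h2]
  refine lt_of_le_of_lt h1 ?_
  have h3 : ρ * (149 * (‖y‖ ^ 2 + 1)) ≤ η := by
    rwa [le_div_iff₀ (by positivity)] at hρ2
  have h4 : ρ ^ 2 ≤ ρ := by nlinarith
  have h5 : 0 ≤ ‖y‖ ^ 2 := by positivity
  nlinarith

end Pool.Agent.H39.WM
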