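import Pool.Agent.H39.WM.A5
import Pool.Agent.H39.EQ.E5
import Pool.Graph.R_pool_sql_team_seeded_b0a926ef.R988.NQ.GM

/-! # The curves `s ↦ U_{-s} w U_s p` in the mean square space: stationarity and continuity -/

set_option autoImplicit false

open MeasureTheory Filter Topology
open scoped BigOperators ENNReal NNReal InnerProductSpace ComplexConjugate

namespace Pool.Agent.H39.WM

open Pool.Agent.H5R2.NB Pool.Agent.R988.NQ Pool.Agent.Y662.ERG
open Pool.Agent.TH980.IM (HV HV_sa spm)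
open Pool.Agent.H39.EQ (fix_meas sm_app PA_U)

variable {d : ℕ} {c o : ℝ} {ev : (Site d → ℝ) → UG (L2 (Site d))}

/-- the evolution is a field, potentials with a constant -/
theorem fldU (hev : ∀ ω : Site d → ℝ, IsGrp c (fun x => o + ω x) (ev ω)) (s : ℝ) :
    Fld 1 (Uf ev s) := by
  have hev' : ∀ V, IsGrp c V (ev (shf o V)) := by
    intro V
    have h := hev (shf o V)
    have e : (fun x => o + shf o V x) = V := by
      funext x
      unfold shf
      ring
    rwa [e] at h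
  have h1 := fld_shf (fld_U hev' s) (-o)
  have e : (fun V => Uf (fun V => ev (shf o V)) s (shf (-o) V)) = Uf ev s := by
    funext V
    show (ev (shf o (shf (-o) V))).U s = (ev V).U s
    have e2 : shf o (shf (-o) V) = V := by
      funext x
      unfold shf
      ring
    rw [e2]
  rw [e] at h1
  exact h1

/-- the field at time `s` -/
noncomputable def fl (ev : (Site d → ℝ) → UG (L2 (Site d))) (w : OF d) (s : ℝ) : OF d :=
  mulF (Uf ev (-s)) (mulF w (Uf ev s))

theorem fl_apply (w : OF d) (s : ℝ) (V : Site d → ℝ) (ψ : L2 (Site d)) :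
    fl ev w s V ψ = (ev V).U (-s) (w V ((ev V).U s ψ)) := rfl

theorem fld_fl (hev : ∀ ω : Site d → ℝ, IsGrp c (fun x => o + ω x) (ev ω)) {w : OF d} {C : ℝ}
    (hw : Fld C w) (s : ℝ) : Fld C (fl ev w s) := by
  have h := (fldU hev (-s)).mul zero_le_one (hw.mul hw.nonneg (fldU hev s))
  rw [one_mul, mul_one] at h
  exact h

theorem sym_fl {w : OF d} (sw : Sym w) (s : ℝ) : Sym (fl ev w s) := by
  intro V f g
  rw [fl_apply, fl_apply]
  have h2 : ⟪(ev V).U (-s) (w V ((ev V).U s f)), g⟫_ℂ = ⟪w V ((ev V).U s f), (ev V).U s g⟫_ℂ :=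
    (STAT.inner_adj (ev V) s (w V ((ev V).U s f)) g).symm
  have h3 : ⟪f, (ev V).U (-s) (w V ((ev V).U s g))⟫_ℂ = ⟪(ev V).U s f, w V ((ev V).U s g)⟫_ℂ := by
    have := STAT.inner_adj (ev V) (-s) f (w V ((ev V).U s g))
    rwa [neg_neg] at this
  rw [h2, h3, sw]

theorem fl_add (w : OF d) (s a : ℝ) (V : Site d → ℝ) (ψ : L2 (Site d)) :
    fl ev w (s + a) V ψ = (ev V).U (-a) (fl ev w s V ((ev V).U a ψ)) := by
  rw [fl_apply, fl_apply]
  have e2 : -(s + a) = -a + -s := by ring
  rw [e2, (ev V).add', (ev V).add']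

/-- the projection field -/
theorem exists_proj {K : ℝ} {ν : Measure ℝ} [IsProbabilityMeasure ν] (hK : ∀ᵐ r ∂ν, |r| ≤ K)
    (hev : ∀ ω : Site d → ℝ, IsGrp (-1) (fun x => 2 * d + ω x) (ev ω)) :
    ∃ Pf : OF d, Fld 1 Pf ∧ Sym Pf ∧ (∀ᵐ ω ∂(PP d ν), Pf ω = PA K ω) ∧
      ∀ᵐ ω ∂(PP d ν), ∀ t ψ, Pf ω ((ev ω).U t ψ) = (ev ω).U t (Pf ω ψ) := by
  have hPP : IsProbabilityMeasure (PP d ν) := by unfold PP; infer_instance
  have hn : ∀ (ω : Site d → ℝ) (x : L2 (Site d)), ‖PA K ω x‖ ≤ 1 * ‖x‖ := fun ω x => by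
    rw [one_mul]
    exact acP_norm _ _
  have hm : ∀ y, AEStronglyMeasurable (fun ω => PA K ω (dl y)) (PP d ν) := fun y =>
    PA_aesm K ν aestronglyMeasurable_const
  -- measurable everywhere, equal to the projection or to zero
  obtain ⟨W, hW1, hW2, hW3⟩ : ∃ W : OF d, (∀ ω, W ω = PA K ω ∨ W ω = 0) ∧
      (∀ y, StronglyMeasurable fun ω => W ω (dl y)) ∧ ∀ᵐ ω ∂(PP d ν), W ω = PA K ω := by
    classical
    have h1 : ∀ᵐ ω ∂(PP d ν), ∀ y, PA K ω (dl y) = (hm y).mk _ ω := by
      rw [ae_all_iff]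
      exact fun y => (hm y).ae_eq_mk
    obtain ⟨t, ht1, ht2, ht3⟩ := exists_measurable_superset_of_null (ae_iff.1 h1)
    refine ⟨fun ω => if ω ∈ t then 0 else PA K ω, fun ω => ?_, fun y => ?_, ?_⟩
    · by_cases hω : ω ∈ t
      · right
        simp only [if_pos hω]
      · left
        simp only [if_neg hω]
    · have e : (fun ω => (if ω ∈ t then (0 : L2 (Site d) →L[ℂ] L2 (Site d)) else PA K ω) (dl y)) =
          tᶜ.indicator ((hm y).mk _) := by
        funext ω
        by_cases hω : ω ∈ t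
        · rw [if_pos hω, Set.indicator_of_notMem (by simpa using hω), zero_apply]
        · rw [if_neg hω, Set.indicator_of_mem (by simpa using hω)]
          have h2 : ω ∉ {ω | ¬ ∀ y, PA K ω (dl y) = (hm y).mk _ ω} := fun h => hω (ht1 h)
          have h3 : ∀ y, PA K ω (dl y) = (hm y).mk _ ω := by
            by_contra hcon
            exact h2 hcon
          exact h3 y
      rw [e]
      exact (hm y).stronglyMeasurable_mk.indicator ht2.compl
    · have : ∀ᵐ ω ∂(PP d ν), ω ∉ t := by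
        rw [ae_iff]
        simpa using ht3
      filter_upwards [this] with ω hω
      rw [if_neg hω]
  have hWc : ∀ᵐ V ∂(PP d ν), ∀ (z : Site d) (S : L2 (Site d) →L[ℂ] L2 (Site d)), IsShift z S →
      ∀ ψ, W (fun y => V (y + z)) (S ψ) = S (W V ψ) := by
    have hW3' : ∀ᵐ ω ∂(PP d ν), ∀ z : Site d,
        W (fun y => ω (y + z)) = PA K (fun y => ω (y + z)) := by
      rw [ae_all_iff]
      intro z
      exact ((t_RES d ν).2 z).quasiMeasurePreserving.ae hW3
    filter_upwards [hW3, hW3'] with ω h1 h2 z S hSz ψ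
    rw [h1, h2]
    exact PA_shift K ω z hSz ψ
  obtain ⟨Q, hQ1, hQ2, hQ3, hQ4⟩ := fix_cov
    (fun u x => by
      have h1 : StronglyMeasurable fun ω => W ω u := sm_app hW2 stronglyMeasurable_const
      have h2 : ∀ ω, (W ω u) x = ⟪(dl x : L2 (Site d)), W ω u⟫_ℂ := fun ω =>
        (STAT.inner_dl x _).symm
      simp only [h2]
      exact (stronglyMeasurable_const.inner h1).measurable) hWc
  have hQ : ∀ ω, Q ω = PA K ω ∨ Q ω = 0 := by
    intro ω
    rcases hQ1 ω with h | h
    · rcases hW1 ω with h' | h'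
      · left; rw [h, h']
      · right; rw [h, h']
    · exact Or.inr h
  have hQn : ∀ ω x, ‖Q ω x‖ ≤ 1 * ‖x‖ := by
    intro ω x
    rcases hQ ω with h | h
    · rw [h]
      exact hn ω x
    · rw [h, zero_apply, norm_zero]
      positivity
  have hQae : ∀ᵐ ω ∂(PP d ν), Q ω = PA K ω := by
    filter_upwards [hQ4, hW3] with ω h1 h2
    rw [h1, h2]
  refine ⟨Q, ⟨hQn, fun f hf => ?_, hQ3⟩, fun V f g => ?_, hQae, ?_⟩
  · refine sm_app (fun y => ?_) hf
    exact (flds hQn hQ2 hQ3).1.meas _ stronglyMeasurable_const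
  · rcases hQ V with h | h
    · rw [h]
      exact PA_symm K V f g
    · rw [h, zero_apply, zero_apply, inner_zero_left, inner_zero_right]
  · filter_upwards [hQae, bd_ae (d := d) hK] with ω h1 h2 t ψ
    rw [h1]
    exact PA_U h2 (hev ω) t ψ

end Pool.Agent.H39.WM
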