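import Pool.Agent.H39.WM.C1
import Pool.Agent.H39.WM.B2

/-! # The curves `s ↦ U_{-s} w U_s p` in the mean square space -/

set_option autoImplicit false

open MeasureTheory Filter Topology
open scoped BigOperators ENNReal NNReal InnerProductSpace ComplexConjugate

namespace Pool.Agent.H39.WM

open Pool.Agent.H5R2.NB Pool.Agent.R988.NQ Pool.Agent.Y662.ERG

variable {d : ℕ} {c o : ℝ} {ev : (Site d → ℝ) → UG (L2 (Site d))}
variable {ν : Measure ℝ} [IsProbabilityMeasure ν]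

/-- the mean square space -/
abbrev LP (d : ℕ) (ν : Measure ℝ) [IsProbabilityMeasure ν] : Type := Lp (L2 (Site d)) 2 (PP d ν)

/-- bounded measurable functions are square integrable -/
theorem mem_of {f : (Site d → ℝ) → L2 (Site d)} (hf : AEStronglyMeasurable f (PP d ν)) {C : ℝ}
    (hC : ∀ V, ‖f V‖ ≤ C) : MemLp f 2 (PP d ν) :=
  MemLp.of_bound hf C (ae_of_all _ hC)

theorem mem_vec {A : OF d} {C : ℝ} (hA : Fld C A) : MemLp (vec A) 2 (PP d ν) :=
  mem_of hA.sm.aestronglyMeasurable hA.nb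

open Classical in
/-- the class of a function -/
noncomputable def tl (ν : Measure ℝ) [IsProbabilityMeasure ν] (f : (Site d → ℝ) → L2 (Site d)) :
    LP d ν :=
  if h : MemLp f 2 (PP d ν) then h.toLp else 0

theorem tl_coe {f : (Site d → ℝ) → L2 (Site d)} (h : MemLp f 2 (PP d ν)) :
    (tl ν f : (Site d → ℝ) → L2 (Site d)) =ᵐ[PP d ν] f := by
  unfold tl
  rw [dif_pos h]
  exact h.coeFn_toLp

theorem tl_inner {f g : (Site d → ℝ) → L2 (Site d)} (hf : MemLp f 2 (PP d ν))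
    (hg : MemLp g 2 (PP d ν)) : ⟪tl ν f, tl ν g⟫_ℂ = ∫ V, ⟪f V, g V⟫_ℂ ∂(PP d ν) := by
  rw [L2.inner_def]
  refine integral_congr_ae ?_
  filter_upwards [tl_coe hf, tl_coe hg] with V h1 h2
  rw [h1, h2]

theorem tl_inner' (y : LP d ν) {g : (Site d → ℝ) → L2 (Site d)}
    (hg : MemLp g 2 (PP d ν)) : ⟪y, tl ν g⟫_ℂ = ∫ V, ⟪y V, g V⟫_ℂ ∂(PP d ν) := by
  rw [L2.inner_def]
  refine integral_congr_ae ?_
  filter_upwards [tl_coe hg] with V h2
  rw [h2]

theorem tl_norm {f : (Site d → ℝ) → L2 (Site d)} (hf : MemLp f 2 (PP d ν)) :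
    ‖tl ν f‖ ^ 2 = ∫ V, ‖f V‖ ^ 2 ∂(PP d ν) := by
  have h1 := tl_inner hf hf
  rw [inner_self_eq_norm_sq_to_K] at h1
  have h2 : ∫ V, ⟪f V, f V⟫_ℂ ∂(PP d ν) = ((∫ V, ‖f V‖ ^ 2 ∂(PP d ν) : ℝ) : ℂ) := by
    rw [← integral_complex_ofReal]
    refine integral_congr_ae (ae_of_all _ fun V => ?_)
    show ⟪f V, f V⟫_ℂ = ((‖f V‖ ^ 2 : ℝ) : ℂ)
    rw [inner_self_eq_norm_sq_to_K]
    push_cast
    rfl
  refine Complex.ofReal_injective ?_
  rw [← h2, ← h1]
  push_cast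
  rfl

theorem tl_sub {f g : (Site d → ℝ) → L2 (Site d)} (hf : MemLp f 2 (PP d ν))
    (hg : MemLp g 2 (PP d ν)) : tl ν f - tl ν g = tl ν (fun V => f V - g V) := by
  have h1 : MemLp (fun V => f V - g V) 2 (PP d ν) := hf.sub hg
  refine Lp.ext ?_
  filter_upwards [Lp.coeFn_sub (tl ν f) (tl ν g), tl_coe hf, tl_coe hg, tl_coe h1]
    with V e1 e2 e3 e4
  rw [e1, e4, Pi.sub_apply, e2, e3]

theorem tl_add {f g : (Site d → ℝ) → L2 (Site d)} (hf : MemLp f 2 (PP d ν))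
    (hg : MemLp g 2 (PP d ν)) : tl ν f + tl ν g = tl ν (fun V => f V + g V) := by
  have h1 : MemLp (fun V => f V + g V) 2 (PP d ν) := hf.add hg
  refine Lp.ext ?_
  filter_upwards [Lp.coeFn_add (tl ν f) (tl ν g), tl_coe hf, tl_coe hg, tl_coe h1]
    with V e1 e2 e3 e4
  rw [e1, e4, Pi.add_apply, e2, e3]

/-- the curve -/
noncomputable def XX (ev : (Site d → ℝ) → UG (L2 (Site d))) (ν : Measure ℝ)
    [IsProbabilityMeasure ν] (Pf w : OF d) (s : ℝ) : LP d ν := tl ν (vec (mulF (fl ev w s) Pf))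

section curve

variable {Pf w : OF d} {C : ℝ}

theorem fld_fp (hev : ∀ ω : Site d → ℝ, IsGrp c (fun x => o + ω x) (ev ω)) (hP : Fld 1 Pf)
    (hw : Fld C w) (s : ℝ) : Fld C (mulF (fl ev w s) Pf) := by
  have h := (fld_fl hev hw s).mul hw.nonneg hP
  rwa [mul_one] at h

theorem fld_pf (hev : ∀ ω : Site d → ℝ, IsGrp c (fun x => o + ω x) (ev ω)) (hP : Fld 1 Pf)
    (hw : Fld C w) (s : ℝ) : Fld C (mulF Pf (fl ev w s)) := by
  have h := hP.mul zero_le_one (fld_fl hev hw s)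
  rwa [one_mul] at h

/-- stationarity -/
theorem XX_st (hev : ∀ ω : Site d → ℝ, IsGrp c (fun x => o + ω x) (ev ω)) (hP : Fld 1 Pf)
    (sP : Sym Pf) (hPU : ∀ᵐ ω ∂(PP d ν), ∀ t ψ, Pf ω ((ev ω).U t ψ) = (ev ω).U t (Pf ω ψ))
    (hw : Fld C w) (sw : Sym w) : StC (XX ev ν Pf w) := by
  intro s t a
  have hF := fun s => fld_fp hev hP hw s
  have hG := fun s => fld_pf hev hP hw s
  have hA : ∀ s, Adj (mulF (fl ev w s) Pf) (mulF Pf (fl ev w s)) := fun s =>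
    Adj.mul (sym_fl sw s).adj sP.adj
  unfold XX
  rw [tl_inner (mem_vec (hF _)) (mem_vec (hF _)), tl_inner (mem_vec (hF _)) (mem_vec (hF _))]
  -- the left hand side
  have e1 : ∫ V, ⟪vec (mulF (fl ev w (s + a)) Pf) V, vec (mulF (fl ev w (t + a)) Pf) V⟫_ℂ
      ∂(PP d ν) = ∫ V, ⟪vec (mulF (mulF (fl ev w s) Pf) (Uf ev a)) V,
        vec (mulF (mulF (fl ev w t) Pf) (Uf ev a)) V⟫_ℂ ∂(PP d ν) := by
    refine integral_congr_ae ?_
    filter_upwards [hPU] with V hV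
    show ⟪fl ev w (s + a) V (Pf V (dl 0)), fl ev w (t + a) V (Pf V (dl 0))⟫_ℂ =
      ⟪fl ev w s V (Pf V ((ev V).U a (dl 0))), fl ev w t V (Pf V ((ev V).U a (dl 0)))⟫_ℂ
    rw [fl_add, fl_add, hV]
    have h := STAT.inner_adj (ev V) a ((ev V).U (-a) (fl ev w s V ((ev V).U a (Pf V (dl 0)))))
      (fl ev w t V ((ev V).U a (Pf V (dl 0))))
    have h1 : ∀ x y : L2 (Site d), ⟪(ev V).U (-a) x, (ev V).U (-a) y⟫_ℂ = ⟪x, y⟫_ℂ := by
      intro x y
      rw [STAT.inner_adj, neg_neg, ← (ev V).add', add_neg_cancel, (ev V).zero']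
    exact h1 _ _
  have hU := fldU hev a
  have hU' := fldU hev (-a)
  have hC := hw.nonneg
  have e2 := trace (ν := ν) ((hF s).mul hC hU) (hU'.mul zero_le_one (hG s)) ((hF t).mul hC hU)
    (hU'.mul zero_le_one (hG t)) (Adj.mul (hA s) (adj_U a)) (Adj.mul (hA t) (adj_U a))
  have e3 : ∫ V, ⟪vec (mulF (Uf ev (-a)) (mulF Pf (fl ev w t))) V,
      vec (mulF (Uf ev (-a)) (mulF Pf (fl ev w s))) V⟫_ℂ ∂(PP d ν) =
      ∫ V, ⟪vec (mulF Pf (fl ev w t)) V, vec (mulF Pf (fl ev w s)) V⟫_ℂ ∂(PP d ν) := by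
    refine integral_congr_ae (ae_of_all _ fun V => ?_)
    show ⟪(ev V).U (-a) (vec (mulF Pf (fl ev w t)) V), (ev V).U (-a) (vec (mulF Pf (fl ev w s)) V)⟫_ℂ
      = _
    rw [STAT.inner_adj, neg_neg, ← (ev V).add', add_neg_cancel, (ev V).zero']
  have e4 := trace (ν := ν) (hF s) (hG s) (hF t) (hG t) (hA s) (hA t)
  rw [e1, e2, e3, e4]

theorem Uf_zero (V : Site d → ℝ) (ψ : L2 (Site d)) : (ev V).U 0 ψ = ψ := (ev V).zero' ψ

theorem fl_zero (w : OF d) (V : Site d → ℝ) (ψ : L2 (Site d)) : fl ev w 0 V ψ = w V ψ := by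
  rw [fl_apply, neg_zero, (ev V).zero', (ev V).zero']

/-- the norm of the curve -/
theorem XX_norm (hev : ∀ ω : Site d → ℝ, IsGrp c (fun x => o + ω x) (ev ω)) (hP : Fld 1 Pf)
    (sP : Sym Pf) (hPU : ∀ᵐ ω ∂(PP d ν), ∀ t ψ, Pf ω ((ev ω).U t ψ) = (ev ω).U t (Pf ω ψ))
    (hw : Fld C w) (sw : Sym w) (s : ℝ) : ‖XX ev ν Pf w s‖ ^ 2 ≤ tauB ν w := by
  rw [(XX_st hev hP sP hPU hw sw).norm s]
  unfold XX
  rw [tl_norm (mem_vec (fld_fp hev hP hw 0))]
  have h1 : tauB ν (mulF w Pf) = tauB ν (mulF Pf w) :=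
    tau_adj (hw.mul hw.nonneg hP) (hP.mul zero_le_one hw) (Adj.mul sw.adj sP.adj)
  have h2 : tauB ν (mulF Pf w) ≤ tauB ν w := by
    unfold tauB
    refine integral_mono ?_ ?_ fun V => ?_
    · exact (mem_vec (hP.mul zero_le_one hw)).integrable_norm_pow two_ne_zero
    · exact (mem_vec hw).integrable_norm_pow two_ne_zero
    · refine pow_le_pow_left₀ (norm_nonneg _) ?_ 2
      have := hP.bd V (w V (dl 0))
      rwa [one_mul] at this
  refine le_trans (le_of_eq ?_) h2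
  rw [← h1]
  unfold tauB
  refine integral_congr_ae (ae_of_all _ fun V => ?_)
  show ‖fl ev w 0 V (Pf V (dl 0))‖ ^ 2 = ‖w V (Pf V (dl 0))‖ ^ 2
  rw [fl_zero]

theorem fl_cont (w : OF d) (V : Site d → ℝ) (ψ : L2 (Site d)) :
    Continuous fun s => fl ev w s V ψ := LIMB.cont_P (ev V) (w V) ψ

/-- continuity -/
theorem XX_cont (hev : ∀ ω : Site d → ℝ, IsGrp c (fun x => o + ω x) (ev ω)) (hP : Fld 1 Pf)
    (hw : Fld C w) : Continuous (XX ev ν Pf w) := by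
  rw [continuous_iff_continuousAt]
  intro s0
  have hF := fun s => fld_fp hev hP hw s
  have h1 : Tendsto (fun s => ‖XX ev ν Pf w s - XX ev ν Pf w s0‖ ^ 2) (𝓝 s0) (𝓝 0) := by
    have h2 : ∀ s, ‖XX ev ν Pf w s - XX ev ν Pf w s0‖ ^ 2 =
        ∫ V, ‖vec (mulF (fl ev w s) Pf) V - vec (mulF (fl ev w s0) Pf) V‖ ^ 2 ∂(PP d ν) := by
      intro s
      unfold XX
      have h3 : MemLp (fun V => vec (mulF (fl ev w s) Pf) V - vec (mulF (fl ev w s0) Pf) V) 2
        (PP d ν) := MemLp.sub (mem_vec (hF s)) (mem_vec (hF s0))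
      rw [tl_sub (mem_vec (hF _)) (mem_vec (hF _)), tl_norm h3]
    simp_rw [h2]
    have h3 : (0 : ℝ) = ∫ _V : Site d → ℝ, (0 : ℝ) ∂(PP d ν) := by simp
    rw [h3]
    refine tendsto_integral_filter_of_dominated_convergence (fun _ => (C + C) ^ 2) ?_ ?_
      (integrable_const _) (ae_of_all _ fun V => ?_)
    · exact Eventually.of_forall fun s => (((hF s).sm.sub (hF s0).sm).norm.pow 2).aestronglyMeasurable
    · refine Eventually.of_forall fun s => ae_of_all _ fun V => ?_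
      rw [Real.norm_of_nonneg (by positivity)]
      refine pow_le_pow_left₀ (norm_nonneg _) ?_ 2
      exact (norm_sub_le _ _).trans (add_le_add ((hF s).nb V) ((hF s0).nb V))
    · have h4 : Continuous fun s => ‖vec (mulF (fl ev w s) Pf) V - vec (mulF (fl ev w s0) Pf) V‖ ^ 2 :=
        (((fl_cont w V (Pf V (dl 0))).sub continuous_const).norm).pow 2
      have h5 := h4.tendsto s0
      simp only [sub_self, norm_zero, ne_eq, OfNat.ofNat_ne_zero, not_false_eq_true, zero_pow] at h5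
      exact h5
  have h2 : Tendsto (fun s => ‖XX ev ν Pf w s - XX ev ν Pf w s0‖) (𝓝 s0) (𝓝 0) := by
    have h3 := h1.sqrt
    rw [Real.sqrt_zero] at h3
    refine h3.congr fun s => ?_
    rw [Real.sqrt_sq (norm_nonneg _)]
  exact tendsto_iff_norm_sub_tendsto_zero.2 h2

/-- the curve is additive in the field -/
theorem XX_sub (hev : ∀ ω : Site d → ℝ, IsGrp c (fun x => o + ω x) (ev ω)) (hP : Fld 1 Pf)
    {w' : OF d} {C' : ℝ} (hw : Fld C w) (hw' : Fld C' w') (s : ℝ) :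
    XX ev ν Pf (subF w w') s = XX ev ν Pf w s - XX ev ν Pf w' s := by
  unfold XX
  rw [tl_sub (mem_vec (fld_fp hev hP hw s)) (mem_vec (fld_fp hev hP hw' s))]
  congr 1
  funext V
  show (ev V).U (-s) (w V ((ev V).U s (Pf V (dl 0))) - w' V ((ev V).U s (Pf V (dl 0)))) = _
  rw [map_sub]
  rfl

/-- the curve of a conserved field is constant -/
theorem XX_const (ν : Measure ℝ) [IsProbabilityMeasure ν] {B : OF d} (comm : ∀ V t x, B V ((ev V).U t x) = (ev V).U t (B V x)) (s : ℝ) :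
    XX ev ν Pf B s = XX ev ν Pf B 0 := by
  unfold XX
  congr 1
  funext V
  show (ev V).U (-s) (B V ((ev V).U s (Pf V (dl 0)))) = (ev V).U (-0) (B V ((ev V).U 0 (Pf V (dl 0))))
  rw [comm, comm, ← (ev V).add', neg_add_cancel, ← (ev V).add', neg_add_cancel]

end curve

end Pool.Agent.H39.WM
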