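import Pool.Agent.H39.WM.C2

/-! # The twisted averages of the curves are small -/

set_option autoImplicit false

open MeasureTheory Filter Topology
open scoped BigOperators ENNReal NNReal InnerProductSpace ComplexConjugate

namespace Pool.Agent.H39.WM

open Pool.Agent.H5R2.NB Pool.Agent.R988.NQ Pool.Agent.Y662.ERG
open Pool.Agent.TH980.IM (HV HV_sa spm)

variable {d : ℕ} {c o : ℝ} {ev : (Site d → ℝ) → UG (L2 (Site d))}
variable {ν : Measure ℝ} [IsProbabilityMeasure ν] {Pf w : OF d} {C : ℝ}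

theorem ps_eq (l s : ℝ) : ps l s = ph l s := rfl

/-- the integral of the curve is the class of the pointwise integrals -/
theorem int_XX (hev : ∀ ω : Site d → ℝ, IsGrp c (fun x => o + ω x) (ev ω)) (hP : Fld 1 Pf)
    (hw : Fld C w) (l T : ℝ) (hT : 0 ≤ T) :
    MemLp (fun V => ∫ s in (0 : ℝ)..T, ph l s • fl ev w s V (Pf V (dl 0))) 2 (PP d ν) ∧
      ∫ s in (0 : ℝ)..T, ph l s • XX ev ν Pf w s =
        tl ν fun V => ∫ s in (0 : ℝ)..T, ph l s • fl ev w s V (Pf V (dl 0)) := by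
  have hF := fun s => fld_fp hev hP hw s
  have hC := hw.nonneg
  set Φ : (Site d → ℝ) → ℝ → L2 (Site d) := fun V s => ph l s • fl ev w s V (Pf V (dl 0)) with hΦ
  have hΦc : ∀ V, Continuous (Φ V) := fun V => (ph_cont l).smul (fl_cont w V (Pf V (dl 0)))
  have hΦn : ∀ V s, ‖Φ V s‖ ≤ C := by
    intro V s
    rw [hΦ]
    simp only
    rw [norm_smul, ph_norm, one_mul]
    exact (hF s).nb V
  have hΦj : StronglyMeasurable (Function.uncurry fun (s : ℝ) (V : Site d → ℝ) => Φ V s) := by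
    refine stronglyMeasurable_uncurry_of_continuous_of_stronglyMeasurable (fun V => hΦc V)
      (fun s => ?_)
    exact (hF s).sm.const_smul (ph l s)
  have hΦm : StronglyMeasurable (Function.uncurry Φ) := hΦj.comp_measurable measurable_swap
  have hZe : (fun V => ∫ s in (0 : ℝ)..T, Φ V s) = fun V => ∫ s in Set.Ioc (0 : ℝ) T, Φ V s :=
    funext fun V => intervalIntegral.integral_of_le hT
  have hZm : StronglyMeasurable fun V => ∫ s in (0 : ℝ)..T, Φ V s := by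
    rw [hZe]
    exact hΦm.integral_prod_right
  have hZn : ∀ V, ‖∫ s in (0 : ℝ)..T, Φ V s‖ ≤ C * |T - 0| := fun V =>
    intervalIntegral.norm_integral_le_of_norm_le_const fun s _ => hΦn V s
  have hZ : MemLp (fun V => ∫ s in (0 : ℝ)..T, Φ V s) 2 (PP d ν) :=
    mem_of hZm.aestronglyMeasurable hZn
  refine ⟨hZ, ext_inner_left ℂ fun y => ?_⟩
  have hXc : Continuous fun s => ph l s • XX ev ν Pf w s := (ph_cont l).smul (XX_cont hev hP hw)
  have e1 : ⟪y, ∫ s in (0 : ℝ)..T, ph l s • XX ev ν Pf w s⟫_ℂ =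
      ∫ s in (0 : ℝ)..T, ⟪y, ph l s • XX ev ν Pf w s⟫_ℂ := by
    have := (innerSL ℂ y).intervalIntegral_comp_comm (hXc.intervalIntegrable (μ := volume) 0 T)
    exact this.symm
  have e2 : ∀ s, ⟪y, ph l s • XX ev ν Pf w s⟫_ℂ = ∫ V, ⟪y V, Φ V s⟫_ℂ ∂(PP d ν) := by
    intro s
    rw [inner_smul_right]
    unfold XX
    rw [tl_inner' y (mem_vec (hF s)), ← integral_const_mul]
    refine integral_congr_ae (ae_of_all _ fun V => ?_)
    show ph l s * ⟪y V, fl ev w s V (Pf V (dl 0))⟫_ℂ =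
      ⟪y V, ph l s • fl ev w s V (Pf V (dl 0))⟫_ℂ
    rw [inner_smul_right]
  rw [e1, tl_inner' y hZ]
  simp_rw [e2]
  rw [intervalIntegral.integral_of_le hT]
  have hint : Integrable (Function.uncurry fun (V : Site d → ℝ) (s : ℝ) => ⟪y V, Φ V s⟫_ℂ)
      ((PP d ν).prod (volume.restrict (Set.Ioc 0 T))) := by
    have hy : Integrable (fun V => ‖y V‖ * C) (PP d ν) :=
      ((Lp.memLp y).integrable (by norm_num)).norm.mul_const C
    refine (hy.comp_fst (volume.restrict (Set.Ioc 0 T))).mono' ?_ (ae_of_all _ fun q => ?_)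
    · exact ((Lp.aestronglyMeasurable y).comp_fst).inner hΦm.aestronglyMeasurable
    · exact (norm_inner_le_norm _ _).trans
        (mul_le_mul_of_nonneg_left (hΦn _ _) (norm_nonneg _))
  rw [← integral_integral_swap hint]
  refine integral_congr_ae (ae_of_all _ fun V => ?_)
  show ∫ s in Set.Ioc 0 T, ⟪y V, Φ V s⟫_ℂ = ⟪y V, ∫ s in (0 : ℝ)..T, Φ V s⟫_ℂ
  rw [← intervalIntegral.integral_of_le hT]
  exact (innerSL ℂ (y V)).intervalIntegral_comp_comm
    ((hΦc V).intervalIntegrable (μ := volume) 0 T)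

/-- smallness from pointwise convergence -/
theorem small_of (hev : ∀ ω : Site d → ℝ, IsGrp c (fun x => o + ω x) (ev ω)) (hP : Fld 1 Pf)
    (hw : Fld C w) (l : ℝ) (Nk : ℕ → ℕ) (hNk : Tendsto Nk atTop atTop)
    (h : ∀ᵐ V ∂(PP d ν), Tendsto (fun k => tP (ev V) (w V) l (Nk k) (Pf V (dl 0))) atTop (𝓝 0))
    {ε : ℝ} (hε : 0 < ε) :
    ∀ᶠ k in atTop, ‖∫ s in (0 : ℝ)..(Nk k : ℝ), ph l s • XX ev ν Pf w s‖ ≤ ε * (Nk k : ℝ) := by
  have hC := hw.nonneg
  have hbd : ∀ (N : ℕ) V, ‖tP (ev V) (w V) l N (Pf V (dl 0))‖ ≤ C := by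
    intro N V
    refine LIMB.norm_avg _ _ (fun s => ?_) N
    rw [norm_smul, ph_norm, one_mul]
    exact (fld_fp hev hP hw s).nb V
  have hme : ∀ N : ℕ, AEStronglyMeasurable (fun V => tP (ev V) (w V) l N (Pf V (dl 0))) (PP d ν) :=
    fun N => ((int_XX (ν := ν) hev hP hw l N (Nat.cast_nonneg N)).1.1).const_smul ((N : ℂ)⁻¹)
  have hlim : Tendsto (fun k => ∫ V, ‖tP (ev V) (w V) l (Nk k) (Pf V (dl 0))‖ ^ 2 ∂(PP d ν)) atTop
      (𝓝 0) := by
    have h3 : (0 : ℝ) = ∫ _V : Site d → ℝ, (0 : ℝ) ∂(PP d ν) := by simp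
    rw [h3]
    refine tendsto_integral_of_dominated_convergence (fun _ => C ^ 2) (fun k => ?_)
      (integrable_const _) (fun k => ae_of_all _ fun V => ?_) ?_
    · exact ((hme (Nk k)).norm.pow 2)
    · rw [Real.norm_of_nonneg (by positivity)]
      exact pow_le_pow_left₀ (norm_nonneg _) (hbd _ V) 2
    · filter_upwards [h] with V hV
      have := (hV.norm).pow 2
      simpa using this
  filter_upwards [hlim.eventually (gt_mem_nhds (show (0 : ℝ) < ε ^ 2 by positivity)),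
    hNk.eventually (eventually_gt_atTop 0)] with k hk hk0
  obtain ⟨h1, h2⟩ := int_XX (ν := ν) hev hP hw l (Nk k) (Nat.cast_nonneg _)
  rw [h2]
  have hNr : (0 : ℝ) < Nk k := Nat.cast_pos.2 hk0
  have hNc : (Nk k : ℂ) ≠ 0 := Nat.cast_ne_zero.2 hk0.ne'
  refine (sq_le_sq₀ (norm_nonneg _) (by positivity)).1 ?_
  rw [tl_norm h1, mul_pow]
  have e : ∀ V, ‖∫ s in (0 : ℝ)..(Nk k : ℝ), ph l s • fl ev w s V (Pf V (dl 0))‖ ^ 2 =
      (Nk k : ℝ) ^ 2 * ‖tP (ev V) (w V) l (Nk k) (Pf V (dl 0))‖ ^ 2 := by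
    intro V
    have e1 : ‖tP (ev V) (w V) l (Nk k) (Pf V (dl 0))‖ = (Nk k : ℝ)⁻¹ *
        ‖∫ s in (0 : ℝ)..(Nk k : ℝ), ph l s • fl ev w s V (Pf V (dl 0))‖ := by
      unfold tP
      rw [norm_smul, norm_inv, Complex.norm_natCast]
      rfl
    rw [e1]
    field_simp
  simp_rw [e]
  rw [integral_const_mul, mul_comm]
  exact mul_le_mul_of_nonneg_right hk.le (by positivity)

theorem ph_int {l : ℝ} (hl : l ≠ 0) (T : ℝ) : ‖∫ s in (0 : ℝ)..T, ph l s‖ ≤ 2 / |l| := by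
  have e : ∀ r : ℝ, ph l r = Complex.exp ((Complex.I * (l : ℂ)) * r) := by
    intro r
    unfold ph
    congr 1
    push_cast
    ring
  simp_rw [e]
  have hc : Complex.I * (l : ℂ) ≠ 0 := mul_ne_zero Complex.I_ne_zero (by exact_mod_cast hl)
  rw [integral_exp_mul_complex hc, norm_div, norm_mul, Complex.norm_I, one_mul,
    Complex.norm_real, Real.norm_eq_abs]
  refine div_le_div_of_nonneg_right ?_ (abs_nonneg l)
  refine (norm_sub_le _ _).trans ?_
  have h : ∀ r : ℝ, ‖Complex.exp (Complex.I * (l : ℂ) * (r : ℂ))‖ = 1 := by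
    intro r
    rw [Complex.norm_exp]
    simp
  rw [h, h]
  norm_num

theorem tP_zero (v B : OF d) (comm : ∀ V t x, B V ((ev V).U t x) = (ev V).U t (B V x))
    (V : Site d → ℝ) (x : L2 (Site d)) {N : ℕ} (hN : 0 < N) :
    tP (ev V) (subF v B V) 0 N x = avP (ev V) (v V) N x - B V x := by
  have hNc : (N : ℂ) ≠ 0 := Nat.cast_ne_zero.2 hN.ne'
  unfold tP avP
  have e1 : ∫ s in (0 : ℝ)..(N : ℝ), ph 0 s • (ev V).U (-s) (subF v B V ((ev V).U s x)) =
      (∫ s in (0 : ℝ)..(N : ℝ), (ev V).U (-s) (v V ((ev V).U s x))) - (N : ℂ) • B V x := by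
    have e2 : (N : ℂ) • B V x = ∫ _s in (0 : ℝ)..(N : ℝ), B V x := by
      rw [intervalIntegral.integral_const, sub_zero]
      rfl
    rw [e2, ← intervalIntegral.integral_sub
      ((LIMB.cont_P (ev V) (v V) x).intervalIntegrable _ _)
      (continuous_const.intervalIntegrable _ _)]
    refine intervalIntegral.integral_congr fun s _ => ?_
    have e3 : ph 0 s = 1 := by unfold ph; simp
    show ph 0 s • (ev V).U (-s) (v V ((ev V).U s x) - B V ((ev V).U s x)) =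
      (ev V).U (-s) (v V ((ev V).U s x)) - B V x
    rw [e3, one_smul, map_sub, comm, ← (ev V).add' (-s) s, neg_add_cancel, (ev V).zero']
  refine (congrArg (fun z : L2 (Site d) => ((N : ℂ)⁻¹) • z) e1).trans ?_
  show ((N : ℂ)⁻¹) • ((∫ s in (0 : ℝ)..(N : ℝ), (ev V).U (-s) (v V ((ev V).U s x))) -
    (N : ℂ) • B V x) = _
  rw [smul_sub, smul_smul, inv_mul_cancel₀ hNc, one_smul]
  rfl

/-- the twisted averages of `v - B` are small -/
theorem small_D (hd : 1 ≤ d) {K : ℝ} (hK : ∀ᵐ r ∂ν, |r| ≤ K) (hν : ∀ r : ℝ, ν {r} ≠ 1)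
    (hev : ∀ ω : Site d → ℝ, IsGrp (-1) (fun x => 2 * d + ω x) (ev ω)) (hP : Fld 1 Pf)
    (sP : Sym Pf) (hPU : ∀ᵐ ω ∂(PP d ν), ∀ t ψ, Pf ω ((ev ω).U t ψ) = (ev ω).U t (Pf ω ψ))
    (hPA : ∀ᵐ ω ∂(PP d ν), Pf ω = PA K ω) {v B : OF d} {M : ℝ} (hv : Fld M v) (sv : Sym v)
    (hB : Fld M B) (comm : ∀ V t x, B V ((ev V).U t x) = (ev V).U t (B V x))
    (hconv : ∀ᵐ V ∂(PP d ν), ∀ x, Tendsto (fun N : ℕ => avP (ev V) (v V) N x) atTop (𝓝 (B V x)))
    (l ε T0 : ℝ) (hε : 0 < ε) :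
    ∃ T, T0 ≤ T ∧ ‖∫ s in (0 : ℝ)..T, ps l s • XX ev ν Pf (subF v B) s‖ ≤ ε * T := by
  simp only [ps_eq]
  rcases eq_or_ne l 0 with hl | hl
  · -- the ergodic theorem
    subst hl
    have h := small_of (ν := ν) hev hP (hv.sub hB) 0 (fun k => k) tendsto_id (by
      filter_upwards [hconv] with V hV
      have h1 := (hV (Pf V (dl 0))).sub_const (B V (Pf V (dl 0)))
      rw [sub_self] at h1
      refine h1.congr' ?_
      filter_upwards [eventually_gt_atTop 0] with N hN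
      exact (tP_zero v B comm V (Pf V (dl 0)) hN).symm) hε
    obtain ⟨k, hk1, hk2⟩ := (h.and (eventually_ge_atTop ⌈T0⌉₊)).exists
    exact ⟨(k : ℝ), Nat.ceil_le.1 hk2, hk1⟩
  · -- approximation by a local observable
    obtain ⟨u, M', hO, hu⟩ := approx (ν := ν) hv sv (ENNReal.ofReal ((ε / 4) ^ 2))
      (ENNReal.ofReal_pos.2 (by positivity))
    have hu' : Fld M' u := obs_fld hO
    have su : Sym u := hO.symm
    have htau : tauB ν (subF v u) ≤ (ε / 4) ^ 2 := by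
      rw [nn_symm, nn_eq (hv.sub hu')] at hu
      exact (ENNReal.ofReal_le_ofReal_iff (by positivity)).1 hu
    have hX1 : ∀ s, ‖XX ev ν Pf (subF v u) s‖ ≤ ε / 4 := by
      intro s
      refine (sq_le_sq₀ (norm_nonneg _) (by positivity)).1 ?_
      exact (XX_norm hev hP sP hPU (hv.sub hu') (Sym.sub sv su) s).trans htau
    obtain ⟨a, ha, hG⟩ := tw_obs hd hK hν hev hO hl id tendsto_id
    have h := small_of (ν := ν) hev hP hu' l a ha.tendsto_atTop (by
      filter_upwards [hG, hPA] with V ⟨B', hB1, hB2⟩ hPV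
      have h1 := (hB1 (Pf V (dl 0))).1
      rw [hB2 (Pf V (dl 0)) (by rw [hPV]; exact acP_ac _ _)] at h1
      exact h1) (show 0 < ε / 4 by positivity)
    set b := ‖XX ev ν Pf B 0‖ with hb
    obtain ⟨k, hk1, hk2, hk3⟩ := (h.and ((ha.tendsto_atTop.eventually
      (eventually_ge_atTop ⌈T0⌉₊)).and (ha.tendsto_atTop.eventually
      (eventually_ge_atTop ⌈2 / |l| * b / (ε / 4)⌉₊)))).exists
    refine ⟨(a k : ℝ), Nat.ceil_le.1 hk2, ?_⟩
    have hT0 : (0 : ℝ) ≤ a k := Nat.cast_nonneg _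
    have hk4 : 2 / |l| * b ≤ ε / 4 * a k := by
      have := Nat.ceil_le.1 hk3
      rw [div_le_iff₀ (by positivity)] at this
      linarith
    have hc1 : Continuous fun s => ph l s • XX ev ν Pf (subF v u) s :=
      (ph_cont l).smul (XX_cont hev hP (hv.sub hu'))
    have hc2 : Continuous fun s => ph l s • XX ev ν Pf u s := (ph_cont l).smul (XX_cont hev hP hu')
    have hc3 : Continuous fun s => ph l s • XX ev ν Pf B s := (ph_cont l).smul (XX_cont hev hP hB)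
    have e : ∫ s in (0 : ℝ)..(a k : ℝ), ph l s • XX ev ν Pf (subF v B) s =
        (∫ s in (0 : ℝ)..(a k : ℝ), ph l s • XX ev ν Pf (subF v u) s) +
        (∫ s in (0 : ℝ)..(a k : ℝ), ph l s • XX ev ν Pf u s) -
        ∫ s in (0 : ℝ)..(a k : ℝ), ph l s • XX ev ν Pf B s := by
      have hc12 : Continuous fun s => ph l s • XX ev ν Pf (subF v u) s + ph l s • XX ev ν Pf u s :=
        hc1.add hc2
      rw [← intervalIntegral.integral_add (hc1.intervalIntegrable _ _)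
        (hc2.intervalIntegrable _ _), ← intervalIntegral.integral_sub
        (hc12.intervalIntegrable _ _) (hc3.intervalIntegrable _ _)]
      refine intervalIntegral.integral_congr fun s _ => ?_
      show ph l s • XX ev ν Pf (subF v B) s = ph l s • XX ev ν Pf (subF v u) s +
        ph l s • XX ev ν Pf u s - ph l s • XX ev ν Pf B s
      rw [XX_sub hev hP hv hB, XX_sub hev hP hv hu', smul_sub, smul_sub]
      abel
    have n1 : ‖∫ s in (0 : ℝ)..(a k : ℝ), ph l s • XX ev ν Pf (subF v u) s‖ ≤ ε / 4 * a k := by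
      have := intervalIntegral.norm_integral_le_of_norm_le_const (a := (0 : ℝ)) (b := (a k : ℝ))
        (C := ε / 4) (f := fun s => ph l s • XX ev ν Pf (subF v u) s) (fun s _ => by
          rw [norm_smul, ph_norm, one_mul]
          exact hX1 s)
      rwa [sub_zero, abs_of_nonneg hT0] at this
    have n3 : ‖∫ s in (0 : ℝ)..(a k : ℝ), ph l s • XX ev ν Pf B s‖ ≤ ε / 4 * a k := by
      have e2 : ∫ s in (0 : ℝ)..(a k : ℝ), ph l s • XX ev ν Pf B s =
          (∫ s in (0 : ℝ)..(a k : ℝ), ph l s) • XX ev ν Pf B 0 := by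
        rw [← intervalIntegral.integral_smul_const]
        refine intervalIntegral.integral_congr fun s _ => ?_
        show ph l s • XX ev ν Pf B s = ph l s • XX ev ν Pf B 0
        rw [XX_const ν comm s]
      rw [e2, norm_smul]
      refine (mul_le_mul_of_nonneg_right (ph_int hl _) (norm_nonneg _)).trans hk4
    rw [e]
    calc _ ≤ ‖(∫ s in (0 : ℝ)..(a k : ℝ), ph l s • XX ev ν Pf (subF v u) s) +
        ∫ s in (0 : ℝ)..(a k : ℝ), ph l s • XX ev ν Pf u s‖ +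
        ‖∫ s in (0 : ℝ)..(a k : ℝ), ph l s • XX ev ν Pf B s‖ := norm_sub_le _ _
      _ ≤ (ε / 4 * a k + ε / 4 * a k) + ε / 4 * a k :=
          add_le_add ((norm_add_le _ _).trans (add_le_add n1 hk1)) n3
      _ ≤ ε * a k := by nlinarith

/-- **weak mixing at the origin** -/
theorem wm0 (hd : 1 ≤ d) {K : ℝ} (hK : ∀ᵐ r ∂ν, |r| ≤ K) (hν : ∀ r : ℝ, ν {r} ≠ 1)
    (hev : ∀ ω : Site d → ℝ, IsGrp (-1) (fun x => 2 * d + ω x) (ev ω)) (hP : Fld 1 Pf)
    (sP : Sym Pf) (hPU : ∀ᵐ ω ∂(PP d ν), ∀ t ψ, Pf ω ((ev ω).U t ψ) = (ev ω).U t (Pf ω ψ))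
    (hPA : ∀ᵐ ω ∂(PP d ν), Pf ω = PA K ω) {v B : OF d} {M : ℝ} (hv : Fld M v) (sv : Sym v)
    (hB : Fld M B) (sB : Sym B) (comm : ∀ V t x, B V ((ev V).U t x) = (ev V).U t (B V x))
    (hconv : ∀ᵐ V ∂(PP d ν), ∀ x, Tendsto (fun N : ℕ => avP (ev V) (v V) N x) atTop (𝓝 (B V x)))
    (y : LP d ν) :
    Tendsto (fun T : ℝ => (1 / T) * ∫ s in (0 : ℝ)..T,
      ‖⟪y, XX ev ν Pf (subF v B) s⟫_ℂ‖ ^ 2) atTop (𝓝 0) :=
  weak_mixing (XX_cont hev hP (hv.sub hB)) (XX_st hev hP sP hPU (hv.sub hB) (Sym.sub sv sB))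
    (fun l ε T0 hε => small_D hd hK hν hev hP sP hPU hPA hv sv hB comm hconv l ε T0 hε) y

end Pool.Agent.H39.WM
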