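import Pool.Agent.H39.WM.C3

/-! # Weak mixing for arbitrary square integrable states -/

set_option autoImplicit false

open MeasureTheory Filter Topology
open scoped BigOperators ENNReal NNReal InnerProductSpace ComplexConjugate

namespace Pool.Agent.H39.WM

open Pool.Agent.H5R2.NB Pool.Agent.R988.NQ Pool.Agent.Y662.ERG
open Pool.Agent.TH980.IM (HV HV_sa spm)

section abs

/-- the means of the squares tend to zero -/
def WMs (f : ℝ → ℂ) : Prop :=
  Tendsto (fun T : ℝ => (1 / T) * ∫ s in (0 : ℝ)..T, ‖f s‖ ^ 2) atTop (𝓝 0)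

theorem WMs.zero : WMs fun _ => 0 := by
  unfold WMs
  simp

theorem WMs.sq_cont {f : ℝ → ℂ} (hf : Continuous f) (c : ℝ) :
    Continuous fun s => c * ‖f s‖ ^ 2 := (hf.norm.pow 2).const_mul c

theorem WMs.sq_cont' {f : ℝ → ℂ} (hf : Continuous f) :
    Continuous fun s => ‖f s‖ ^ 2 := hf.norm.pow 2

theorem WMs.le {f g : ℝ → ℂ} {c e : ℝ} (hf : Continuous f) (hg : Continuous g)
    (h : ∀ s, ‖f s‖ ^ 2 ≤ c * ‖g s‖ ^ 2 + e) {T : ℝ} (hT : 0 < T) :
    (1 / T) * ∫ s in (0 : ℝ)..T, ‖f s‖ ^ 2 ≤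
      c * ((1 / T) * ∫ s in (0 : ℝ)..T, ‖g s‖ ^ 2) + e := by
  have hc1 : Continuous fun s => c * ‖g s‖ ^ 2 := WMs.sq_cont hg c
  have hc2 : Continuous fun s => c * ‖g s‖ ^ 2 + e := hc1.add continuous_const
  have h1 : ∫ s in (0 : ℝ)..T, ‖f s‖ ^ 2 ≤ ∫ s in (0 : ℝ)..T, (c * ‖g s‖ ^ 2 + e) :=
    intervalIntegral.integral_mono_on hT.le ((WMs.sq_cont' hf).intervalIntegrable _ _)
      (hc2.intervalIntegrable _ _) fun s _ => h s
  have h2 : ∫ s in (0 : ℝ)..T, (c * ‖g s‖ ^ 2 + e) =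
      c * (∫ s in (0 : ℝ)..T, ‖g s‖ ^ 2) + T * e := by
    rw [intervalIntegral.integral_add (hc1.intervalIntegrable _ _)
      (continuous_const.intervalIntegrable _ _), intervalIntegral.integral_const_mul,
      intervalIntegral.integral_const, sub_zero, smul_eq_mul]
  rw [h2] at h1
  have h3 := mul_le_mul_of_nonneg_left h1 (show (0 : ℝ) ≤ 1 / T by positivity)
  refine h3.trans (le_of_eq ?_)
  field_simp

theorem WMs.nonneg (f : ℝ → ℂ) {T : ℝ} (hT : 0 < T) :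
    0 ≤ (1 / T) * ∫ s in (0 : ℝ)..T, ‖f s‖ ^ 2 :=
  mul_nonneg (by positivity) (intervalIntegral.integral_nonneg hT.le fun _ _ => by positivity)

theorem WMs.add {f g : ℝ → ℂ} (hf : Continuous f) (hg : Continuous g) (h : WMs f) (h' : WMs g) :
    WMs fun s => f s + g s := by
  have h1 := (h.const_mul 2).add (h'.const_mul 2)
  simp only [mul_zero, add_zero] at h1
  refine tendsto_of_tendsto_of_tendsto_of_le_of_le' tendsto_const_nhds h1 ?_ ?_
  · filter_upwards [eventually_gt_atTop (0 : ℝ)] with T hT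
    exact WMs.nonneg _ hT
  · filter_upwards [eventually_gt_atTop (0 : ℝ)] with T hT
    have hc1 := WMs.sq_cont hf 2
    have hc2 := WMs.sq_cont hg 2
    have hc3 : Continuous fun s => 2 * ‖f s‖ ^ 2 + 2 * ‖g s‖ ^ 2 := hc1.add hc2
    have hc4 : Continuous fun s => ‖f s + g s‖ ^ 2 := WMs.sq_cont' (hf.add hg)
    have h2 : ∫ s in (0 : ℝ)..T, ‖f s + g s‖ ^ 2 ≤
        ∫ s in (0 : ℝ)..T, (2 * ‖f s‖ ^ 2 + 2 * ‖g s‖ ^ 2) := by
      refine intervalIntegral.integral_mono_on hT.le (hc4.intervalIntegrable _ _)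
        (hc3.intervalIntegrable _ _) fun s _ => ?_
      have h3 : ‖f s + g s‖ ^ 2 ≤ (‖f s‖ + ‖g s‖) ^ 2 :=
        pow_le_pow_left₀ (norm_nonneg _) (norm_add_le _ _) 2
      nlinarith [sq_nonneg (‖f s‖ - ‖g s‖)]
    rw [intervalIntegral.integral_add (hc1.intervalIntegrable _ _)
      (hc2.intervalIntegrable _ _),
      intervalIntegral.integral_const_mul, intervalIntegral.integral_const_mul] at h2
    have h3 := mul_le_mul_of_nonneg_left h2 (show (0 : ℝ) ≤ 1 / T by positivity)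
    refine h3.trans (le_of_eq ?_)
    ring

theorem WMs.sum {ι : Type*} (F : Finset ι) (f : ι → ℝ → ℂ) (hf : ∀ i, Continuous (f i))
    (h : ∀ i, WMs (f i)) : WMs fun s => ∑ i ∈ F, f i s := by
  classical
  induction F using Finset.induction_on with
  | empty =>
    simp only [Finset.sum_empty]
    exact WMs.zero
  | insert a F ha ih =>
    simp only [Finset.sum_insert ha]
    exact WMs.add (hf a) (continuous_finsetSum _ fun i _ => hf i) (h a) ih

/-- closedness under uniform limits -/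
theorem WMs.lim {f : ℝ → ℂ} (hf : Continuous f) {g : ℕ → ℝ → ℂ} (hg : ∀ n, Continuous (g n))
    (h : ∀ n, WMs (g n)) {e : ℕ → ℝ} (he : Tendsto e atTop (𝓝 0))
    (hfg : ∀ n s, ‖f s - g n s‖ ≤ e n) : WMs f := by
  unfold WMs
  rw [Metric.tendsto_atTop]
  intro η hη
  have h1 : Tendsto (fun n => 2 * e n ^ 2) atTop (𝓝 0) := by
    have := (he.pow 2).const_mul 2
    simpa using this
  obtain ⟨n, hn⟩ := (h1.eventually (gt_mem_nhds (half_pos hη))).exists
  have h2 := ((h n).const_mul 2)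
  rw [mul_zero] at h2
  obtain ⟨T0, hT0⟩ := eventually_atTop.1 ((h2.eventually (gt_mem_nhds (half_pos hη))).and
    (eventually_gt_atTop (0 : ℝ)))
  refine ⟨T0, fun T hT => ?_⟩
  obtain ⟨h3, h4⟩ := hT0 T hT
  rw [Real.dist_eq, sub_zero, abs_of_nonneg (WMs.nonneg f h4)]
  have h5 := WMs.le (c := 2) (e := 2 * e n ^ 2) hf (hg n) (fun s => ?_) h4
  · linarith
  · have e1 : ‖f s‖ ≤ ‖g n s‖ + e n := by
      have := norm_sub_norm_le (f s) (g n s)
      linarith [hfg n s]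
    have h6 : ‖f s‖ ^ 2 ≤ (‖g n s‖ + e n) ^ 2 := pow_le_pow_left₀ (norm_nonneg _) e1 2
    nlinarith [sq_nonneg (‖g n s‖ - e n)]

end abs

variable {d : ℕ} {c o : ℝ} {ev : (Site d → ℝ) → UG (L2 (Site d))}
variable {ν : Measure ℝ} [IsProbabilityMeasure ν] {Pf D : OF d} {C : ℝ}

/-- the coefficient curve -/
noncomputable def cc (ev : (Site d → ℝ) → UG (L2 (Site d))) (ν : Measure ℝ)
    [IsProbabilityMeasure ν] (Pf D : OF d) (φ ψ : (Site d → ℝ) → L2 (Site d)) (s : ℝ) : ℂ :=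
  ∫ ω, ⟪φ ω, fl ev D s ω (Pf ω (ψ ω))⟫_ℂ ∂(PP d ν)

theorem cc_meas (hev : ∀ ω : Site d → ℝ, IsGrp c (fun x => o + ω x) (ev ω)) (hP : Fld 1 Pf)
    (hD : Fld C D) {φ ψ : (Site d → ℝ) → L2 (Site d)} (hφ : MemLp φ 2 (PP d ν))
    (hψ : MemLp ψ 2 (PP d ν)) (s : ℝ) :
    AEStronglyMeasurable (fun ω => ⟪φ ω, fl ev D s ω (Pf ω (ψ ω))⟫_ℂ) (PP d ν) :=
  hφ.1.inner (fld_aesm (fld_fl hev hD s) (fld_aesm hP hψ.1))

theorem cc_bd (hev : ∀ ω : Site d → ℝ, IsGrp c (fun x => o + ω x) (ev ω)) (hP : Fld 1 Pf)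
    (hD : Fld C D) (φ ψ : L2 (Site d)) (ω : Site d → ℝ) (s : ℝ) :
    ‖⟪φ, fl ev D s ω (Pf ω ψ)⟫_ℂ‖ ≤ C * (‖φ‖ * ‖ψ‖) := by
  refine (norm_inner_le_norm _ _).trans ?_
  have h1 := (fld_fp hev hP hD s).bd ω ψ
  have h2 : ‖fl ev D s ω (Pf ω ψ)‖ ≤ C * ‖ψ‖ := h1
  calc ‖φ‖ * ‖fl ev D s ω (Pf ω ψ)‖ ≤ ‖φ‖ * (C * ‖ψ‖) :=
        mul_le_mul_of_nonneg_left h2 (norm_nonneg _)
    _ = _ := by ring

theorem nn_int {φ ψ : (Site d → ℝ) → L2 (Site d)} (hφ : MemLp φ 2 (PP d ν))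
    (hψ : MemLp ψ 2 (PP d ν)) : Integrable (fun ω => ‖φ ω‖ * ‖ψ ω‖) (PP d ν) :=
  hφ.norm.integrable_mul hψ.norm

theorem cc_cont (hev : ∀ ω : Site d → ℝ, IsGrp c (fun x => o + ω x) (ev ω)) (hP : Fld 1 Pf)
    (hD : Fld C D) {φ ψ : (Site d → ℝ) → L2 (Site d)} (hφ : MemLp φ 2 (PP d ν))
    (hψ : MemLp ψ 2 (PP d ν)) : Continuous (cc ev ν Pf D φ ψ) := by
  unfold cc
  refine continuous_of_dominated (bound := fun ω => C * (‖φ ω‖ * ‖ψ ω‖))
    (fun s => cc_meas hev hP hD hφ hψ s)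
    (fun s => ae_of_all _ fun ω => cc_bd hev hP hD _ _ ω s) ((nn_int hφ hψ).const_mul C)
    (ae_of_all _ fun ω => continuous_const.inner (fl_cont D ω (Pf ω (ψ ω))))

/-- the elementary vectors -/
theorem cc_elem (hev : ∀ ω : Site d → ℝ, IsGrp c (fun x => o + ω x) (ev ω)) (hP : Fld 1 Pf)
    (hD : Fld C D)
    (hwm : ∀ y : LP d ν, WMs fun s => ⟪y, XX ev ν Pf D s⟫_ℂ)
    {φ : (Site d → ℝ) → L2 (Site d)} (hφ : MemLp φ 2 (PP d ν)) {g : (Site d → ℝ) → ℂ}
    (hg : AEStronglyMeasurable g (PP d ν)) {R : ℝ} (hR : ∀ ω, ‖g ω‖ ≤ R) (x : Site d) :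
    WMs (cc ev ν Pf D φ fun ω => g ω • dl x) := by
  obtain ⟨S, hS⟩ := (t_OPS d).1 (-x)
  obtain ⟨S', hS'⟩ := (t_OPS d).1 x
  have hS'' : IsShift (- -x) S' := by rwa [neg_neg]
  have hmp := (t_RES d ν).2 (-x)
  have hmpx := (t_RES d ν).2 x
  set Θ : (Site d → ℝ) → L2 (Site d) := fun ω => conj (g ω) • S' (φ ω) with hΘ
  have hΘ2 : MemLp Θ 2 (PP d ν) := by
    refine hφ.of_le_mul (c := R * ‖S'‖) ?_ (ae_of_all _ fun ω => ?_)
    · exact (Complex.continuous_conj.comp_aestronglyMeasurable hg).smul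
        (S'.continuous.comp_aestronglyMeasurable hφ.1)
    · rw [hΘ]
      simp only
      rw [norm_smul, RCLike.norm_conj, mul_assoc]
      exact mul_le_mul (hR ω) (S'.le_opNorm _) (norm_nonneg _)
        ((norm_nonneg _).trans (hR ω))
  set Φ : (Site d → ℝ) → L2 (Site d) := Θ ∘ fun (V : Site d → ℝ) (y : Site d) => V (y + -x) with hΦ
  have hΦ2 : MemLp Φ 2 (PP d ν) := hΘ2.comp_measurePreserving hmp
  have key : ∀ s, cc ev ν Pf D φ (fun ω => g ω • dl x) s = ⟪tl ν Φ, XX ev ν Pf D s⟫_ℂ := by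
    intro s
    have hF := fld_fp hev hP hD s
    unfold XX cc
    rw [tl_inner hΦ2 (mem_vec hF)]
    set h : (Site d → ℝ) → ℂ := fun V => ⟪Φ V, vec (mulF (fl ev D s) Pf) V⟫_ℂ with hh
    have hhm : AEStronglyMeasurable h (PP d ν) := hΦ2.1.inner hF.sm.aestronglyMeasurable
    have e1 : ∫ V, h V ∂(PP d ν) = ∫ V, h (fun y => V (y + x)) ∂(PP d ν) := by
      conv_lhs => rw [← hmpx.map_eq]
      rw [integral_map hmpx.measurable.aemeasurable]
      rw [hmpx.map_eq]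
      exact hhm
    rw [e1]
    refine integral_congr_ae (ae_of_all _ fun ω => ?_)
    show ⟪φ ω, fl ev D s ω (Pf ω (g ω • dl x))⟫_ℂ =
      ⟪Φ (fun y => ω (y + x)), vec (mulF (fl ev D s) Pf) (fun y => ω (y + x))⟫_ℂ
    have e2 : Φ (fun y => ω (y + x)) = conj (g ω) • S' (φ ω) := by
      rw [hΦ, hΘ]
      have : (fun y => ω (y + -x + x)) = ω := by
        funext y
        rw [neg_add_cancel_right]
      show conj (g (fun y => ω (y + -x + x))) • S' (φ (fun y => ω (y + -x + x))) = _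
      rw [this]
    have e3 : mulF (fl ev D s) Pf ω (dl x) = S (vec (mulF (fl ev D s) Pf) (fun y => ω (y + x))) := by
      have g3 := hF.cov (-x) S hS (fun y => ω (y + x)) (dl 0)
      have e : (fun y => (fun y => ω (y + x)) (y + -x)) = ω := by
        funext y; simp
      rw [e, LIMB.shift_dl x S hS] at g3
      exact g3
    have e4 : fl ev D s ω (Pf ω (g ω • dl x)) = g ω • mulF (fl ev D s) Pf ω (dl x) := by
      rw [map_smul, map_smul]
      rfl
    rw [e2, e4, e3, inner_smul_right, inner_smul_left, Complex.conj_conj]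
    congr 1
    have h5 := STAT.shift_inner x S' S hS' hS (φ ω) (vec (mulF (fl ev D s) Pf) (fun y => ω (y + x)))
    exact h5.symm
  have e : cc ev ν Pf D φ (fun ω => g ω • dl x) = fun s => ⟪tl ν Φ, XX ev ν Pf D s⟫_ℂ :=
    funext key
  rw [e]
  exact hwm _

/-- **weak mixing for all square integrable states** -/
theorem cc_wm (hev : ∀ ω : Site d → ℝ, IsGrp c (fun x => o + ω x) (ev ω)) (hP : Fld 1 Pf)
    (hD : Fld C D)
    (hwm : ∀ y : LP d ν, WMs fun s => ⟪y, XX ev ν Pf D s⟫_ℂ)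
    {φ ψ : (Site d → ℝ) → L2 (Site d)} (hφ : MemLp φ 2 (PP d ν)) (hψ : MemLp ψ 2 (PP d ν)) :
    WMs (cc ev ν Pf D φ ψ) := by
  obtain ⟨ψ', hm, he⟩ := hψ.1
  have hψ' : MemLp ψ' 2 (PP d ν) := hψ.ae_eq he
  have e0 : cc ev ν Pf D φ ψ = cc ev ν Pf D φ ψ' := by
    funext s
    unfold cc
    refine integral_congr_ae ?_
    filter_upwards [he] with ω hω
    rw [hω]
  rw [e0]
  obtain ⟨F, hF⟩ := exhaust (d := d)
  set gx : ℕ → Site d → (Site d → ℝ) → ℂ := fun n x =>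
    Set.indicator {ω | ‖ψ' ω‖ ≤ n} fun ω => (ψ' ω) x with hgx
  set ψn : ℕ → (Site d → ℝ) → L2 (Site d) := fun n =>
    Set.indicator {ω | ‖ψ' ω‖ ≤ n} fun ω => pf (F n) (ψ' ω) with hψn
  have hset : ∀ n : ℕ, MeasurableSet {ω | ‖ψ' ω‖ ≤ n} := fun n =>
    measurableSet_le hm.norm.measurable measurable_const
  have hn1 : ∀ n ω, ‖ψn n ω‖ ≤ ‖ψ' ω‖ := by
    intro n ω
    rw [hψn]
    simp only
    by_cases h : ω ∈ {ω | ‖ψ' ω‖ ≤ n}
    · rw [Set.indicator_of_mem h]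
      exact pf_le _ _
    · rw [Set.indicator_of_notMem h, norm_zero]
      exact norm_nonneg _
  have hnm : ∀ n, StronglyMeasurable (ψn n) := fun n =>
    ((pf (F n)).continuous.comp_stronglyMeasurable hm).indicator (hset n)
  have hn2 : ∀ n, MemLp (ψn n) 2 (PP d ν) := fun n =>
    hψ'.of_le (hnm n).aestronglyMeasurable (ae_of_all _ (hn1 n))
  have hsum : ∀ n ω, ψn n ω = ∑ x ∈ F n, gx n x ω • (dl x : L2 (Site d)) := by
    intro n ω
    simp only [hψn, hgx]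
    by_cases h : ω ∈ {ω | ‖ψ' ω‖ ≤ n}
    · simp only [Set.indicator_of_mem h]
      exact pf_sum _ _
    · simp only [Set.indicator_of_notMem h, zero_smul, Finset.sum_const_zero]
  have hgm : ∀ n x, StronglyMeasurable (gx n x) := fun n x =>
    ((STAT.cont_eval x).comp_stronglyMeasurable hm).indicator (hset n)
  have hgb : ∀ n x ω, ‖gx n x ω‖ ≤ n := by
    intro n x ω
    simp only [hgx]
    by_cases h : ω ∈ {ω | ‖ψ' ω‖ ≤ n}
    · rw [Set.indicator_of_mem h]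
      exact (lp.norm_apply_le_norm (by norm_num) (ψ' ω) x).trans h
    · rw [Set.indicator_of_notMem h, norm_zero]
      exact Nat.cast_nonneg n
  have hge : ∀ n x, MemLp (fun ω => gx n x ω • (dl x : L2 (Site d))) 2 (PP d ν) := fun n x =>
    mem_of ((hgm n x).smul_const _).aestronglyMeasurable (C := n) fun ω => by
      rw [norm_smul, STAT.norm_dl, mul_one]
      exact hgb n x ω
  -- finite sums
  have hw1 : ∀ n, WMs (cc ev ν Pf D φ (ψn n)) := by
    intro n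
    have e1 : cc ev ν Pf D φ (ψn n) = fun s => ∑ x ∈ F n,
        cc ev ν Pf D φ (fun ω => gx n x ω • dl x) s := by
      funext s
      unfold cc
      rw [← integral_finsetSum]
      · refine integral_congr_ae (ae_of_all _ fun ω => ?_)
        show ⟪φ ω, fl ev D s ω (Pf ω (ψn n ω))⟫_ℂ = _
        rw [hsum, map_sum, map_sum, inner_sum]
      · intro x _
        exact ((nn_int hφ (hge n x)).const_mul C).mono' (cc_meas hev hP hD hφ (hge n x) s)
          (ae_of_all _ fun ω => cc_bd hev hP hD _ _ ω s)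
    rw [e1]
    exact WMs.sum _ _ (fun x => cc_cont hev hP hD hφ (hge n x))
      fun x => cc_elem hev hP hD hwm hφ (hgm n x).aestronglyMeasurable (hgb n x) x
  -- the error
  set e : ℕ → ℝ := fun n => ∫ ω, C * (‖φ ω‖ * ‖ψ' ω - ψn n ω‖) ∂(PP d ν) with he'
  have he0 : Tendsto e atTop (𝓝 0) := by
    have h3 : (0 : ℝ) = ∫ _V : Site d → ℝ, (0 : ℝ) ∂(PP d ν) := by simp
    rw [h3]
    have hC := hD.nonneg
    refine tendsto_integral_of_dominated_convergence (fun ω => C * (‖φ ω‖ * (2 * ‖ψ' ω‖)))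
      (fun n => ?_) ?_ (fun n => ae_of_all _ fun ω => ?_) (ae_of_all _ fun ω => ?_)
    · exact ((hφ.1.norm.mul (hψ'.1.sub (hn2 n).1).norm).const_mul C)
    · have h4 := (nn_int hφ hψ').const_mul (C * 2)
      refine h4.congr (ae_of_all _ fun ω => ?_)
      show C * 2 * (‖φ ω‖ * ‖ψ' ω‖) = C * (‖φ ω‖ * (2 * ‖ψ' ω‖))
      ring
    · rw [Real.norm_of_nonneg (by positivity)]
      refine mul_le_mul_of_nonneg_left (mul_le_mul_of_nonneg_left ?_ (norm_nonneg _)) hC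
      refine (norm_sub_le _ _).trans ?_
      linarith [hn1 n ω]
    · have h5 : Tendsto (fun n => ψn n ω) atTop (𝓝 (ψ' ω)) := by
        refine (pf_tendsto hF (ψ' ω)).congr' ?_
        filter_upwards [eventually_ge_atTop ⌈‖ψ' ω‖⌉₊] with n hn
        simp only [hψn]
        rw [Set.indicator_of_mem]
        exact Nat.ceil_le.1 hn
      have h6 := ((h5.const_sub (ψ' ω)).norm.const_mul ‖φ ω‖).const_mul C
      simpa using h6
  refine WMs.lim (cc_cont hev hP hD hφ hψ') (fun n => cc_cont hev hP hD hφ (hn2 n)) hw1 he0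
    fun n s => ?_
  have i1 : Integrable (fun ω => ⟪φ ω, fl ev D s ω (Pf ω (ψ' ω))⟫_ℂ) (PP d ν) :=
    ((nn_int hφ hψ').const_mul C).mono' (cc_meas hev hP hD hφ hψ' s)
      (ae_of_all _ fun ω => cc_bd hev hP hD _ _ ω s)
  have i2 : Integrable (fun ω => ⟪φ ω, fl ev D s ω (Pf ω (ψn n ω))⟫_ℂ) (PP d ν) :=
    ((nn_int hφ (hn2 n)).const_mul C).mono' (cc_meas hev hP hD hφ (hn2 n) s)
      (ae_of_all _ fun ω => cc_bd hev hP hD _ _ ω s)
  unfold cc
  rw [← integral_sub i1 i2]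
  refine (norm_integral_le_integral_norm _).trans ?_
  refine integral_mono_of_nonneg (ae_of_all _ fun _ => norm_nonneg _)
    ((nn_int hφ (hψ'.sub (hn2 n))).const_mul C) (ae_of_all _ fun ω => ?_)
  show ‖⟪φ ω, fl ev D s ω (Pf ω (ψ' ω))⟫_ℂ - ⟪φ ω, fl ev D s ω (Pf ω (ψn n ω))⟫_ℂ‖ ≤
    C * (‖φ ω‖ * ‖ψ' ω - ψn n ω‖)
  rw [← inner_sub_right, ← map_sub, ← map_sub]
  exact cc_bd hev hP hD _ _ ω s

end Pool.Agent.H39.WM
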