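import Pool.Agent.H39.WM.C4

/-! # The weak mixing theorem for fields -/

set_option autoImplicit false

open MeasureTheory Filter Topology
open scoped BigOperators ENNReal NNReal InnerProductSpace ComplexConjugate

namespace Pool.Agent.H39.WM

open Pool.Agent.H5R2.NB Pool.Agent.R988.NQ Pool.Agent.Y662.ERG
open Pool.Agent.TH980.IM (HV HV_sa spm)

theorem WMs.mulI {g : ℝ → ℂ} (h : WMs g) : WMs fun s => Complex.I * g s := by
  unfold WMs at *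
  simp only [norm_mul, Complex.norm_I, one_mul]
  exact h

variable {d : ℕ} {ev : (Site d → ℝ) → UG (L2 (Site d))}
variable {ν : Measure ℝ} [IsProbabilityMeasure ν]

/-- the field minus its limit, at time `s` -/
theorem fl_sub_B (R B : OF d) (comm : ∀ V t x, B V ((ev V).U t x) = (ev V).U t (B V x)) (s : ℝ)
    (V : Site d → ℝ) (x : L2 (Site d)) :
    fl ev (subF R B) s V x = (ev V).U (-s) (R V ((ev V).U s x)) - B V x := by
  show (ev V).U (-s) (R V ((ev V).U s x) - B V ((ev V).U s x)) = _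
  rw [map_sub, comm, ← (ev V).add' (-s) s, neg_add_cancel, (ev V).zero']

/-- **weak mixing on the absolutely continuous subspace** -/
theorem main_wm (hd : 1 ≤ d) {K : ℝ} (hK : ∀ᵐ r ∂ν, |r| ≤ K) (hν : ∀ r : ℝ, ν {r} ≠ 1)
    (hev : ∀ ω : Site d → ℝ, IsGrp (-1) (fun x => 2 * d + ω x) (ev ω))
    {W : OF d} {M : ℝ} (hb : ∀ V ψ, ‖W V ψ‖ ≤ M * ‖ψ‖)
    (hm : ∀ (u : L2 (Site d)) (x : Site d), Measurable fun V => (W V u) x)
    (hc : ∀ (z : Site d) (S : L2 (Site d) →L[ℂ] L2 (Site d)), IsShift z S → ∀ V ψ,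
      W (fun y => V (y + z)) (S ψ) = S (W V ψ)) :
    ∃ (B : OF d) (R : ℝ) (f : ℝ → ℂ), Measurable f ∧ (∃ R' : ℝ, ∀ E, ‖f E‖ ≤ R') ∧ Fld R B ∧
      (∀ᵐ ω ∂(PP d ν), (∀ x, |ω x| ≤ K) ∧ (∀ x, B ω (HV K ω x) = HV K ω (B ω x)) ∧
        (∀ ψ, ∀ᵐ E : ℝ, Ngl (HV K ω) E (B ω ψ - f E • ψ)) ∧
        ∀ ψ, spm (HV_sa K ω) ψ ≪ volume → ∀ t : ℝ, ⟪Ex (HV K ω) t ψ, B ω ψ⟫_ℂ =
          ∫ E : ℝ, Complex.exp (Complex.I * t * E) * f E ∂(spm (HV_sa K ω) ψ)) ∧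
      ∀ φ ψ : (Site d → ℝ) → L2 (Site d), MemLp φ 2 (PP d ν) → MemLp ψ 2 (PP d ν) →
        (∀ᵐ ω ∂(PP d ν), spm (HV_sa K ω) (ψ ω) ≪ volume) →
        WMs fun s => ∫ ω, ⟪φ ω, (ev ω).U (-s) (W ω ((ev ω).U s (ψ ω))) - B ω (ψ ω)⟫_ℂ
          ∂(PP d ν) := by
  obtain ⟨hW, hW'⟩ := flds hb hm hc
  have hM : 0 ≤ M := hW.nonneg
  have hA : Fld (‖(2⁻¹ : ℂ)‖ * (M + M)) (reF W) := (hW.add hW').smul 2⁻¹
  have hB : Fld (‖(-(Complex.I * 2⁻¹) : ℂ)‖ * (M + M)) (imF W) :=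
    (hW.sub hW').smul (-(Complex.I * 2⁻¹))
  obtain ⟨B1, p1, p2, p3, p4⟩ := erg_off (ν := ν) (2 * d) hev hA (sym_re W)
  obtain ⟨B2, q1, q2, q3, q4⟩ := erg_off (ν := ν) (2 * d) hev hB (sym_im W)
  obtain ⟨Pf, hP, sP, hPA, hPU⟩ := exists_proj (ν := ν) hK hev
  have hF : Fld (‖(2⁻¹ : ℂ)‖ * (M + M) + ‖Complex.I‖ * (‖(-(Complex.I * 2⁻¹) : ℂ)‖ * (M + M)))
      (addF B1 (fun V => Complex.I • B2 V)) := p1.add (q1.smul Complex.I)
  have hcom : ∀ V t x, (addF B1 (fun V => Complex.I • B2 V)) V ((ev V).U t x) =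
      (ev V).U t ((addF B1 (fun V => Complex.I • B2 V)) V x) := by
    intro V t x
    show B1 V ((ev V).U t x) + Complex.I • B2 V ((ev V).U t x) =
      (ev V).U t (B1 V x + Complex.I • B2 V x)
    rw [p3, q3, map_add, map_smul]
  obtain ⟨f, hf1, hf2, hf3⟩ := main_gen hd hK hν hev hF.bd
    (fun u x => ((STAT.cont_eval x).comp_stronglyMeasurable
      (hF.meas _ stronglyMeasurable_const)).measurable) hF.cov (ae_of_all _ hcom)
  refine ⟨_, _, f, hf1, hf2, hF, hf3, fun φ ψ hφ hψ hac => ?_⟩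
  have w1 := cc_wm hev hP (hA.sub p1) (fun y => wm0 hd hK hν hev hP sP hPU hPA hA (sym_re W)
    p1 p2 p3 p4 y) hφ hψ
  have w2 := cc_wm hev hP (hB.sub q1) (fun y => wm0 hd hK hν hev hP sP hPU hPA hB (sym_im W)
    q1 q2 q3 q4 y) hφ hψ
  have c1 := cc_cont (ν := ν) hev hP (hA.sub p1) hφ hψ
  have c2 := cc_cont (ν := ν) hev hP (hB.sub q1) hφ hψ
  have w3 := WMs.add c1 (continuous_const.mul c2) w1 w2.mulI
  have e : (fun s => ∫ ω, ⟪φ ω, (ev ω).U (-s) (W ω ((ev ω).U s (ψ ω))) -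
      addF B1 (fun V => Complex.I • B2 V) ω (ψ ω)⟫_ℂ ∂(PP d ν)) = fun s =>
      cc ev ν Pf (subF (reF W) B1) φ ψ s + Complex.I * cc ev ν Pf (subF (imF W) B2) φ ψ s := by
    funext s
    have i1 : Integrable (fun ω => ⟪φ ω, fl ev (subF (reF W) B1) s ω (Pf ω (ψ ω))⟫_ℂ) (PP d ν) :=
      ((nn_int hφ hψ).const_mul _).mono' (cc_meas hev hP (hA.sub p1) hφ hψ s)
        (ae_of_all _ fun ω => cc_bd hev hP (hA.sub p1) _ _ ω s)
    have i2 : Integrable (fun ω => ⟪φ ω, fl ev (subF (imF W) B2) s ω (Pf ω (ψ ω))⟫_ℂ) (PP d ν) :=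
      ((nn_int hφ hψ).const_mul _).mono' (cc_meas hev hP (hB.sub q1) hφ hψ s)
        (ae_of_all _ fun ω => cc_bd hev hP (hB.sub q1) _ _ ω s)
    unfold cc
    rw [← integral_const_mul, ← integral_add i1 (i2.const_mul _)]
    refine integral_congr_ae ?_
    filter_upwards [hac, hPA] with ω h1 h2
    have h3 : Pf ω (ψ ω) = ψ ω := by
      rw [h2]
      exact acP_of _ h1
    show ⟪φ ω, (ev ω).U (-s) (W ω ((ev ω).U s (ψ ω))) -
      (B1 ω (ψ ω) + Complex.I • B2 ω (ψ ω))⟫_ℂ =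
      ⟪φ ω, fl ev (subF (reF W) B1) s ω (Pf ω (ψ ω))⟫_ℂ +
        Complex.I * ⟪φ ω, fl ev (subF (imF W) B2) s ω (Pf ω (ψ ω))⟫_ℂ
    rw [h3, fl_sub_B _ _ p3, fl_sub_B _ _ q3, ← inner_smul_right, ← inner_add_right]
    congr 1
    rw [re_im W ω, map_add, map_smul]
    module
  rw [e]
  exact w3

end Pool.Agent.H39.WM
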