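import Pool.Agent.H39.WM.C5

/-! # No covariant ladder operators on the absolutely continuous subspace -/

set_option autoImplicit false

open MeasureTheory Filter Topology
open scoped BigOperators ENNReal NNReal InnerProductSpace ComplexConjugate

namespace Pool.Agent.H39.WM

open Pool.Agent.H5R2.NB Pool.Agent.R988.NQ Pool.Agent.Y662.ERG
open Pool.Agent.TH980.IM (HV HV_sa spm)

/-- a rotating coefficient cannot be weakly mixing -/
theorem WMs.rot {l : ℝ} (hl : l ≠ 0) {a b : ℂ} (h : WMs fun s => ph l s * a - b) : a = 0 := by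
  have hc : Continuous fun s => ph l s * (conj b * a) := (ph_cont l).mul continuous_const
  have e1 : ∀ s, ‖ph l s * a - b‖ ^ 2 = (‖a‖ ^ 2 + ‖b‖ ^ 2) - 2 * (ph l s * (conj b * a)).re := by
    intro s
    have h1 : ‖ph l s * a - b‖ ^ 2 = ‖ph l s * a‖ ^ 2 - 2 * (inner ℂ b (ph l s * a)).re + ‖b‖ ^ 2 := by
      have := @norm_sub_sq ℂ ℂ _ _ _ (ph l s * a) b
      rw [this]
      have h2 : RCLike.re (inner ℂ (ph l s * a) b) = (inner ℂ b (ph l s * a)).re := by
        rw [← inner_conj_symm]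
        exact Complex.conj_re _
      rw [h2]
    rw [h1, norm_mul, ph_norm, one_mul, RCLike.inner_apply]
    have h3 : ph l s * a * conj b = ph l s * (conj b * a) := by ring
    rw [h3]
    ring
  have e2 : ∀ T : ℝ, 0 < T → (1 / T) * ∫ s in (0 : ℝ)..T, ‖ph l s * a - b‖ ^ 2 =
      (‖a‖ ^ 2 + ‖b‖ ^ 2) - 2 * (1 / T * (∫ s in (0 : ℝ)..T, ph l s * (conj b * a)).re) := by
    intro T hT
    have h1 : ∫ s in (0 : ℝ)..T, ‖ph l s * a - b‖ ^ 2 =
        T * (‖a‖ ^ 2 + ‖b‖ ^ 2) - 2 * (∫ s in (0 : ℝ)..T, ph l s * (conj b * a)).re := by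
      simp_rw [e1]
      have hc2 : Continuous fun s => 2 * (ph l s * (conj b * a)).re :=
        (Complex.continuous_re.comp hc).const_mul 2 |> fun h => h
      rw [intervalIntegral.integral_sub (continuous_const.intervalIntegrable _ _)
        (hc2.intervalIntegrable _ _), intervalIntegral.integral_const, sub_zero, smul_eq_mul,
        intervalIntegral.integral_const_mul]
      congr 2
      have := Complex.reCLM.intervalIntegral_comp_comm
        (hc.intervalIntegrable (μ := volume) 0 T)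
      exact this
    rw [h1]
    generalize (∫ s in (0 : ℝ)..T, ph l s * (conj b * a)).re = J
    field_simp
  have e3 : Tendsto (fun T : ℝ => 1 / T * (∫ s in (0 : ℝ)..T, ph l s * (conj b * a)).re) atTop
      (𝓝 0) := by
    have h1 : Tendsto (fun T : ℝ => T⁻¹ * (2 / |l| * ‖conj b * a‖)) atTop (𝓝 0) := by
      have := tendsto_inv_atTop_zero.mul_const (2 / |l| * ‖conj b * a‖)
      rwa [zero_mul] at this
    refine squeeze_zero_norm' ?_ h1
    filter_upwards [eventually_gt_atTop (0 : ℝ)] with T hT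
    rw [norm_mul, norm_div, norm_one, Real.norm_of_nonneg hT.le, one_div]
    refine mul_le_mul_of_nonneg_left ?_ (by positivity)
    rw [Real.norm_eq_abs]
    refine (Complex.abs_re_le_norm _).trans ?_
    rw [intervalIntegral.integral_mul_const, norm_mul]
    exact mul_le_mul_of_nonneg_right (ph_int hl T) (norm_nonneg _)
  have e4 : Tendsto (fun T : ℝ => (1 / T) * ∫ s in (0 : ℝ)..T, ‖ph l s * a - b‖ ^ 2) atTop
      (𝓝 ((‖a‖ ^ 2 + ‖b‖ ^ 2) - 2 * 0)) := by
    refine ((e3.const_mul 2).const_sub _).congr' ?_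
    filter_upwards [eventually_gt_atTop (0 : ℝ)] with T hT
    exact (e2 T hT).symm
  have e5 := tendsto_nhds_unique e4 h
  have e6 : ‖a‖ ^ 2 = 0 := by nlinarith [sq_nonneg ‖a‖, sq_nonneg ‖b‖]
  exact norm_eq_zero.1 (pow_eq_zero_iff two_ne_zero |>.1 e6)

variable {d : ℕ} {ev : (Site d → ℝ) → UG (L2 (Site d))}
variable {ν : Measure ℝ} [IsProbabilityMeasure ν]

/-- **there are no covariant ladder operators** -/
theorem no_ladder (hd : 1 ≤ d) {K : ℝ} (hK : ∀ᵐ r ∂ν, |r| ≤ K) (hν : ∀ r : ℝ, ν {r} ≠ 1)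
    (hev : ∀ ω : Site d → ℝ, IsGrp (-1) (fun x => 2 * d + ω x) (ev ω))
    {W : OF d} {M : ℝ} (hb : ∀ V ψ, ‖W V ψ‖ ≤ M * ‖ψ‖)
    (hm : ∀ (u : L2 (Site d)) (x : Site d), Measurable fun V => (W V u) x)
    (hc : ∀ (z : Site d) (S : L2 (Site d) →L[ℂ] L2 (Site d)), IsShift z S → ∀ V ψ,
      W (fun y => V (y + z)) (S ψ) = S (W V ψ)) {l : ℝ} (hl : l ≠ 0)
    (hlad : ∀ᵐ ω ∂(PP d ν), ∀ t x, W ω ((ev ω).U t x) = ph l t • (ev ω).U t (W ω x)) :
    ∀ᵐ ω ∂(PP d ν), ∀ ψ, spm (HV_sa K ω) ψ ≪ volume → W ω ψ = 0 := by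
  have hW := (flds hb hm hc).1
  obtain ⟨B, R, f, -, -, hB, -, hwm⟩ := main_wm hd hK hν hev hb hm hc
  have hx : ∀ᵐ ω ∂(PP d ν), ∀ x : Site d, W ω (PA K ω (dl x)) = 0 := by
    rw [ae_all_iff]
    intro x
    have m1 : AEStronglyMeasurable (fun ω => PA K ω (dl x)) (PP d ν) :=
      PA_aesm K ν aestronglyMeasurable_const
    have hψ : MemLp (fun ω => PA K ω (dl x)) 2 (PP d ν) := by
      refine mem_of m1 (C := 1) fun ω => ?_
      refine (acP_norm _ _).trans ?_
      exact (STAT.norm_dl x).le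
    have m2 : AEStronglyMeasurable (fun ω => W ω (PA K ω (dl x))) (PP d ν) := fld_aesm hW m1
    have hφ : MemLp (fun ω => W ω (PA K ω (dl x))) 2 (PP d ν) :=
      hψ.of_le_mul m2 (ae_of_all _ fun ω => hb ω _)
    have hBψ : MemLp (fun ω => B ω (PA K ω (dl x))) 2 (PP d ν) :=
      hψ.of_le_mul (fld_aesm hB m1) (ae_of_all _ fun ω => hB.bd ω _)
    have h1 := hwm _ _ hφ hψ (ae_of_all _ fun ω => acP_ac _ _)
    have i1 : Integrable (fun ω => ⟪W ω (PA K ω (dl x)), W ω (PA K ω (dl x))⟫_ℂ) (PP d ν) :=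
      (nn_int hφ hφ).mono' (hφ.1.inner hφ.1) (ae_of_all _ fun ω => norm_inner_le_norm _ _)
    have i2 : Integrable (fun ω => ⟪W ω (PA K ω (dl x)), B ω (PA K ω (dl x))⟫_ℂ) (PP d ν) :=
      (nn_int hφ hBψ).mono' (hφ.1.inner hBψ.1) (ae_of_all _ fun ω => norm_inner_le_norm _ _)
    have e : (fun s => ∫ ω, ⟪W ω (PA K ω (dl x)), (ev ω).U (-s) (W ω ((ev ω).U s
        (PA K ω (dl x)))) - B ω (PA K ω (dl x))⟫_ℂ ∂(PP d ν)) = fun s =>
        ph l s * (∫ ω, ⟪W ω (PA K ω (dl x)), W ω (PA K ω (dl x))⟫_ℂ ∂(PP d ν)) -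
          ∫ ω, ⟪W ω (PA K ω (dl x)), B ω (PA K ω (dl x))⟫_ℂ ∂(PP d ν) := by
      funext s
      rw [← integral_const_mul, ← integral_sub (i1.const_mul _) i2]
      refine integral_congr_ae ?_
      filter_upwards [hlad] with ω hω
      rw [hω, map_smul, ← (ev ω).add' (-s) s, neg_add_cancel, (ev ω).zero', inner_sub_right,
        inner_smul_right]
    rw [e] at h1
    have h2 := WMs.rot hl h1
    have h3 : ∫ ω, ‖W ω (PA K ω (dl x))‖ ^ 2 ∂(PP d ν) = 0 := by
      refine Complex.ofReal_injective ?_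
      rw [Complex.ofReal_zero, ← h2, ← integral_complex_ofReal]
      refine integral_congr_ae (ae_of_all _ fun ω => ?_)
      show ((‖W ω (PA K ω (dl x))‖ ^ 2 : ℝ) : ℂ) = ⟪W ω (PA K ω (dl x)), W ω (PA K ω (dl x))⟫_ℂ
      rw [inner_self_eq_norm_sq_to_K]
      push_cast
      rfl
    rw [integral_eq_zero_iff_of_nonneg (fun _ => by positivity)
      (hφ.integrable_norm_pow two_ne_zero)] at h3
    filter_upwards [h3] with ω hω
    have h4 : ‖W ω (PA K ω (dl x))‖ ^ 2 = 0 := hω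
    exact norm_eq_zero.1 (pow_eq_zero_iff two_ne_zero |>.1 h4)
  filter_upwards [hx] with ω hω ψ hψ
  obtain ⟨F, hF⟩ := exhaust (d := d)
  have h1 : Tendsto (fun n => W ω (PA K ω (pf (F n) ψ))) atTop (𝓝 (W ω (PA K ω ψ))) :=
    ((W ω).continuous.tendsto _).comp (((PA K ω).continuous.tendsto _).comp (pf_tendsto hF ψ))
  have h2 : ∀ n, W ω (PA K ω (pf (F n) ψ)) = 0 := by
    intro n
    rw [pf_sum, map_sum, map_sum]
    refine Finset.sum_eq_zero fun x _ => ?_
    rw [map_smul, map_smul, hω x, smul_zero]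
  simp_rw [h2] at h1
  have h3 := tendsto_nhds_unique h1 tendsto_const_nhds
  have h4 : PA K ω ψ = ψ := acP_of _ hψ
  rwa [h4] at h3

end Pool.Agent.H39.WM
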